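import Mathlib

/-!
# The group algebra of an elementary abelian group in characteristic `p`
-/

set_option autoImplicit false

namespace H58.SP

open MonoidAlgebra

variable {p : ℕ} [hp : Fact p.Prime] {N : Type*} [CommGroup N]

/-- the augmentation -/
noncomputable def ep : MonoidAlgebra (ZMod p) N →ₐ[ZMod p] ZMod p :=
  MonoidAlgebra.lift (ZMod p) (ZMod p) N 1

theorem ep_single (n : N) (c : ZMod p) : ep (single n c) = c := by
  rw [ep, lift_single, MonoidHom.one_apply, smul_eq_mul, mul_one]

variable (p N) in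
/-- the augmentation ideal -/
noncomputable def J : Ideal (MonoidAlgebra (ZMod p) N) :=
  RingHom.ker (ep : MonoidAlgebra (ZMod p) N →ₐ[ZMod p] ZMod p)

theorem mem_J {a : MonoidAlgebra (ZMod p) N} : a ∈ J p N ↔ ep a = 0 := RingHom.mem_ker

theorem sub_one_mem_J (n : N) : (single n 1 - 1 : MonoidAlgebra (ZMod p) N) ∈ J p N := by
  rw [mem_J, map_sub, ep_single, map_one, sub_self]

theorem single_mul_sub (n m : N) : (single (n * m) 1 - 1 : MonoidAlgebra (ZMod p) N) =
    (single n 1 - 1) + (single m 1 - 1) + (single n 1 - 1) * (single m 1 - 1) := by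
  have h : (single (n * m) 1 : MonoidAlgebra (ZMod p) N) = single n 1 * single m 1 := by
    rw [single_mul_single, one_mul]
  rw [h]
  ring

theorem pow_sub_mem (n : N) (k : ℕ) :
    k • (single n 1 - 1 : MonoidAlgebra (ZMod p) N) - (single (n ^ k) 1 - 1) ∈ J p N ^ 2 := by
  induction k with
  | zero =>
    rw [pow_zero, zero_smul, zero_sub, ← one_def, sub_self, neg_zero]
    exact Ideal.zero_mem _
  | succ k ih =>
    have h1 : (single (n ^ k) 1 - 1 : MonoidAlgebra (ZMod p) N) * (single n 1 - 1) ∈ J p N ^ 2 := by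
      rw [pow_two]
      exact Ideal.mul_mem_mul (sub_one_mem_J _) (sub_one_mem_J _)
    have h2 : (k + 1) • (single n 1 - 1 : MonoidAlgebra (ZMod p) N) - (single (n ^ (k + 1)) 1 - 1) =
        (k • (single n 1 - 1 : MonoidAlgebra (ZMod p) N) - (single (n ^ k) 1 - 1)) -
        (single (n ^ k) 1 - 1 : MonoidAlgebra (ZMod p) N) * (single n 1 - 1) := by
      rw [pow_succ, single_mul_sub, succ_nsmul]
      ring
    rw [h2]
    exact Ideal.sub_mem _ ih h1

/-- every element is a group element up to `J²` -/
theorem exists_lin (a : MonoidAlgebra (ZMod p) N) :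
    ∃ ν : N, a - algebraMap (ZMod p) _ (ep a) - (single ν 1 - 1) ∈ J p N ^ 2 := by
  induction a using MonoidAlgebra.induction_linear with
  | zero =>
    refine ⟨1, ?_⟩
    rw [map_zero, map_zero, ← one_def, sub_self, sub_self, sub_self]
    exact Ideal.zero_mem _
  | add x y hx hy =>
    obtain ⟨ν, hν⟩ := hx
    obtain ⟨μ, hμ⟩ := hy
    refine ⟨ν * μ, ?_⟩
    have h1 : (single ν 1 - 1 : MonoidAlgebra (ZMod p) N) * (single μ 1 - 1) ∈ J p N ^ 2 := by
      rw [pow_two]
      exact Ideal.mul_mem_mul (sub_one_mem_J _) (sub_one_mem_J _)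
    rw [single_mul_sub, map_add, map_add]
    have h2 := Ideal.sub_mem _ (Ideal.add_mem _ hν hμ) h1
    convert h2 using 1
    ring
  | single n c =>
    refine ⟨n ^ c.val, ?_⟩
    rw [ep_single]
    have h1 : (single n c - algebraMap (ZMod p) _ c : MonoidAlgebra (ZMod p) N) =
        c.val • (single n 1 - 1 : MonoidAlgebra (ZMod p) N) := by
      rw [← Nat.cast_smul_eq_nsmul (ZMod p), ZMod.natCast_zmod_val, smul_sub, smul_single,
        smul_eq_mul, mul_one, Algebra.algebraMap_eq_smul_one]
    rw [h1]
    exact pow_sub_mem n c.val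

variable [Module (ZMod p) (Additive N)]

/-- the derivation given by a character -/
noncomputable def Dd (χ : Module.Dual (ZMod p) (Additive N)) :
    MonoidAlgebra (ZMod p) N →ₗ[ZMod p] ZMod p :=
  (Finsupp.linearCombination (ZMod p) (fun n => χ (Additive.ofMul n))).comp
    (coeffLinearEquiv (ZMod p)).toLinearMap

variable (χ : Module.Dual (ZMod p) (Additive N))

theorem Dd_single (n : N) (c : ZMod p) : Dd χ (single n c) = c * χ (Additive.ofMul n) := by
  unfold Dd
  rw [LinearMap.comp_apply]
  change Finsupp.linearCombination (ZMod p) _ (single n c).coeff = _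
  rw [coeff_single, Finsupp.linearCombination_single, smul_eq_mul]

theorem Dd_mul (a b : MonoidAlgebra (ZMod p) N) :
    Dd χ (a * b) = Dd χ a * ep b + ep a * Dd χ b := by
  induction a using MonoidAlgebra.induction_linear with
  | zero => simp
  | add x y hx hy => rw [add_mul, map_add, hx, hy, map_add, map_add]; ring
  | single m r =>
    induction b using MonoidAlgebra.induction_linear with
    | zero => simp
    | add x y hx hy => rw [mul_add, map_add, hx, hy, map_add, map_add]; ring
    | single n s =>
      rw [single_mul_single, Dd_single, Dd_single, Dd_single, ep_single, ep_single, ofMul_mul,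
        map_add]
      ring

theorem Dd_J2 (a : MonoidAlgebra (ZMod p) N) (ha : a ∈ J p N ^ 2) : Dd χ a = 0 := by
  rw [pow_two] at ha
  refine Submodule.mul_induction_on ha (fun x hx y hy => ?_) fun x y hx hy => ?_
  · rw [Dd_mul, mem_J.1 hx, mem_J.1 hy, mul_zero, zero_mul, add_zero]
  · rw [map_add, hx, hy, add_zero]

theorem Dd_algebraMap (c : ZMod p) : Dd χ (algebraMap (ZMod p) (MonoidAlgebra (ZMod p) N) c) = 0 := by
  rw [Algebra.algebraMap_eq_smul_one, one_def, map_smul, Dd_single, ofMul_one, map_zero, mul_zero,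
    smul_zero]

theorem Dd_one : Dd χ (1 : MonoidAlgebra (ZMod p) N) = 0 := by
  have := Dd_algebraMap χ (1 : ZMod p)
  rwa [map_one] at this

/-- an element of the augmentation ideal is a group element minus one, up to `J²` -/
theorem exists_lin' (a : MonoidAlgebra (ZMod p) N) (ha : a ∈ J p N) :
    ∃ ν : N, a - (single ν 1 - 1) ∈ J p N ^ 2 ∧
      ∀ χ : Module.Dual (ZMod p) (Additive N), Dd χ a = χ (Additive.ofMul ν) := by
  obtain ⟨ν, hν⟩ := exists_lin a
  rw [mem_J.1 ha, map_zero, sub_zero] at hν
  refine ⟨ν, hν, fun χ => ?_⟩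
  have h1 := Dd_J2 χ _ hν
  rw [map_sub, map_sub, Dd_single, Dd_one, one_mul, sub_zero] at h1
  exact sub_eq_zero.1 h1

theorem mem_J2_of (a : MonoidAlgebra (ZMod p) N) (ha : a ∈ J p N)
    (h : ∀ χ : Module.Dual (ZMod p) (Additive N), Dd χ a = 0) : a ∈ J p N ^ 2 := by
  obtain ⟨ν, hν, hχ⟩ := exists_lin' a ha
  have h1 : Additive.ofMul ν = 0 := by
    rw [← Module.forall_dual_apply_eq_zero_iff (ZMod p)]
    intro χ
    rw [← hχ, h]
  have h2 : ν = 1 := h1
  rw [h2, ← one_def, sub_self, sub_zero] at hν
  exact hν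

omit χ in
theorem pow_eq_one (n : N) : n ^ p = 1 := by
  have h1 : (p : ℕ) • Additive.ofMul n = 0 := by
    rw [← Nat.cast_smul_eq_nsmul (ZMod p), CharP.cast_eq_zero, zero_smul]
  rwa [← ofMul_pow] at h1

instance charP_ma : CharP (MonoidAlgebra (ZMod p) N) p :=
  charP_of_injective_algebraMap
    (FaithfulSMul.algebraMap_injective (ZMod p) (MonoidAlgebra (ZMod p) N)) p

omit χ in
theorem isNilpotent_single_sub_one (n : N) :
    IsNilpotent (single n 1 - 1 : MonoidAlgebra (ZMod p) N) := by
  refine ⟨p, ?_⟩
  rw [sub_pow_char, single_pow, pow_eq_one (p := p) n, one_pow, one_pow, ← one_def, sub_self]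

omit χ in
variable (p N) in
theorem J_nil [Finite N] : ∃ M, J p N ^ M = ⊥ := by
  have hfin : Finite (MonoidAlgebra (ZMod p) N) := by
    refine Finite.of_injective (β := N → ZMod p) (fun a n => a.coeff n) fun a b h => ?_
    ext n
    exact congrFun h n
  have h1 : J p N ≤ nilradical (MonoidAlgebra (ZMod p) N) := by
    have h2 : ∀ a : MonoidAlgebra (ZMod p) N,
        a - algebraMap (ZMod p) _ (ep a) ∈ nilradical (MonoidAlgebra (ZMod p) N) := by
      intro a
      induction a using MonoidAlgebra.induction_linear with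
      | zero => rw [map_zero, map_zero, sub_zero]; exact Ideal.zero_mem _
      | add x y hx hy =>
        have h3 := Ideal.add_mem _ hx hy
        rw [map_add, map_add]
        convert h3 using 1
        ring
      | single n c =>
        have h3 : (single n c - algebraMap (ZMod p) _ (ep (single n c)) : MonoidAlgebra (ZMod p) N) =
            single 1 c * (single n 1 - 1) := by
          rw [ep_single, mul_sub, single_mul_single, one_mul, mul_one, mul_one,
            Algebra.algebraMap_eq_smul_one, one_def, smul_single, smul_eq_mul, mul_one]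
        rw [h3]
        exact Ideal.mul_mem_left _ _ (mem_nilradical.2 (isNilpotent_single_sub_one n))
    intro a ha
    have h3 := h2 a
    rwa [mem_J.1 ha, map_zero, sub_zero] at h3
  obtain ⟨M, hM⟩ := IsNoetherianRing.isNilpotent_nilradical (MonoidAlgebra (ZMod p) N)
  refine ⟨M, ?_⟩
  rw [eq_bot_iff]
  have h4 := Ideal.pow_right_mono h1 M
  rw [hM] at h4
  exact h4

end H58.SP
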