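import Pool.Agent.H58.SP.RankRed

/-!
# Matrices `C = 1 + π X` with `C ^ p = 1` over the cyclotomic ring
-/

set_option autoImplicit false

namespace H58.SP

open Matrix

/-- the geometric sum in terms of binomial coefficients -/
theorem geom_choose {A : Type*} [Ring A] (Y : A) (n : ℕ) :
    ∑ i ∈ Finset.range n, (1 + Y) ^ i = ∑ j ∈ Finset.range n, (n.choose (j + 1)) • Y ^ j := by
  induction n with
  | zero => simp
  | succ n ih =>
    rw [Finset.sum_range_succ, ih]
    have h1 : (1 + Y) ^ n = ∑ j ∈ Finset.range (n + 1), (n.choose j) • Y ^ j := by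
      rw [add_comm 1 Y, (Commute.one_right Y).add_pow]
      refine Finset.sum_congr rfl fun j _ => ?_
      rw [one_pow, mul_one, nsmul_eq_mul, (Nat.cast_commute _ _).eq]
    have h2 : ∑ j ∈ Finset.range (n + 1), ((n + 1).choose (j + 1)) • Y ^ j =
        ∑ j ∈ Finset.range (n + 1), (n.choose j) • Y ^ j +
        ∑ j ∈ Finset.range (n + 1), (n.choose (j + 1)) • Y ^ j := by
      rw [← Finset.sum_add_distrib]
      refine Finset.sum_congr rfl fun j _ => ?_
      rw [Nat.choose_succ_succ, add_smul]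
    rw [h2, h1, Finset.sum_range_succ (fun j => (n.choose (j + 1)) • Y ^ j) n,
      Nat.choose_succ_self, zero_smul, add_zero, add_comm]

/-- the quotients of the binomial coefficients by `p` -/
def bq (p j : ℕ) : ℕ := p.choose (j + 1) / p

theorem bq_mul {p j : ℕ} (hp : p.Prime) (hj : j + 1 < p) : p * bq p j = p.choose (j + 1) :=
  Nat.mul_div_cancel' (hp.dvd_choose_self (by omega) hj)

theorem bq_zero {p : ℕ} (hp : p.Prime) : bq p 0 = 1 := by
  unfold bq
  rw [zero_add, Nat.choose_one_right, Nat.div_self hp.pos]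

/-- the geometric sum for a prime -/
theorem geom_prime {A : Type*} [Ring A] (Y : A) {p : ℕ} (hp : p.Prime) :
    ∑ i ∈ Finset.range p, (1 + Y) ^ i =
      ∑ j ∈ Finset.range (p - 1), (p * bq p j) • Y ^ j + Y ^ (p - 1) := by
  obtain ⟨k, hk⟩ : ∃ k, p = k + 1 := ⟨p - 1, by have := hp.one_le; omega⟩
  rw [geom_choose]
  have h1 : ∑ j ∈ Finset.range p, (p.choose (j + 1)) • Y ^ j =
      ∑ j ∈ Finset.range (p - 1), (p.choose (j + 1)) • Y ^ j + Y ^ (p - 1) := by
    rw [hk, Finset.sum_range_succ, Nat.add_sub_cancel, Nat.choose_self, one_smul]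
  rw [h1]
  congr 1
  refine Finset.sum_congr rfl fun j hj => ?_
  have := Finset.mem_range.1 hj
  rw [bq_mul hp (by omega)]

/-- the cyclotomic data -/
structure CycD (p : ℕ) (B : Type) [CommRing B] where
  red : B →+* ZMod p
  ζ : B
  π : B
  ε : B
  ζp : ζ ^ p = 1
  ζπ : ζ = 1 + π
  π0 : π ≠ 0
  rπ : red π = 0
  rε : red ε = 1
  rel : (p : B) * ε = - π ^ (p - 1)

theorem exists_cyc (p : ℕ) [hp : Fact p.Prime] :
    ∃ (B : Type) (_ : CommRing B) (_ : IsDomain B) (_ : CharZero B), Nonempty (CycD p B) := by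
  have hprime : Prime (Polynomial.cyclotomic p ℤ) :=
    (Polynomial.cyclotomic.irreducible hp.out.pos).prime
  have hdeg : (Polynomial.cyclotomic p ℤ).degree ≠ 0 := by
    rw [Polynomial.degree_cyclotomic, Nat.totient_prime hp.out]
    have := hp.out.two_le
    exact_mod_cast (by omega : p - 1 ≠ 0)
  have hdom : IsDomain (AdjoinRoot (Polynomial.cyclotomic p ℤ)) :=
    AdjoinRoot.isDomain_of_prime hprime
  have hinj := AdjoinRoot.of.injective_of_degree_ne_zero hdeg
  have hchar : CharZero (AdjoinRoot (Polynomial.cyclotomic p ℤ)) :=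
    charZero_of_injective_algebraMap (R := ℤ) hinj
  refine ⟨AdjoinRoot (Polynomial.cyclotomic p ℤ), inferInstance, hdom, hchar, ⟨?_⟩⟩
  set B := AdjoinRoot (Polynomial.cyclotomic p ℤ) with hB
  let red : B →+* ZMod p := AdjoinRoot.lift (Int.castRingHom (ZMod p)) 1 (by
    rw [Polynomial.eval₂_one_cyclotomic_prime]
    exact ZMod.natCast_self p)
  set ζ : B := AdjoinRoot.root (Polynomial.cyclotomic p ℤ) with hζ
  have hgeom : ∑ i ∈ Finset.range p, ζ ^ i = 0 := by
    have h1 := AdjoinRoot.eval₂_root (Polynomial.cyclotomic p ℤ)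
    have h2 : Polynomial.eval₂ (AdjoinRoot.of (Polynomial.cyclotomic p ℤ)) ζ
        (Polynomial.cyclotomic p ℤ) = ∑ i ∈ Finset.range p, ζ ^ i := by
      have h3 : ∀ P : Polynomial ℤ, P = ∑ i ∈ Finset.range p, Polynomial.X ^ i →
          Polynomial.eval₂ (AdjoinRoot.of (Polynomial.cyclotomic p ℤ)) ζ P =
            ∑ i ∈ Finset.range p, ζ ^ i := by
        rintro P rfl
        rw [Polynomial.eval₂_finsetSum]
        simp only [Polynomial.eval₂_pow, Polynomial.eval₂_X]
      exact h3 _ (Polynomial.cyclotomic_prime ℤ p)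
    rw [← h2]
    exact h1
  have hred : red ζ = 1 := AdjoinRoot.lift_root _
  have hp1 : p - 1 + 1 = p := Nat.sub_add_cancel hp.out.one_le
  refine
    { red := red
      ζ := ζ
      π := ζ - 1
      ε := ∑ j ∈ Finset.range (p - 1), (bq p j : B) * (ζ - 1) ^ j
      ζp := ?_
      ζπ := by ring
      π0 := ?_
      rπ := by rw [map_sub, hred, map_one, sub_self]
      rε := ?_
      rel := ?_ }
  · have := mul_geom_sum ζ p
    rw [hgeom, mul_zero] at this
    exact (sub_eq_zero.1 this.symm)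
  · intro h
    have h1 : ζ = 1 := sub_eq_zero.1 h
    rw [h1] at hgeom
    simp only [one_pow, Finset.sum_const, Finset.card_range, nsmul_eq_mul, mul_one] at hgeom
    exact hp.out.ne_zero (by exact_mod_cast hgeom)
  · rw [map_sum]
    obtain ⟨k, hk⟩ : ∃ k, p - 1 = k + 1 := ⟨p - 2, by have := hp.out.two_le; omega⟩
    rw [hk, Finset.sum_range_succ']
    have h0 : ∀ j ∈ Finset.range k, red ((bq p (j + 1) : B) * (ζ - 1) ^ (j + 1)) = 0 := by
      intro j _
      rw [map_mul, map_pow, map_sub, hred, map_one, sub_self, zero_pow (Nat.succ_ne_zero j),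
        mul_zero]
    rw [Finset.sum_eq_zero h0, zero_add, bq_zero hp.out, Nat.cast_one, pow_zero, mul_one, map_one]
  · have h1 := geom_prime (ζ - 1) hp.out
    rw [add_sub_cancel, hgeom] at h1
    have h2 : ∑ j ∈ Finset.range (p - 1), (p * bq p j) • (ζ - 1) ^ j =
        (p : B) * ∑ j ∈ Finset.range (p - 1), (bq p j : B) * (ζ - 1) ^ j := by
      rw [Finset.mul_sum]
      refine Finset.sum_congr rfl fun j _ => ?_
      rw [nsmul_eq_mul, Nat.cast_mul, mul_assoc]
    rw [h2] at h1
    exact eq_neg_of_add_eq_zero_left h1.symm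

section Main

variable {p : ℕ} [hp : Fact p.Prime] {B : Type} [CommRing B] [IsDomain B] (D : CycD p B)
  {ι : Type*} [Fintype ι] [DecidableEq ι] (X : Matrix ι ι B)

/-- the quotient of the norm by a power of `π` -/
def CycD.e : Matrix ι ι B :=
  D.ε • X ^ (p - 1) - ∑ j ∈ Finset.range (p - 1), ((bq p j : B) * D.π ^ j) • X ^ j

theorem CycD.norm_eq :
    D.ε • ∑ i ∈ Finset.range p, (1 + D.π • X) ^ i = D.π ^ (p - 1) • D.e X := by
  rw [geom_prime _ hp.out, smul_add, Finset.smul_sum, CycD.e,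
    smul_sub, Finset.smul_sum, smul_pow, smul_smul, smul_smul, mul_comm D.ε,
    add_comm, sub_eq_add_neg, ← Finset.sum_neg_distrib]
  congr 1
  refine Finset.sum_congr rfl fun j _ => ?_
  rw [smul_pow, ← Nat.cast_smul_eq_nsmul B, smul_smul, smul_smul,
    smul_smul, ← neg_smul]
  congr 1
  rw [Nat.cast_mul]
  have := D.rel
  linear_combination (bq p j : B) * D.π ^ j * this

theorem CycD.mul_e (hC : (1 + D.π • X) ^ p = 1) : X * D.e X = 0 := by
  have h1 := mul_geom_sum (1 + D.π • X) p
  rw [hC, sub_self, add_sub_cancel_left] at h1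
  have h2 : D.π • X * (D.ε • ∑ i ∈ Finset.range p, (1 + D.π • X) ^ i) = 0 := by
    rw [Matrix.mul_smul, h1, smul_zero]
  rw [D.norm_eq, Matrix.mul_smul, Matrix.smul_mul, smul_smul] at h2
  rw [smul_eq_zero] at h2
  exact h2.resolve_left (mul_ne_zero (pow_ne_zero _ D.π0) D.π0)

theorem CycD.map_e : (D.e X).map D.red = (X.map D.red) ^ (p - 1) - 1 := by
  have hpow : ∀ k, (X ^ k).map D.red = (X.map D.red) ^ k := by
    intro k
    exact map_pow (D.red.mapMatrix (m := ι)) X k
  have h1 : ∀ M : Matrix ι ι B, M.map D.red = D.red.mapMatrix M := fun M => rfl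
  have hs : ∀ (c : B) (M : Matrix ι ι B), D.red.mapMatrix (c • M) = D.red c • D.red.mapMatrix M := by
    intro c M
    ext i j
    simp
  rw [h1, CycD.e, map_sub, map_sum, hs, D.rε, one_smul, ← h1, hpow]
  congr 1
  obtain ⟨k, hk⟩ : ∃ k, p - 1 = k + 1 := ⟨p - 2, by have := hp.out.two_le; omega⟩
  rw [hk, Finset.sum_range_succ']
  have h0 : ∀ j ∈ Finset.range k, D.red.mapMatrix
      (((bq p (j + 1) : B) * D.π ^ (j + 1)) • X ^ (j + 1)) = 0 := by
    intro j _
    rw [hs, map_mul, map_pow, D.rπ, zero_pow (Nat.succ_ne_zero j), mul_zero, zero_smul]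
  rw [Finset.sum_eq_zero h0, zero_add, bq_zero hp.out, Nat.cast_one, pow_zero, pow_zero, mul_one,
    one_smul, map_one]

/-- the reduction satisfies `X ^ p = X` -/
theorem CycD.pow_eq (hC : (1 + D.π • X) ^ p = 1) : (X.map D.red) ^ p = X.map D.red := by
  have h1 := congrArg (D.red.mapMatrix (m := ι)) (D.mul_e X hC)
  rw [map_mul, map_zero] at h1
  have h2 : D.red.mapMatrix (D.e X) = (X.map D.red) ^ (p - 1) - 1 := D.map_e X
  have h3 : D.red.mapMatrix X = X.map D.red := rfl
  rw [h2, h3, mul_sub, mul_one, ← pow_succ', Nat.sub_add_cancel hp.out.one_le] at h1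
  exact sub_eq_zero.1 h1

/-- the rank of the norm -/
theorem CycD.ker_le {K : Type*} [Field K] (g : B →+* K) (hg : Function.Injective g) :
    Module.finrank (ZMod p) (LinearMap.ker (X.map D.red).mulVecLin) ≤
      ((∑ i ∈ Finset.range p, (1 + D.π • X) ^ i).map g).rank := by
  have hε : D.ε ≠ 0 := by
    intro h
    have := D.rε
    rw [h, map_zero] at this
    exact zero_ne_one this
  have hsm : ∀ (c : B) (hc : c ≠ 0) (M : Matrix ι ι B), ((c • M).map g).rank = (M.map g).rank := by
    intro c hc M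
    have e1 : (c • M).map g = g c • M.map g := by
      ext i j
      simp
    rw [e1]
    exact Matrix.rank_smul_of_mem_nonZeroDivisors _ (mem_nonZeroDivisors_of_ne_zero (by
      intro h
      exact hc (hg (by rw [h, map_zero]))))
  rw [← hsm D.ε hε, D.norm_eq, hsm _ (pow_ne_zero _ D.π0)]
  refine le_trans ?_ (rank_red_le D.red (ZMod.ringHom_surjective D.red) g hg (D.e X))
  rw [D.map_e]
  unfold Matrix.rank
  refine Submodule.finrank_mono fun v hv => ?_
  rw [LinearMap.mem_ker, Matrix.mulVecLin_apply] at hv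
  rw [LinearMap.mem_range]
  refine ⟨-v, ?_⟩
  obtain ⟨k, hk⟩ : ∃ k, p - 1 = k + 1 := ⟨p - 2, by have := hp.out.two_le; omega⟩
  rw [Matrix.mulVecLin_apply, Matrix.sub_mulVec, Matrix.one_mulVec, Matrix.mulVec_neg, hk, pow_succ,
    ← Matrix.mulVec_mulVec, hv, Matrix.mulVec_zero, neg_zero, zero_sub, neg_neg]

end Main

end H58.SP
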