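import Mathlib

/-!
# The spectrum problem for integral group rings (MP_6f6ee6_al): definitions

`sg S a` is the sum of the coefficients of `a` over the set `S`.
-/

set_option autoImplicit false

namespace H58.SP

open MonoidAlgebra

variable {R : Type*} [CommRing R] {G : Type*} [Group G]

/-- conjugation invariant sets -/
def CI (S : Set G) : Prop := ∀ g x : G, x ∈ S → g * x * g⁻¹ ∈ S

open Classical in
/-- the sum of the coefficients over `S` -/
noncomputable def sg (S : Set G) : MonoidAlgebra R G →+ R :=
  (Finsupp.liftAddHom fun x => if x ∈ S then AddMonoidHom.id R else 0).comp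
    (coeffAddEquiv (R := R) (M := G)).toAddMonoidHom

open Classical in
theorem sg_single (S : Set G) (x : G) (r : R) :
    sg S (single x r) = if x ∈ S then r else 0 := by
  unfold sg
  rw [AddMonoidHom.comp_apply]
  change Finsupp.liftAddHom _ (single x r).coeff = _
  rw [coeff_single, Finsupp.liftAddHom_apply_single]
  split_ifs <;> simp

/-- the augmentation -/
theorem sg_univ_single (x : G) (r : R) : sg (Set.univ : Set G) (single x r) = r := by
  rw [sg_single, if_pos (Set.mem_univ _)]

theorem sg_empty (a : MonoidAlgebra R G) : sg (∅ : Set G) a = 0 := by
  induction a using MonoidAlgebra.induction_linear with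
  | zero => exact map_zero _
  | add x y hx hy => rw [map_add, hx, hy, add_zero]
  | single m r => rw [sg_single, if_neg (Set.notMem_empty _)]

theorem sg_smul (S : Set G) (c : R) (a : MonoidAlgebra R G) : sg S (c • a) = c * sg S a := by
  classical
  induction a using MonoidAlgebra.induction_linear with
  | zero => rw [smul_zero, map_zero, mul_zero]
  | add x y hx hy => rw [smul_add, map_add, hx, hy, map_add, mul_add]
  | single m r =>
    rw [smul_single, sg_single, sg_single, smul_eq_mul]
    split_ifs
    · rfl
    · rw [mul_zero]

theorem sg_union {S T : Set G} (h : Disjoint S T) (a : MonoidAlgebra R G) :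
    sg (S ∪ T) a = sg S a + sg T a := by
  classical
  induction a using MonoidAlgebra.induction_linear with
  | zero => simp
  | add x y hx hy => rw [map_add, hx, hy, map_add, map_add]; ring
  | single m r =>
    rw [sg_single, sg_single, sg_single]
    by_cases h1 : m ∈ S
    · have h2 : m ∉ T := Set.disjoint_left.1 h h1
      rw [if_pos (Set.mem_union_left _ h1), if_pos h1, if_neg h2, add_zero]
    · by_cases h2 : m ∈ T
      · rw [if_pos (Set.mem_union_right _ h2), if_neg h1, if_pos h2, zero_add]
      · rw [if_neg (by simp [h1, h2]), if_neg h1, if_neg h2, add_zero]

theorem sg_comm {S : Set G} (h : CI S) (a b : MonoidAlgebra R G) : sg S (a * b) = sg S (b * a) := by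
  classical
  induction a using MonoidAlgebra.induction_linear with
  | zero => rw [zero_mul, mul_zero]
  | add x y hx hy => rw [add_mul, mul_add, map_add, map_add, hx, hy]
  | single m r =>
    induction b using MonoidAlgebra.induction_linear with
    | zero => rw [zero_mul, mul_zero]
    | add x y hx hy => rw [add_mul, mul_add, map_add, map_add, hx, hy]
    | single n s =>
      rw [single_mul_single, single_mul_single, sg_single, sg_single, mul_comm s r]
      have e : m * n ∈ S ↔ n * m ∈ S := by
        constructor
        · intro h1
          have h2 := h n _ h1
          rwa [← mul_assoc, mul_assoc, mul_inv_cancel, mul_one] at h2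
        · intro h1
          have h2 := h m _ h1
          rwa [← mul_assoc, mul_assoc, mul_inv_cancel, mul_one] at h2
      simp only [e]

/-- the sum over `S` as a sum over the group -/
theorem sg_eq_sum [Fintype G] (S : Set G) [DecidablePred (· ∈ S)] (a : MonoidAlgebra R G) :
    sg S a = ∑ x, if x ∈ S then a.coeff x else 0 := by
  classical
  induction a using MonoidAlgebra.induction_linear with
  | zero => simp
  | add x y hx hy =>
    rw [map_add, hx, hy, ← Finset.sum_add_distrib]
    refine Finset.sum_congr rfl fun z _ => ?_
    split_ifs
    · rfl
    · rw [add_zero]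
  | single m r =>
    rw [sg_single, Finset.sum_eq_single m]
    · rw [coeff_single, Finsupp.single_eq_same]
      congr
    · intro b _ hb
      rw [coeff_single, Finsupp.single_eq_of_ne hb]
      simp
    · intro h
      exact absurd (Finset.mem_univ m) h

theorem sg_singleton (x : G) (a : MonoidAlgebra R G) : sg ({x} : Set G) a = a.coeff x := by
  classical
  induction a using MonoidAlgebra.induction_linear with
  | zero => simp
  | add x y hx hy => rw [map_add, hx, hy]; rfl
  | single m r =>
    rw [sg_single, coeff_single, Finsupp.single_apply]
    simp only [Set.mem_singleton_iff]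

/-- group homomorphisms -/
theorem sg_map {H : Type*} [Group H] (f : G →* H) (T : Set H) (a : MonoidAlgebra R G) :
    sg T (MonoidAlgebra.mapDomainRingHom R f a) = sg (f ⁻¹' T) a := by
  classical
  induction a using MonoidAlgebra.induction_linear with
  | zero => simp
  | add x y hx hy => rw [map_add, map_add, hx, hy, map_add]
  | single m r =>
    rw [MonoidAlgebra.mapDomainRingHom_apply, MonoidAlgebra.mapDomain_single, sg_single, sg_single]
    simp only [Set.mem_preimage]

end H58.SP
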