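import Pool.Agent.H58.SP.Aug

/-!
# Retractions of the group algebra of an elementary abelian group
-/

set_option autoImplicit false

namespace H58.SP

open MonoidAlgebra

theorem card_ker {p : ℕ} [hp : Fact p.Prime] {E : Type*} [AddCommGroup E] [Module (ZMod p) E]
    (f : Module.Dual (ZMod p) E) (hf : f ≠ 0) :
    p * Nat.card (LinearMap.ker f) = Nat.card E := by
  have h1 := Submodule.card_eq_card_quotient_mul_card (LinearMap.ker f)
  have h2 : Function.Surjective f := LinearMap.surjective hf
  have h3 := Nat.card_congr (f.quotKerEquivOfSurjective h2).toEquiv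
  rw [h3, Nat.card_zmod] at h1
  rw [h1]
  ring

variable {p : ℕ} [hp : Fact p.Prime] {N : Type*} [CommGroup N] [Module (ZMod p) (Additive N)]

section
variable (χ : Module.Dual (ZMod p) (Additive N)) (ν : N)

noncomputable def rtL : Additive N →ₗ[ZMod p] Additive N :=
  LinearMap.id - (LinearMap.toSpanSingleton (ZMod p) (Additive N) (Additive.ofMul ν)).comp χ

noncomputable def rt : N →* N := MonoidHom.toAdditive.symm (rtL χ ν).toAddMonoidHom

theorem ofMul_rt (n : N) : Additive.ofMul (rt χ ν n) =
    Additive.ofMul n - χ (Additive.ofMul n) • Additive.ofMul ν := rfl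

theorem rt_mul (n : N) : rt χ ν n * ν ^ (χ (Additive.ofMul n)).val = n := by
  apply Additive.ofMul.injective
  rw [ofMul_mul, ofMul_rt, ofMul_pow, ← Nat.cast_smul_eq_nsmul (ZMod p), ZMod.natCast_zmod_val,
    sub_add_cancel]

theorem chi_rt (n : N) (h : χ (Additive.ofMul ν) = 1) : χ (Additive.ofMul (rt χ ν n)) = 0 := by
  rw [ofMul_rt, map_sub, map_smul, h, smul_eq_mul, mul_one, sub_self]

noncomputable def ra : MonoidAlgebra (ZMod p) N →ₐ[ZMod p] MonoidAlgebra (ZMod p) N :=
  mapDomainAlgHom (ZMod p) (ZMod p) (rt χ ν)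

theorem ra_single (n : N) (c : ZMod p) : ra χ ν (single n c) = single (rt χ ν n) c := by
  unfold ra
  rw [mapDomainAlgHom_apply, mapDomain_single]

theorem ep_ra (a : MonoidAlgebra (ZMod p) N) : ep (ra χ ν a) = ep a := by
  induction a using MonoidAlgebra.induction_linear with
  | zero => rw [map_zero]
  | add x y hx hy => rw [map_add, map_add, hx, hy, map_add]
  | single n c => rw [ra_single, ep_single, ep_single]

theorem ra_mem (j : ℕ) (a : MonoidAlgebra (ZMod p) N) (ha : a ∈ J p N ^ j) :
    ra χ ν a ∈ J p N ^ j := by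
  have h1 : J p N ≤ (J p N).comap (ra χ ν) := by
    intro x hx
    rw [Ideal.mem_comap, mem_J, ep_ra, mem_J.1 hx]
  have h2 := Ideal.le_comap_pow (ra χ ν) (K := J p N) j
  have h3 := Ideal.pow_right_mono h1 j
  exact h2 (h3 ha)

/-- the ideal generated by `ν - 1` -/
noncomputable def Kn : Ideal (MonoidAlgebra (ZMod p) N) := Ideal.span {(single ν 1 - 1)}

theorem sub_ra (a : MonoidAlgebra (ZMod p) N) : a - ra χ ν a ∈ Kn (p := p) ν := by
  induction a using MonoidAlgebra.induction_linear with
  | zero => rw [map_zero, sub_zero]; exact Ideal.zero_mem _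
  | add x y hx hy =>
    have h3 := Ideal.add_mem _ hx hy
    rw [map_add]
    convert h3 using 1
    ring
  | single n c =>
    rw [ra_single]
    have h1 : (single n c : MonoidAlgebra (ZMod p) N) = single (rt χ ν n) c *
        (single ν 1) ^ (χ (Additive.ofMul n)).val := by
      rw [single_pow, single_mul_single, one_pow, mul_one, rt_mul]
    have h2 : (single n c : MonoidAlgebra (ZMod p) N) - single (rt χ ν n) c = single (rt χ ν n) c *
        ((single ν 1) ^ (χ (Additive.ofMul n)).val - 1) := by
      rw [mul_sub, ← h1, mul_one]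
    rw [h2]
    refine Ideal.mul_mem_left _ _ ?_
    rw [Kn, Ideal.mem_span_singleton]
    have h3 := sub_dvd_pow_sub_pow (single ν 1 : MonoidAlgebra (ZMod p) N) 1
      (χ (Additive.ofMul n)).val
    rwa [one_pow] at h3

theorem sub_ra_pow (j : ℕ) : ∀ a ∈ J p N ^ (j + 1), a - ra χ ν a ∈ Kn (p := p) ν * J p N ^ j := by
  induction j with
  | zero =>
    intro a _
    rw [pow_zero, mul_one]
    exact sub_ra χ ν a
  | succ j ih =>
    intro a ha
    rw [pow_succ] at ha
    refine Submodule.mul_induction_on ha (fun x hx y hy => ?_) fun x y hx hy => ?_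
    · have h1 : x * y - ra χ ν (x * y) = (x - ra χ ν x) * y + (y - ra χ ν y) * ra χ ν x := by
        rw [map_mul]
        ring
      rw [h1]
      refine Ideal.add_mem _ ?_ ?_
      · rw [pow_succ, ← mul_assoc]
        exact Ideal.mul_mem_mul (ih x hx) hy
      · exact Ideal.mul_mem_mul (sub_ra χ ν y) (ra_mem χ ν _ x hx)
    · have h3 := Ideal.add_mem _ hx hy
      rw [map_add]
      convert h3 using 1
      ring

/-- the decomposition of an element of `J ^ j` -/
theorem exists_decomp (j : ℕ) (a : MonoidAlgebra (ZMod p) N) (ha : a ∈ J p N ^ j) :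
    ∃ z ∈ J p N ^ (j - 1), a = ra χ ν a + (single ν 1 - 1) * z := by
  rcases Nat.eq_zero_or_pos j with rfl | hj
  · have h1 := sub_ra χ ν a
    rw [Kn, Ideal.mem_span_singleton'] at h1
    obtain ⟨z, hz⟩ := h1
    refine ⟨z, by simp, ?_⟩
    rw [mul_comm, hz]
    ring
  · obtain ⟨k, rfl⟩ : ∃ k, j = k + 1 := ⟨j - 1, by omega⟩
    have h1 := sub_ra_pow χ ν k a ha
    rw [Kn, Ideal.mem_span_singleton_mul] at h1
    obtain ⟨z, hz, hz2⟩ := h1
    refine ⟨z, hz, ?_⟩
    rw [hz2]
    ring

end

end H58.SP
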