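import Pool.Agent.H58.SP.Aug
import Pool.Agent.H58.SP.Retr
import Pool.Agent.H58.SP.Cyc
import Pool.Agent.H58.SP.Defs

/-!
# Characters of an elementary abelian group with values in a ring of cyclotomic integers
-/

set_option autoImplicit false

namespace H58.SP

open MonoidAlgebra Module

variable {p : ℕ} [hp : Fact p.Prime] {N : Type*} [CommGroup N] [Module (ZMod p) (Additive N)]
  {B : Type} [CommRing B] (D : CycD p B)

theorem CycD.zeta_val_add (a b : ZMod p) :
    D.ζ ^ (a + b).val = D.ζ ^ a.val * D.ζ ^ b.val := by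
  have : NeZero p := ⟨hp.out.ne_zero⟩
  rw [← pow_add, ZMod.val_add, ← pow_eq_pow_mod _ D.ζp]

/-- the character as a ring homomorphism -/
noncomputable def ch (χ : Module.Dual (ZMod p) (Additive N)) : MonoidAlgebra ℤ N →ₐ[ℤ] B :=
  haveI : NeZero p := ⟨hp.out.ne_zero⟩
  MonoidAlgebra.lift ℤ B N
    { toFun := fun n => D.ζ ^ (χ (Additive.ofMul n)).val
      map_one' := by rw [ofMul_one, map_zero, ZMod.val_zero, pow_zero]
      map_mul' := fun m n => by rw [ofMul_mul, map_add, D.zeta_val_add] }

variable (χ : Module.Dual (ZMod p) (Additive N))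

theorem ch_single (n : N) (c : ℤ) : ch D χ (single n c) = c * D.ζ ^ (χ (Additive.ofMul n)).val := by
  rw [ch, lift_single, zsmul_eq_mul]
  rfl

/-- the value of a character modulo `π²` -/
theorem ch_expand (a : MonoidAlgebra ℤ N) : ∃ x : B,
    ch D χ a = ((sg (Set.univ : Set N) a : ℤ) : B) + D.π * x ∧
      D.red x = Dd χ (mapRingHom N (Int.castRingHom (ZMod p)) a) := by
  have : NeZero p := ⟨hp.out.ne_zero⟩
  induction a using MonoidAlgebra.induction_linear with
  | zero => exact ⟨0, by simp, by simp⟩
  | add u v hu hv =>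
    obtain ⟨x, hx1, hx2⟩ := hu
    obtain ⟨y, hy1, hy2⟩ := hv
    refine ⟨x + y, ?_, ?_⟩
    · rw [map_add, hx1, hy1, map_add]
      push_cast
      ring
    · rw [map_add, hx2, hy2, map_add, map_add]
  | single n c =>
    refine ⟨c * ∑ i ∈ Finset.range (χ (Additive.ofMul n)).val, D.ζ ^ i, ?_, ?_⟩
    · rw [ch_single, sg_univ_single]
      have h1 := mul_geom_sum D.ζ (χ (Additive.ofMul n)).val
      have h2 := D.ζπ
      have h3 : D.ζ - 1 = D.π := by rw [h2]; ring
      rw [h3] at h1
      linear_combination -(c : B) * h1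
    · rw [mapRingHom_single, Dd_single, map_mul, map_sum, map_intCast, eq_intCast]
      congr 1
      have h4 : D.red D.ζ = 1 := by
        rw [D.ζπ, map_add, D.rπ, map_one, add_zero]
      simp_rw [map_pow, h4, one_pow]
      rw [Finset.sum_const, Finset.card_range, nsmul_one, ZMod.natCast_zmod_val]

noncomputable instance dualFintype [Fintype N] : Fintype (Module.Dual (ZMod p) (Additive N)) :=
  haveI : NeZero p := ⟨hp.out.ne_zero⟩
  haveI : Finite (Module.Dual (ZMod p) (Additive N)) :=
    Finite.of_injective (β := N → ZMod p) (fun χ n => χ (Additive.ofMul n)) fun a b h => by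
      ext n
      exact congrFun h (Additive.toMul n)
  Fintype.ofFinite _

omit χ in
theorem card_dual [Fintype N] :
    Nat.card (Module.Dual (ZMod p) (Additive N)) = Fintype.card N := by
  have h1 : Nat.card (Additive N) = Fintype.card N := by
    rw [Nat.card_congr Additive.toMul, Nat.card_eq_fintype_card]
  have : Module.Finite (ZMod p) (Additive N) := Module.Finite.of_finite
  rw [← h1]
  exact (Nat.card_congr ((Module.finBasis (ZMod p) (Additive N)).toDualEquiv).toEquiv).symm

/-- orthogonality -/
theorem sum_ch [Fintype N] [IsDomain B] (a : MonoidAlgebra ℤ N) :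
    ∑ χ : Module.Dual (ZMod p) (Additive N), ch D χ a = (Fintype.card N : B) * ((a.coeff 1 : ℤ) : B) := by
  have : NeZero p := ⟨hp.out.ne_zero⟩
  induction a using MonoidAlgebra.induction_linear with
  | zero => simp
  | add u v hu hv =>
    rw [coeff_add, Finsupp.add_apply, Int.cast_add, mul_add, ← hu, ← hv, ← Finset.sum_add_distrib]
    exact Finset.sum_congr rfl fun χ _ => map_add _ _ _
  | single n c =>
    simp_rw [ch_single]
    rw [← Finset.mul_sum]
    by_cases hn : n = 1
    · subst hn
      rw [coeff_single, Finsupp.single_eq_same, ← card_dual (p := p) (N := N), Nat.card_eq_fintype_card,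
        mul_comm]
      congr 1
      simp
    · rw [coeff_single, Finsupp.single_eq_of_ne (Ne.symm hn), Int.cast_zero, mul_zero]
      obtain ⟨χ₀, h0⟩ : ∃ χ : Module.Dual (ZMod p) (Additive N), χ (Additive.ofMul n) = 1 := by
        have h1 : ¬ ∀ φ : Module.Dual (ZMod p) (Additive N), φ (Additive.ofMul n) = 0 := by
          rw [Module.forall_dual_apply_eq_zero_iff]
          exact fun h => hn h
        push Not at h1
        obtain ⟨φ, hφ⟩ := h1
        refine ⟨(φ (Additive.ofMul n))⁻¹ • φ, ?_⟩
        rw [LinearMap.smul_apply, smul_eq_mul, inv_mul_cancel₀ hφ]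
      set s := ∑ χ : Module.Dual (ZMod p) (Additive N), D.ζ ^ (χ (Additive.ofMul n)).val with hs
      have h2 : s = D.ζ * s := by
        conv_lhs => rw [hs, ← Equiv.sum_comp (Equiv.addRight χ₀)]
        rw [hs, Finset.mul_sum]
        refine Finset.sum_congr rfl fun χ _ => ?_
        rw [Equiv.coe_addRight, LinearMap.add_apply, D.zeta_val_add, h0, mul_comm]
        congr 1
        have hv : (1 : ZMod p).val = 1 := by
          have : Fact (1 < p) := ⟨hp.out.one_lt⟩
          exact ZMod.val_one p
        rw [hv, pow_one]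
      have h3 : D.π * s = 0 := by
        have h4 := D.ζπ
        rw [h4] at h2
        linear_combination -h2
      rw [(mul_eq_zero.1 h3).resolve_left D.π0, mul_zero]

end H58.SP
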