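import Pool.Agent.H58.SP.Stp

/-!
# Chains of normal subgroups
-/

set_option autoImplicit false

namespace H58.SP

open MonoidAlgebra

theorem SPn_congr {G H : Type*} [Group G] [Group H] (e : G ≃* H) {n : ℕ} (h : SPn G n) : SPn H n := by
  intro u haug hu
  let f : MonoidAlgebra ℤ H →+* MonoidAlgebra ℤ G := MonoidAlgebra.mapDomainRingHom ℤ e.symm.toMonoidHom
  let g : MonoidAlgebra ℤ G →+* MonoidAlgebra ℤ H := MonoidAlgebra.mapDomainRingHom ℤ e.toMonoidHom
  have hgf : ∀ a, g (f a) = a := by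
    intro a
    induction a using MonoidAlgebra.induction_linear with
    | zero => rw [map_zero, map_zero]
    | add x y hx hy => rw [map_add, map_add, hx, hy]
    | single x c =>
      simp only [f, g, mapDomainRingHom_apply, mapDomain_single]
      congr 1
      exact e.apply_symm_apply x
  have hinj : Function.Injective f := fun a b hab => by rw [← hgf a, hab, hgf]
  have h1 : sg (Set.univ : Set G) (f u) = 1 := by
    rw [sg_map, Set.preimage_univ, haug]
  have h2 : orderOf (f u) = n := by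
    rw [← hu]
    exact orderOf_injective (f : MonoidAlgebra ℤ H →* MonoidAlgebra ℤ G) hinj u
  obtain ⟨x, hx⟩ := h (f u) h1 h2
  exact ⟨e x, by rw [← hx]; exact MulEquiv.orderOf_eq e x⟩

theorem SPn_of_le_bot {G : Type*} [Group G] (N : Subgroup G) [N.Normal] (hN : N = ⊥) {n : ℕ}
    (h : SPn (G ⧸ N) n) : SPn G n := by
  subst hN
  exact SPn_congr QuotientGroup.quotientBot h


universe u

theorem SPn_quot {G : Type u} [Group G] (E N : Subgroup G) [E.Normal] [N.Normal] (hEN : E ≤ N) {n : ℕ}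
    (h : SPn (G ⧸ N) n) : SPn ((G ⧸ E) ⧸ N.map (QuotientGroup.mk' E)) n :=
  SPn_congr (QuotientGroup.quotientQuotientEquivQuotient E N hEN).symm h

theorem card_map_mk {G : Type u} [Group G] (E N : Subgroup G) [E.Normal] :
    Nat.card (N.map (QuotientGroup.mk' E)) = E.relIndex N := by
  have := Subgroup.relIndex_ker N (QuotientGroup.mk' E)
  rw [QuotientGroup.ker_mk'] at this
  exact this.symm

/-- the elements of order dividing `p` in the centre of `N` -/
def omegaZ {G : Type u} [Group G] (N : Subgroup G) (p : ℕ) : Subgroup G where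
  carrier := {x | x ∈ N ∧ (∀ y ∈ N, x * y = y * x) ∧ x ^ p = 1}
  mul_mem' := by
    rintro x y ⟨hx, hxc, hxp⟩ ⟨hy, hyc, hyp⟩
    refine ⟨N.mul_mem hx hy, ?_, ?_⟩
    · intro z hz
      rw [mul_assoc, hyc z hz, ← mul_assoc, hxc z hz, mul_assoc]
    · rw [Commute.mul_pow (hxc y hy), hxp, hyp, one_mul]
  one_mem' := ⟨N.one_mem, fun y _ => by rw [one_mul, mul_one], one_pow p⟩
  inv_mem' := by
    rintro x ⟨hx, hxc, hxp⟩
    refine ⟨N.inv_mem hx, ?_, by rw [inv_pow, hxp, inv_one]⟩
    intro y hy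
    rw [inv_mul_eq_iff_eq_mul, ← mul_assoc, hxc y hy, mul_assoc, mul_inv_cancel, mul_one]

theorem mem_omegaZ {G : Type u} [Group G] (N : Subgroup G) (p : ℕ) (x : G) :
    x ∈ omegaZ N p ↔ x ∈ N ∧ (∀ y ∈ N, x * y = y * x) ∧ x ^ p = 1 := Iff.rfl

instance omegaZ_normal {G : Type u} [Group G] (N : Subgroup G) [hN : N.Normal] (p : ℕ) :
    (omegaZ N p).Normal := by
  constructor
  rintro x ⟨hx, hxc, hxp⟩ g
  refine ⟨hN.conj_mem x hx g, ?_, ?_⟩
  · intro y hy
    have h1 := hxc (g⁻¹ * y * g) (by simpa using hN.conj_mem y hy g⁻¹)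
    have h2 : g * (x * (g⁻¹ * y * g)) * g⁻¹ = g * (g⁻¹ * y * g * x) * g⁻¹ := by rw [h1]
    simpa [mul_assoc] using h2
  · rw [conj_pow, hxp, mul_one, mul_inv_cancel]

theorem omegaZ_ne_bot {G : Type u} [Group G] [Finite G] (N : Subgroup G) {p : ℕ} (hp : p.Prime)
    (hP : IsPGroup p N) (hN : N ≠ ⊥) : omegaZ N p ≠ ⊥ := by
  have : Fact p.Prime := ⟨hp⟩
  have : Nontrivial N := (Subgroup.nontrivial_iff_ne_bot N).2 hN
  have : Nontrivial (Subgroup.center N) := hP.center_nontrivial
  have hZ : IsPGroup p (Subgroup.center N) := hP.to_subgroup _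
  have hdvd : p ∣ Nat.card (Subgroup.center N) := by
    rcases hZ.card_eq_or_dvd with h | h
    · exfalso
      have := Finite.one_lt_card (α := Subgroup.center N)
      omega
    · exact h
  obtain ⟨z, hz⟩ := exists_prime_orderOf_dvd_card' p hdvd
  intro hbot
  have hmem : ((z : N) : G) ∈ omegaZ N p := by
    refine ⟨(z : N).2, ?_, ?_⟩
    · intro y hy
      have := Subgroup.mem_center_iff.1 z.2 ⟨y, hy⟩
      have h2 := congrArg (Subtype.val) this
      simpa using h2.symm
    · have h3 : z ^ p = 1 := by rw [← hz]; exact pow_orderOf_eq_one z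
      have h4 := congrArg (fun t : Subgroup.center N => ((t : N) : G)) h3
      simpa using h4
  rw [hbot, Subgroup.mem_bot] at hmem
  have hz1 : z = 1 := by
    apply Subtype.ext
    apply Subtype.ext
    simpa using hmem
  rw [hz1, orderOf_one] at hz
  exact hp.one_lt.ne hz

theorem step_pgroup_aux {p q : ℕ} (hp : p.Prime) (hq : q.Prime) (hpq : p ≠ q) (a : ℕ) (n : ℕ) :
    ∀ (G : Type u) [Group G] [Finite G] (N : Subgroup G) [N.Normal], Nat.card N ≤ n → IsPGroup p N →
      SPn (G ⧸ N) (p ^ (a + 1) * q) → SPn G (p ^ (a + 1) * q) := by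
  induction n with
  | zero =>
    intro G _ _ N _ hc _ _
    have := Nat.card_pos (α := N)
    omega
  | succ n ih =>
    intro G _ _ N _ hc hP h
    by_cases hN : N = ⊥
    · exact SPn_of_le_bot N hN h
    · have hE := omegaZ_ne_bot N hp hP hN
      have hle : omegaZ N p ≤ N := fun x hx => hx.1
      refine step_p hp hq hpq a (omegaZ N p) (fun x hx y hy => hx.2.1 y hy.1) (fun x hx => hx.2.2) ?_
      refine ih (G ⧸ omegaZ N p) (N.map (QuotientGroup.mk' (omegaZ N p))) ?_ ?_
        (SPn_quot (omegaZ N p) N hle h)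
      · have h1 : (⊥ : Subgroup G).relIndex (omegaZ N p) * (omegaZ N p).relIndex N =
            (⊥ : Subgroup G).relIndex N := Subgroup.relIndex_mul_relIndex _ _ _ bot_le hle
        rw [Subgroup.relIndex_bot_left, Subgroup.relIndex_bot_left, ← card_map_mk] at h1
        have h2 : 1 < Nat.card (omegaZ N p) := (Subgroup.one_lt_card_iff_ne_bot _).2 hE
        have h3 := Nat.card_pos (α := N)
        have h4 : 0 < Nat.card (N.map (QuotientGroup.mk' (omegaZ N p))) := Nat.card_pos
        nlinarith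
      · exact hP.map _

/-- **the p-step**: normal p-subgroups -/
theorem step_pgroup {G : Type u} [Group G] [Finite G] {p q : ℕ} (hp : p.Prime) (hq : q.Prime) (hpq : p ≠ q)
    (a : ℕ) (N : Subgroup G) [N.Normal] (hP : IsPGroup p N) (h : SPn (G ⧸ N) (p ^ (a + 1) * q)) :
    SPn G (p ^ (a + 1) * q) :=
  step_pgroup_aux hp hq hpq a (Nat.card N) G N le_rfl hP h


/-- one step of a chain -/
theorem chain_step {G : Type u} [Group G] [Finite G] {p q : ℕ} (hp : p.Prime) (hq : q.Prime) (hpq : p ≠ q)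
    (a : ℕ) (N M : Subgroup G) [N.Normal] [M.Normal] (hle : N ≤ M)
    (hrel : (∃ e : ℕ, N.relIndex M = p ^ e) ∨ ¬ p ∣ N.relIndex M)
    (h : SPn (G ⧸ M) (p ^ (a + 1) * q)) : SPn (G ⧸ N) (p ^ (a + 1) * q) := by
  have h1 := SPn_quot N M hle h
  rcases hrel with ⟨e, he⟩ | hnd
  · refine step_pgroup hp hq hpq a (M.map (QuotientGroup.mk' N)) (IsPGroup.of_card (n := e) ?_) h1
    rw [card_map_mk, he]
  · refine step_prime_to hp hq hpq a (M.map (QuotientGroup.mk' N)) ?_ h1
    rw [card_map_mk]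
    exact hnd

/-- the whole chain -/
theorem chain_all {G : Type u} [Group G] [Finite G] {p q : ℕ} (hp : p.Prime) (hq : q.Prime) (hpq : p ≠ q)
    (a : ℕ) (N : ℕ → Subgroup G) [hn : ∀ i, (N i).Normal] (k : ℕ) (hle : ∀ i < k, N i ≤ N (i + 1))
    (hrel : ∀ i < k, (∃ e : ℕ, (N i).relIndex (N (i + 1)) = p ^ e) ∨ ¬ p ∣ (N i).relIndex (N (i + 1)))
    (h : SPn (G ⧸ N k) (p ^ (a + 1) * q)) : SPn (G ⧸ N 0) (p ^ (a + 1) * q) := by
  induction k with
  | zero => exact h
  | succ k ih =>
    refine ih (fun i hi => hle i (by omega)) (fun i hi => hrel i (by omega)) ?_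
    exact chain_step hp hq hpq a (N k) (N (k + 1)) (hle k (by omega)) (hrel k (by omega)) h

/-- a unit of augmentation `1` and prime order `r` exists only if `r` divides `|G|` -/
theorem prime_dvd_card {G : Type u} [Group G] [Finite G] (w : MonoidAlgebra ℤ G)
    (haug : sg (Set.univ : Set G) w = 1) (r : ℕ) (hr : r.Prime) (hw : orderOf w = r) :
    r ∣ Nat.card G := by
  have h1 := kernel (⊤ : Subgroup G) w haug r hr hw ?_
  · rwa [Subgroup.card_top] at h1
  · have hsub : Subsingleton (G ⧸ (⊤ : Subgroup G)) := QuotientGroup.subsingleton_quotient_top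
    have h2 := aug_red (⊤ : Subgroup G) w
    rw [haug] at h2
    refine MonoidAlgebra.ext (Finsupp.ext fun x => ?_)
    have h3 : x = 1 := Subsingleton.elim _ _
    have h4 : (Set.univ : Set (G ⧸ (⊤ : Subgroup G))) = {1} := by
      ext y
      simp only [Set.mem_univ, Set.mem_singleton_iff, true_iff]
      exact Subsingleton.elim _ _
    rw [h4, sg_singleton] at h2
    rw [h3, h2, MonoidAlgebra.one_def, coeff_single, Finsupp.single_eq_same]

/-- the top of the chain: if `p * q` does not divide `|G|` there is no unit of order `p ^ (a + 1) * q` -/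
theorem SPn_top {G : Type u} [Group G] [Finite G] {p q : ℕ} (hp : p.Prime) (hq : q.Prime) (hpq : p ≠ q)
    (a : ℕ) (h : ¬ p * q ∣ Nat.card G) : SPn G (p ^ (a + 1) * q) := by
  intro u haug hu
  exfalso
  apply h
  have hu0 : p ^ (a + 1) * q ≠ 0 := (Nat.mul_pos (pow_pos hp.pos _) hq.pos).ne'
  have h1 : orderOf (u ^ (p ^ a * q)) = p := by
    rw [orderOf_pow_of_dvd (Nat.mul_pos (pow_pos hp.pos _) hq.pos).ne' (by
      rw [hu, pow_succ]; exact ⟨p, by ring⟩), hu, pow_succ]
    rw [show p ^ a * p * q = p * (p ^ a * q) by ring]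
    exact Nat.mul_div_cancel _ (Nat.mul_pos (pow_pos hp.pos _) hq.pos)
  have h2 : orderOf (u ^ p ^ (a + 1)) = q := by
    rw [orderOf_pow_of_dvd (pow_pos hp.pos _).ne' (by rw [hu]; exact dvd_mul_right _ _), hu]
    rw [mul_comm]
    exact Nat.mul_div_cancel _ (pow_pos hp.pos _)
  exact Nat.Coprime.mul_dvd_of_dvd_of_dvd ((Nat.coprime_primes hp hq).2 hpq)
    (prime_dvd_card _ (aug_pow u haug _) p hp h1) (prime_dvd_card _ (aug_pow u haug _) q hq h2)

/-- orders equal to a prime: Cauchy -/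
theorem SPn_prime {G : Type u} [Group G] [Finite G] {q : ℕ} (hq : q.Prime) : SPn G q := by
  intro u haug hu
  have : Fact q.Prime := ⟨hq⟩
  exact exists_prime_orderOf_dvd_card' q (prime_dvd_card u haug q hq hu)

/-- the augmentation -/
theorem lift_one_eq {G : Type u} [Group G] (w : MonoidAlgebra ℤ G) :
    (MonoidAlgebra.lift ℤ ℤ G (1 : G →* ℤ)) w = sg (Set.univ : Set G) w := by
  induction w using MonoidAlgebra.induction_linear with
  | zero => rw [map_zero, map_zero]
  | add x y hx hy => rw [map_add, map_add, hx, hy]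
  | single x c =>
    rw [MonoidAlgebra.lift_single, sg_univ_single, MonoidHom.one_apply, smul_eq_mul, mul_one]

/-- passing from `SPn` to units whose order is divisible by `n` -/
theorem SPn_unit {G : Type u} [Group G] {n : ℕ} (h : SPn G n)
    (v : (MonoidAlgebra ℤ G)ˣ) (h1 : (MonoidAlgebra.lift ℤ ℤ G (1 : G →* ℤ)) (v : MonoidAlgebra ℤ G) = 1)
    (hfin : IsOfFinOrder v) (hdvd : n ∣ orderOf v) : ∃ g : G, orderOf g = n := by
  rw [lift_one_eq] at h1
  obtain ⟨m, hm⟩ := hdvd
  have h0 : orderOf v ≠ 0 := (orderOf_pos_iff.2 hfin).ne'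
  have hm0 : m ≠ 0 := by
    rintro rfl
    exact h0 (by rw [hm, mul_zero])
  have h2 : orderOf ((v : MonoidAlgebra ℤ G) ^ m) = n := by
    rw [← Units.val_pow_eq_pow_val, orderOf_units, orderOf_pow_of_dvd hm0 ⟨n, by rw [hm, mul_comm]⟩, hm]
    exact Nat.mul_div_cancel _ (Nat.pos_of_ne_zero hm0)
  exact h _ (aug_pow _ h1 m) h2

end H58.SP
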