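import Pool.Agent.H58.SP.Retr

/-!
# The cokernel of a matrix which is diagonal modulo `J ^ 2`
-/

set_option autoImplicit false

namespace H58.SP

open MonoidAlgebra Module

variable {p : ℕ} [hp : Fact p.Prime] {N : Type*} [CommGroup N] [Module (ZMod p) (Additive N)]
  {ι : Type*} [Fintype ι] [DecidableEq ι]

theorem exists_char (ν : N) (hν : ν ≠ 1) :
    ∃ χ : Module.Dual (ZMod p) (Additive N), χ (Additive.ofMul ν) = 1 := by
  have h1 : ¬ ∀ φ : Module.Dual (ZMod p) (Additive N), φ (Additive.ofMul ν) = 0 := by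
    rw [Module.forall_dual_apply_eq_zero_iff]
    exact fun h => hν h
  push Not at h1
  obtain ⟨φ, hφ⟩ := h1
  refine ⟨(φ (Additive.ofMul ν))⁻¹ • φ, ?_⟩
  rw [LinearMap.smul_apply, smul_eq_mul, inv_mul_cancel₀ hφ]

theorem step_coker (χ : ι → Module.Dual (ZMod p) (Additive N)) (T : Matrix ι ι (MonoidAlgebra (ZMod p) N))
    (ν : ι → N) (h1 : ∀ i, T i i - (single (ν i) 1 - 1) ∈ J p N ^ 2)
    (h2 : ∀ i k, i ≠ k → T i k ∈ J p N ^ 2) (j : ℕ) (w : ι → MonoidAlgebra (ZMod p) N)
    (hw : ∀ i, w i ∈ J p N ^ j) :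
    ∃ z : ι → MonoidAlgebra (ZMod p) N,
      ∀ i, w i - T.mulVec z i - ra (χ i) (ν i) (w i) ∈ J p N ^ (j + 1) := by
  choose z hz1 hz2 using fun i => exists_decomp (χ i) (ν i) j (w i) (hw i)
  refine ⟨z, fun i => ?_⟩
  have hJ : ∀ a ∈ J p N ^ 2, ∀ b ∈ J p N ^ (j - 1), a * b ∈ J p N ^ (j + 1) := by
    intro a ha b hb
    have h3 := Ideal.mul_mem_mul ha hb
    rw [← pow_add] at h3
    exact Ideal.pow_le_pow_right (by omega) h3
  have e : w i - T.mulVec z i - ra (χ i) (ν i) (w i) =
      -((T i i - (single (ν i) 1 - 1)) * z i + ∑ k ∈ Finset.univ.erase i, T i k * z k) := by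
    have h3 : T.mulVec z i = T i i * z i + ∑ k ∈ Finset.univ.erase i, T i k * z k := by
      rw [Finset.add_sum_erase _ (fun k => T i k * z k) (Finset.mem_univ i)]
      rfl
    have h4 := hz2 i
    rw [h3]
    linear_combination h4
  rw [e]
  refine (J p N ^ (j + 1)).neg_mem (Ideal.add_mem _ (hJ _ (h1 i) _ (hz1 i)) ?_)
  refine Ideal.sum_mem _ fun k hk => hJ _ (h2 i k ?_) _ (hz1 k)
  exact (Finset.ne_of_mem_erase hk).symm

open Classical in
/-- the generators of the complement -/
noncomputable def gens [Fintype N] (χ : ι → Module.Dual (ZMod p) (Additive N)) :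
    Finset (ι → MonoidAlgebra (ZMod p) N) :=
  ((Finset.univ : Finset ι).sigma fun i =>
    (Finset.univ : Finset N).filter fun n => χ i (Additive.ofMul n) = 0).image
    fun x => Pi.single x.1 (single x.2 1)

theorem card_gens [Fintype N] (χ : ι → Module.Dual (ZMod p) (Additive N)) (hχ : ∀ i, χ i ≠ 0) :
    p * (gens χ).card ≤ Fintype.card ι * Fintype.card N := by
  classical
  have h1 : (gens χ).card ≤ ∑ i : ι, ((Finset.univ : Finset N).filter fun n =>
      χ i (Additive.ofMul n) = 0).card := by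
    unfold gens
    refine Finset.card_image_le.trans ?_
    rw [Finset.card_sigma]
  refine (Nat.mul_le_mul_left p h1).trans ?_
  rw [Finset.mul_sum, Fintype.card_eq_sum_ones, Finset.sum_mul]
  refine Finset.sum_le_sum fun i _ => ?_
  rw [one_mul]
  have h2 := card_ker (χ i) (hχ i)
  have h3 : Nat.card (Additive N) = Fintype.card N := by
    rw [Nat.card_congr Additive.toMul, Nat.card_eq_fintype_card]
  rw [h3] at h2
  rw [← h2]
  refine Nat.mul_le_mul_left p (le_of_eq ?_)
  have h4 : Nat.card (LinearMap.ker (χ i)) = Nat.card {n : N // χ i (Additive.ofMul n) = 0} :=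
    Nat.card_congr (Equiv.subtypeEquiv Additive.toMul fun a => by
      rw [LinearMap.mem_ker]
      rfl)
  rw [h4, Nat.card_eq_fintype_card, Fintype.card_subtype]

theorem ra_mem_span [Fintype N] (χ : ι → Module.Dual (ZMod p) (Additive N)) (ν : ι → N)
    (hχ : ∀ i, χ i (Additive.ofMul (ν i)) = 1) (w : ι → MonoidAlgebra (ZMod p) N) :
    (fun i => ra (χ i) (ν i) (w i)) ∈ Submodule.span (ZMod p) (gens χ : Set (ι → MonoidAlgebra (ZMod p) N)) := by
  classical
  have e : (fun i => ra (χ i) (ν i) (w i)) = ∑ i, Pi.single i (ra (χ i) (ν i) (w i)) := by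
    rw [Finset.univ_sum_single]
  rw [e]
  refine Submodule.sum_mem _ fun i _ => ?_
  generalize w i = a
  induction a using MonoidAlgebra.induction_linear with
  | zero => rw [map_zero, Pi.single_zero]; exact Submodule.zero_mem _
  | add x y hx hy => rw [map_add, Pi.single_add]; exact Submodule.add_mem _ hx hy
  | single n c =>
    rw [ra_single]
    have h1 : (Pi.single i (single (rt (χ i) (ν i) n) c) : ι → MonoidAlgebra (ZMod p) N) =
        c • Pi.single i (single (rt (χ i) (ν i) n) 1) := by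
      rw [← Pi.single_smul, smul_single, smul_eq_mul, mul_one]
    rw [h1]
    refine Submodule.smul_mem _ _ (Submodule.subset_span ?_)
    rw [Finset.mem_coe, gens, Finset.mem_image]
    refine ⟨⟨i, rt (χ i) (ν i) n⟩, ?_, rfl⟩
    rw [Finset.mem_sigma]
    refine ⟨Finset.mem_univ _, ?_⟩
    rw [Finset.mem_filter]
    exact ⟨Finset.mem_univ _, chi_rt _ _ _ (hχ i)⟩

/-- the cokernel of a matrix which is diagonal modulo `J ^ 2` is small -/
theorem exists_compl [Fintype N] (T : Matrix ι ι (MonoidAlgebra (ZMod p) N))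
    (ν : ι → N) (h1 : ∀ i, T i i - (single (ν i) 1 - 1) ∈ J p N ^ 2)
    (h2 : ∀ i k, i ≠ k → T i k ∈ J p N ^ 2) (h3 : ∀ i, ν i ≠ 1) :
    ∃ S : Finset (ι → MonoidAlgebra (ZMod p) N), p * S.card ≤ Fintype.card ι * Fintype.card N ∧
      ∀ w, ∃ z, ∃ y ∈ Submodule.span (ZMod p) (S : Set (ι → MonoidAlgebra (ZMod p) N)),
        w = T.mulVec z + y := by
  choose χ hχ using fun i => exists_char (p := p) (ν i) (h3 i)
  have hχ0 : ∀ i, χ i ≠ 0 := fun i h => by
    have := hχ i
    rw [h, LinearMap.zero_apply] at this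
    exact zero_ne_one this
  refine ⟨gens χ, card_gens χ hχ0, ?_⟩
  obtain ⟨M, hM⟩ := J_nil p N
  have key : ∀ j : ℕ, ∀ w : ι → MonoidAlgebra (ZMod p) N, ∃ z, ∃ y ∈ Submodule.span (ZMod p)
      (gens χ : Set (ι → MonoidAlgebra (ZMod p) N)), ∀ i, (w - (T.mulVec z + y)) i ∈ J p N ^ j := by
    intro j
    induction j with
    | zero => exact fun w => ⟨0, 0, Submodule.zero_mem _, fun i => by simp⟩
    | succ j ih =>
      intro w
      obtain ⟨z, y, hy, hz⟩ := ih w
      obtain ⟨z', hz'⟩ := step_coker χ T ν h1 h2 j _ hz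
      refine ⟨z + z', y + (fun i => ra (χ i) (ν i) ((w - (T.mulVec z + y)) i)),
        Submodule.add_mem _ hy (ra_mem_span χ ν hχ _), fun i => ?_⟩
      have h4 := hz' i
      convert h4 using 1
      rw [Matrix.mulVec_add]
      simp only [Pi.sub_apply, Pi.add_apply]
      ring
  intro w
  obtain ⟨z, y, hy, hz⟩ := key M w
  refine ⟨z, y, hy, ?_⟩
  funext i
  have h4 := hz i
  rw [hM, Ideal.mem_bot, Pi.sub_apply, sub_eq_zero] at h4
  exact h4

end H58.SP
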