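import Mathlib

/-!
# Additive families of elements with `X ^ p = X` commute
-/

set_option autoImplicit false

namespace H58.SP

/-- the coefficients of `(X + t Y) ^ n` -/
def gc {A : Type*} [Ring A] (X Y : A) : ℕ → ℕ → A
  | 0, 0 => 1
  | 0, _ + 1 => 0
  | n + 1, 0 => gc X Y n 0 * X
  | n + 1, j + 1 => gc X Y n (j + 1) * X + gc X Y n j * Y

section

variable {A : Type*} [Ring A] (X Y : A)

theorem gc_gt (n : ℕ) : ∀ j, n < j → gc X Y n j = 0 := by
  induction n with
  | zero =>
    intro j hj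
    obtain ⟨k, rfl⟩ : ∃ k, j = k + 1 := ⟨j - 1, by omega⟩
    rfl
  | succ n ih =>
    intro j hj
    obtain ⟨k, rfl⟩ : ∃ k, j = k + 1 := ⟨j - 1, by omega⟩
    rw [gc, ih _ (by omega), ih _ (by omega), zero_mul, zero_mul, add_zero]

theorem gc_zero (n : ℕ) : gc X Y n 0 = X ^ n := by
  induction n with
  | zero => rw [pow_zero]; rfl
  | succ n ih => rw [gc, ih, pow_succ]

theorem gc_self (n : ℕ) : gc X Y n n = Y ^ n := by
  induction n with
  | zero => rw [pow_zero]; rfl
  | succ n ih => rw [gc, ih, gc_gt X Y n (n + 1) (Nat.lt_succ_self n), zero_mul, zero_add, pow_succ]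

theorem gc_one (n : ℕ) : X * gc X Y n 1 - gc X Y n 1 * X = X ^ n * Y - Y * X ^ n := by
  induction n with
  | zero =>
    rw [gc_gt X Y 0 1 (by omega), pow_zero]
    simp
  | succ n ih =>
    have h1 : gc X Y (n + 1) 1 = gc X Y n 1 * X + X ^ n * Y := by
      rw [← gc_zero X Y n]
      rfl
    rw [h1]
    calc X * (gc X Y n 1 * X + X ^ n * Y) - (gc X Y n 1 * X + X ^ n * Y) * X
        = (X * gc X Y n 1 - gc X Y n 1 * X) * X + X * X ^ n * Y - X ^ n * Y * X := by noncomm_ring
      _ = (X ^ n * Y - Y * X ^ n) * X + X * X ^ n * Y - X ^ n * Y * X := by rw [ih]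
      _ = X * X ^ n * Y - Y * (X ^ n * X) := by noncomm_ring
      _ = X ^ (n + 1) * Y - Y * X ^ (n + 1) := by rw [← pow_succ', ← pow_succ]

theorem gc_expand {F : Type*} [CommRing F] [Algebra F A] (t : F) (n : ℕ) :
    (X + t • Y) ^ n = ∑ j ∈ Finset.range (n + 1), t ^ j • gc X Y n j := by
  induction n with
  | zero =>
    rw [pow_zero, zero_add, Finset.sum_range_one, pow_zero, one_smul]
    rfl
  | succ n ih =>
    rw [Finset.sum_range_succ' (fun j => t ^ j • gc X Y (n + 1) j), pow_zero, one_smul]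
    have h1 : ∀ j, t ^ (j + 1) • gc X Y (n + 1) (j + 1) =
        t ^ (j + 1) • (gc X Y n (j + 1) * X) + t ^ (j + 1) • (gc X Y n j * Y) := by
      intro j
      rw [← smul_add]
      rfl
    simp only [h1]
    rw [Finset.sum_add_distrib]
    have h2 : ∑ j ∈ Finset.range (n + 1), t ^ (j + 1) • (gc X Y n (j + 1) * X) +
        gc X Y (n + 1) 0 = ∑ j ∈ Finset.range (n + 1), t ^ j • (gc X Y n j * X) := by
      rw [Finset.sum_range_succ, gc_gt X Y n (n + 1) (Nat.lt_succ_self n), zero_mul, smul_zero,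
        add_zero, Finset.sum_range_succ', pow_zero, one_smul]
      rfl
    have h3 : ∑ j ∈ Finset.range (n + 1), t ^ (j + 1) • (gc X Y n (j + 1) * X) +
        ∑ j ∈ Finset.range (n + 1), t ^ (j + 1) • (gc X Y n j * Y) + gc X Y (n + 1) 0 =
        ∑ j ∈ Finset.range (n + 1), t ^ j • (gc X Y n j * X) +
        ∑ j ∈ Finset.range (n + 1), t ^ (j + 1) • (gc X Y n j * Y) := by
      rw [← h2]
      abel
    rw [h3, pow_succ, ih, mul_add, Finset.sum_mul, Finset.sum_mul]
    congr 1
    · refine Finset.sum_congr rfl fun j _ => ?_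
      rw [smul_mul_assoc]
    · refine Finset.sum_congr rfl fun j _ => ?_
      rw [smul_mul_assoc, mul_smul_comm, smul_smul, pow_succ]

end

/-- power sums -/
theorem sum_pow_low (p : ℕ) [Fact p.Prime] (i : ℕ) (hi : i < p - 1) :
    ∑ t : ZMod p, t ^ i = 0 := by
  apply FiniteField.sum_pow_lt_card_sub_one
  rw [ZMod.card]
  exact hi

theorem sum_pow_top (p : ℕ) [hp : Fact p.Prime] : ∑ t : ZMod p, t ^ (p - 1) = -1 := by
  classical
  have h1 : ∀ t : ZMod p, t ^ (p - 1) = 1 - (if t = 0 then 1 else 0) := by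
    intro t
    by_cases ht : t = 0
    · rw [ht, if_pos rfl, zero_pow (by have := hp.out.two_le; omega), sub_self]
    · rw [if_neg ht, sub_zero, ZMod.pow_card_sub_one_eq_one ht]
  simp only [h1]
  rw [Finset.sum_sub_distrib, Finset.sum_ite_eq' Finset.univ (0 : ZMod p), if_pos (Finset.mem_univ _)]
  simp

theorem sum_pow_coef (p : ℕ) [hp : Fact p.Prime] (j : ℕ) (hj : j ≤ p) :
    ∑ t : ZMod p, t ^ (p - 2 + j) = (if j = 1 then -1 else 0) + (if j = p then -1 else 0) := by
  have h2 := hp.out.two_le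
  by_cases h0 : j = 0
  · subst h0
    rw [if_neg (by omega), if_neg (by omega), add_zero, add_zero, sum_pow_low p _ (by omega)]
  by_cases h1 : j = 1
  · subst h1
    rw [if_pos rfl, if_neg (by omega), add_zero, ← sum_pow_top p]
    have : p - 2 + 1 = p - 1 := by omega
    rw [this]
  have h3 : ∀ t : ZMod p, t ^ (p - 2 + j) = t ^ (j - 1) := by
    intro t
    have e1 : p - 2 + j = p + (j - 2) := by omega
    have e2 : j - 1 = 1 + (j - 2) := by omega
    rw [e1, e2, pow_add, pow_add, ZMod.pow_card, pow_one]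
  simp only [h3]
  rw [if_neg h1, zero_add]
  by_cases h4 : j = p
  · rw [if_pos h4, h4, sum_pow_top]
  · rw [if_neg h4, sum_pow_low p _ (by omega)]

theorem comm_of_pow {p : ℕ} [hp : Fact p.Prime] {A : Type*} [Ring A] [Algebra (ZMod p) A] {X Y : A}
    (hX : X ^ p = X) (hY : Y ^ p = Y) (hXY : ∀ t : ZMod p, (X + t • Y) ^ p = X + t • Y) :
    X * Y = Y * X := by
  classical
  have h2 := hp.out.two_le
  have h1 : ∑ t : ZMod p, t ^ (p - 2) • ((X + t • Y) ^ p - X - t • Y) = 0 := by
    refine Finset.sum_eq_zero fun t _ => ?_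
    rw [hXY, add_sub_cancel_left, sub_self, smul_zero]
  have h3 : ∀ t : ZMod p, t ^ (p - 2) • ((X + t • Y) ^ p - X - t • Y) =
      ∑ j ∈ Finset.range (p + 1), t ^ (p - 2 + j) • gc X Y p j - t ^ (p - 2) • X -
        t ^ (p - 1) • Y := by
    intro t
    rw [gc_expand, smul_sub, smul_sub, Finset.smul_sum, smul_smul, ← pow_succ]
    have e1 : p - 2 + 1 = p - 1 := by omega
    rw [e1]
    congr 2
    refine Finset.sum_congr rfl fun j _ => ?_
    rw [smul_smul, ← pow_add]
  simp only [h3] at h1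
  rw [Finset.sum_sub_distrib, Finset.sum_sub_distrib, Finset.sum_comm] at h1
  simp only [← Finset.sum_smul] at h1
  rw [sum_pow_low p (p - 2) (by omega), sum_pow_top, zero_smul, sub_zero] at h1
  have h4 : ∑ j ∈ Finset.range (p + 1), (∑ t : ZMod p, t ^ (p - 2 + j)) • gc X Y p j =
      - gc X Y p 1 - Y := by
    have e1 : ∀ j ∈ Finset.range (p + 1), (∑ t : ZMod p, t ^ (p - 2 + j)) • gc X Y p j =
        (if j = 1 then - gc X Y p 1 else 0) + (if j = p then - gc X Y p p else 0) := by
      intro j hj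
      rw [sum_pow_coef p j (by have := Finset.mem_range.1 hj; omega), add_smul]
      congr 1
      · by_cases hj1 : j = 1
        · rw [if_pos hj1, if_pos hj1, hj1, neg_one_smul]
        · rw [if_neg hj1, if_neg hj1, zero_smul]
      · by_cases hj1 : j = p
        · rw [if_pos hj1, if_pos hj1, hj1, neg_one_smul]
        · rw [if_neg hj1, if_neg hj1, zero_smul]
    rw [Finset.sum_congr rfl e1, Finset.sum_add_distrib, Finset.sum_ite_eq', Finset.sum_ite_eq',
      if_pos (Finset.mem_range.2 (by omega)), if_pos (Finset.mem_range.2 (by omega)), gc_self, hY]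
    abel
  rw [h4, neg_one_smul] at h1
  have h5 : gc X Y p 1 = 0 := by
    have e : - gc X Y p 1 - Y - -Y = - gc X Y p 1 := by abel
    rw [e, neg_eq_zero] at h1
    exact h1
  have h6 := gc_one X Y p
  rw [h5, mul_zero, zero_mul, sub_zero, hX] at h6
  exact (sub_eq_zero.1 h6.symm)

end H58.SP
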