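import Mathlib

/-!
# Simultaneous diagonalisation of commuting elements with `X ^ p = X`
-/

set_option autoImplicit false

namespace H58.SP

open Polynomial

theorem sum_pow_X (p : ℕ) [hp : Fact p.Prime] :
    (∑ a : ZMod p, (X - C a) ^ (p - 1) : (ZMod p)[X]) + 1 = 0 := by
  refine Polynomial.eq_zero_of_natDegree_lt_card_of_eval_eq_zero' _
    (Finset.univ : Finset (ZMod p)) (fun b _ => ?_) ?_
  · rw [eval_add, eval_one, eval_finsetSum]
    have h1 : ∀ a ∈ (Finset.univ : Finset (ZMod p)), eval b ((X - C a) ^ (p - 1)) =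
        1 - if b = a then 1 else 0 := by
      intro a _
      rw [eval_pow, eval_sub, eval_X, eval_C]
      by_cases h : b = a
      · rw [if_pos h, h, sub_self, zero_pow (Nat.sub_ne_zero_of_lt hp.out.one_lt), sub_self]
      · rw [if_neg h, sub_zero, ZMod.pow_card_sub_one_eq_one (sub_ne_zero.2 h)]
    rw [Finset.sum_congr rfl h1, Finset.sum_sub_distrib, Finset.sum_ite_eq, if_pos (Finset.mem_univ _),
      Finset.sum_const, Finset.card_univ, ZMod.card, nsmul_one, CharP.cast_eq_zero]
    ring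
  · rw [Finset.card_univ, ZMod.card]
    have h2 : (∑ a : ZMod p, (X - C a) ^ (p - 1) : (ZMod p)[X]).natDegree ≤ p - 1 := by
      refine Polynomial.natDegree_sum_le_of_forall_le _ _ fun a _ => ?_
      refine (natDegree_pow_le).trans ?_
      rw [natDegree_X_sub_C, mul_one]
    have h3 := Polynomial.natDegree_add_le (∑ a : ZMod p, (X - C a) ^ (p - 1) : (ZMod p)[X]) 1
    have h4 := hp.out.one_lt
    rw [natDegree_one] at h3
    omega

variable {p : ℕ} [hp : Fact p.Prime] {V : Type*} [AddCommGroup V] [Module (ZMod p) V]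

theorem iSup_eig (f : Module.End (ZMod p) V) (hf : f ^ p = f) : ⨆ μ, f.eigenspace μ = ⊤ := by
  rw [eq_top_iff]
  intro x _
  have h1 := congrArg (fun P : (ZMod p)[X] => aeval f P x) (sum_pow_X p)
  simp only [map_add, map_sum, map_pow, map_sub, aeval_X, aeval_C, map_one, map_zero] at h1
  have h2 : x = ∑ a : ZMod p, (x - ((f - algebraMap (ZMod p) (Module.End (ZMod p) V) a) ^ (p - 1)) x) := by
    rw [Finset.sum_sub_distrib, Finset.sum_const, Finset.card_univ, ZMod.card]
    have h3 : (p : ℕ) • x = 0 := by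
      rw [← Nat.cast_smul_eq_nsmul (ZMod p), CharP.cast_eq_zero, zero_smul]
    rw [h3, zero_sub]
    have h4 : (∑ a : ZMod p, (f - algebraMap (ZMod p) (Module.End (ZMod p) V) a) ^ (p - 1)) x + x = 0 := by
      simpa using h1
    rw [LinearMap.sum_apply] at h4
    exact eq_neg_of_add_eq_zero_right h4
  rw [h2]
  refine Submodule.sum_mem _ fun a _ => Submodule.mem_iSup_of_mem a ?_
  rw [Module.End.mem_eigenspace_iff]
  have hc : Commute f (algebraMap (ZMod p) (Module.End (ZMod p) V) a) :=
    (Algebra.commutes a f).symm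
  have h5 : (f - algebraMap (ZMod p) (Module.End (ZMod p) V) a) ^ p =
      f - algebraMap (ZMod p) (Module.End (ZMod p) V) a := by
    by_cases hV : Nontrivial V
    · have : CharP (Module.End (ZMod p) V) p := by
        exact charP_of_injective_algebraMap (FaithfulSMul.algebraMap_injective (ZMod p) (Module.End (ZMod p) V)) p
      rw [sub_pow_char_of_commute _ hc, hf, ← map_pow, ZMod.pow_card]
    · rw [not_nontrivial_iff_subsingleton] at hV
      exact LinearMap.ext fun y => Subsingleton.elim _ _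
  set F := f - algebraMap (ZMod p) (Module.End (ZMod p) V) a with hF
  have h6 : F (x - (F ^ (p - 1)) x) = 0 := by
    rw [map_sub]
    have h7 : F ((F ^ (p - 1)) x) = (F ^ p) x := by
      rw [← Module.End.mul_apply, ← pow_succ', Nat.sub_add_cancel hp.out.one_lt.le]
    rw [h7, h5, sub_self]
  have h8 : F (x - (F ^ (p - 1)) x) = f (x - (F ^ (p - 1)) x) - a • (x - (F ^ (p - 1)) x) := by
    rw [hF, LinearMap.sub_apply, Module.algebraMap_end_apply]
  rw [h8] at h6
  exact sub_eq_zero.1 h6

theorem maxGen_eq (f : Module.End (ZMod p) V) (hf : f ^ p = f) (μ : ZMod p) :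
    f.maxGenEigenspace μ = f.eigenspace μ := by
  refine Module.End.IsFinitelySemisimple.maxGenEigenspace_eq_eigenspace ?_ μ
  refine Module.End.IsSemisimple.isFinitelySemisimple ?_
  refine Module.End.isSemisimple_of_squarefree_aeval_eq_zero (p := X ^ p - X) ?_ ?_
  · exact (galois_poly_separable p p dvd_rfl).squarefree
  · rw [map_sub, map_pow, aeval_X, hf, sub_self]

open Module in
/-- simultaneous diagonalisation -/
theorem exists_diag {H ι : Type*} [Fintype ι] [DecidableEq ι] [Module.Finite (ZMod p) V]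
    (b₀ : Module.Basis ι (ZMod p) V)
    (F : H → Module.End (ZMod p) V) (hF : ∀ h, F h ^ p = F h)
    (hc : ∀ g h, Commute (F g) (F h)) :
    ∃ (b : Module.Basis ι (ZMod p) V) (e : H → ι → ZMod p), ∀ h i, F h (b i) = e h i • b i := by
  classical
  set A : (H → ZMod p) → Submodule (ZMod p) V := fun χ => ⨅ h, (F h).maxGenEigenspace (χ h) with hA
  have hmaps : ∀ i j φ, Set.MapsTo (F i) ((F j).maxGenEigenspace φ) ((F j).maxGenEigenspace φ) :=
    fun i j φ => Module.End.mapsTo_maxGenEigenspace_of_comm (hc j i) φ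
  have h1 : iSupIndep A := Module.End.independent_iInf_maxGenEigenspace_of_forall_mapsTo F hmaps
  have h2 : ⨆ χ, A χ = ⊤ :=
    Module.End.iSup_iInf_maxGenEigenspace_eq_top_of_iSup_maxGenEigenspace_eq_top_of_commute F
      (fun i j _ => hc i j) (fun i => by simp_rw [maxGen_eq (F i) (hF i)]; exact iSup_eig (F i) (hF i))
  have h3 : DirectSum.IsInternal A := DirectSum.isInternal_submodule_of_iSupIndep_of_iSup_eq_top h1 h2
  let v : ∀ χ, Module.Basis (Module.Free.ChooseBasisIndex (ZMod p) (A χ)) (ZMod p) (A χ) :=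
    fun χ => Module.Free.chooseBasis (ZMod p) (A χ)
  let b₁ := h3.collectedBasis v
  let eqv := b₁.indexEquiv b₀
  refine ⟨b₁.reindex eqv, fun h i => (eqv.symm i).1 h, fun h i => ?_⟩
  rw [Module.Basis.reindex_apply]
  have h4 : b₁ (eqv.symm i) ∈ A (eqv.symm i).1 := h3.collectedBasis_mem v _
  have h5 : b₁ (eqv.symm i) ∈ (F h).maxGenEigenspace ((eqv.symm i).1 h) :=
    (Submodule.mem_iInf _).1 h4 h
  rw [maxGen_eq (F h) (hF h)] at h5
  exact Module.End.mem_eigenspace_iff.1 h5

/-- simultaneous diagonalisation, matrix form -/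
theorem exists_diag_mat {H ι : Type*} [Fintype ι] [DecidableEq ι]
    (X : H → Matrix ι ι (ZMod p)) (hX : ∀ h, X h ^ p = X h)
    (hc : ∀ g h, X g * X h = X h * X g) :
    ∃ (P Q : Matrix ι ι (ZMod p)) (e : H → ι → ZMod p), P * Q = 1 ∧ Q * P = 1 ∧
      ∀ h, Q * X h * P = Matrix.diagonal (e h) := by
  obtain ⟨b, e, he⟩ := exists_diag (p := p) (Pi.basisFun (ZMod p) ι)
    (fun h => Matrix.toLin' (X h)) (fun h => by
      change (Matrix.toLinAlgEquiv' (X h)) ^ p = Matrix.toLinAlgEquiv' (X h)
      rw [← map_pow, hX])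
    (fun g h => by
      change (Matrix.toLinAlgEquiv' (X g)) * (Matrix.toLinAlgEquiv' (X h)) =
        Matrix.toLinAlgEquiv' (X h) * Matrix.toLinAlgEquiv' (X g)
      rw [← map_mul, ← map_mul, hc])
  let P : Matrix ι ι (ZMod p) := (Pi.basisFun (ZMod p) ι).toMatrix b
  let Q : Matrix ι ι (ZMod p) := b.toMatrix (Pi.basisFun (ZMod p) ι)
  have hPQ : P * Q = 1 := Module.Basis.toMatrix_mul_toMatrix_flip _ _
  have hQP : Q * P = 1 := Module.Basis.toMatrix_mul_toMatrix_flip _ _
  refine ⟨P, Q, e, hPQ, hQP, fun h => ?_⟩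
  have h1 : X h * P = P * Matrix.diagonal (e h) := by
    ext i j
    have h2 := congrFun (he h j) i
    rw [Matrix.mul_diagonal]
    rw [Matrix.toLin'_apply] at h2
    simp only [Matrix.mulVec, dotProduct, Pi.smul_apply, smul_eq_mul] at h2
    rw [Matrix.mul_apply]
    simp only [P, Module.Basis.toMatrix_apply, Pi.basisFun_repr]
    rw [h2, mul_comm]
  rw [Matrix.mul_assoc, h1, ← Matrix.mul_assoc, hQP, Matrix.one_mul]

end H58.SP
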