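import Pool.Agent.H58.SP.Defs

/-!
# Power congruences of traces: for a conjugation invariant set `S`
`sg S (a ^ (p ^ r)) = sg {x | x ^ p ∈ S} (a ^ (p ^ (r - 1)))` modulo `p ^ r`.
-/

set_option autoImplicit false

namespace H58.SP

open MonoidAlgebra

variable {R : Type*} [CommRing R] {G : Type*} [Group G]

/-- the product `h 0 * h 1 * ... * h (n - 1)` -/
def Q {M : Type*} [Monoid M] (h : ℕ → M) (n : ℕ) : M := ((List.range n).map h).prod

theorem Q_zero {M : Type*} [Monoid M] (h : ℕ → M) : Q h 0 = 1 := rfl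

theorem Q_succ {M : Type*} [Monoid M] (h : ℕ → M) (n : ℕ) : Q h (n + 1) = Q h n * h n := by
  simp [Q, List.range_succ]

theorem Q_succ' {M : Type*} [Monoid M] (h : ℕ → M) (n : ℕ) :
    Q h (n + 1) = h 0 * Q (fun j => h (j + 1)) n := by
  induction n with
  | zero => rw [Q_succ, Q_zero, Q_zero, one_mul, mul_one]
  | succ n ih => rw [Q_succ, ih, Q_succ, mul_assoc]

theorem Q_congr {M : Type*} [Monoid M] {h h' : ℕ → M} {n : ℕ} (e : ∀ j < n, h j = h' j) :
    Q h n = Q h' n := by
  induction n with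
  | zero => rfl
  | succ n ih => rw [Q_succ, Q_succ, ih fun j hj => e j (by omega), e n (by omega)]

theorem Q_add {M : Type*} [Monoid M] (h : ℕ → M) (m n : ℕ) :
    Q h (m + n) = Q h m * Q (fun j => h (m + j)) n := by
  induction n with
  | zero => rw [add_zero, Q_zero, mul_one]
  | succ n ih => rw [← add_assoc, Q_succ, ih, Q_succ, mul_assoc]

theorem Q_mul {M : Type*} [Monoid M] (h : ℕ → M) (m k : ℕ) (hp : ∀ j, h (j + m) = h j) :
    Q h (m * k) = Q h m ^ k := by
  induction k with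
  | zero => rw [mul_zero, Q_zero, pow_zero]
  | succ k ih =>
    rw [Nat.mul_succ, Q_add, ih, pow_succ]
    congr 1
    refine Q_congr fun j _ => ?_
    have : ∀ k, h (m * k + j) = h j := by
      intro k
      induction k with
      | zero => rw [mul_zero, zero_add]
      | succ k ih2 => rw [Nat.mul_succ, show m * k + m + j = m * k + j + m by ring, hp, ih2]
    exact this k

/-- rotation -/
theorem Q_rot (h : ℕ → G) (m : ℕ) (hp : h m = h 0) :
    Q (fun j => h (j + 1)) m = (h 0)⁻¹ * Q h m * h 0 := by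
  have h1 := Q_succ h m
  rw [Q_succ' h m, hp] at h1
  rw [mul_assoc, ← h1, inv_mul_cancel_left]

theorem CI.rot {S : Set G} (hS : CI S) (h : ℕ → G) (m : ℕ) (hp : ∀ j, h (j + m) = h j) (k : ℕ) :
    Q (fun j => h (j + k)) m ∈ S ↔ Q h m ∈ S := by
  induction k with
  | zero => rfl
  | succ k ih =>
    have h1 := Q_rot (fun j => h (j + k)) m (by
      rw [add_comm m k, hp, zero_add])
    have h2 : Q (fun j => h (j + (k + 1))) m = Q (fun j => h (j + 1 + k)) m := by
      congr 1
      funext j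
      congr 1
      ring
    rw [h2, h1, ← ih]
    constructor
    · intro h3
      have h4 := hS (h (0 + k)) _ h3
      have e : h (0 + k) * ((h (0 + k))⁻¹ * Q (fun j => h (j + k)) m * h (0 + k)) * (h (0 + k))⁻¹
          = Q (fun j => h (j + k)) m := by group
      rwa [e] at h4
    · intro h3
      have h4 := hS (h (0 + k))⁻¹ _ h3
      rwa [inv_inv] at h4

/-- powers of sums -/
theorem pow_sum {A : Type*} [Semiring A] {ι : Type*} [Fintype ι] (x : ι → A) (m : ℕ) :
    (∑ i, x i) ^ m = ∑ f : Fin m → ι, Q (fun j => if h : j < m then x (f ⟨j, h⟩) else 0) m := by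
  induction m with
  | zero =>
    rw [pow_zero]
    simp [Q_zero]
  | succ m ih =>
    rw [pow_succ, ih, Finset.sum_mul_sum, ← (Fin.snocEquiv (fun _ => ι)).sum_comp,
      Fintype.sum_prod_type, Finset.sum_comm]
    refine Finset.sum_congr rfl fun i _ => Finset.sum_congr rfl fun f _ => ?_
    rw [Q_succ]
    congr 1
    · refine Q_congr fun j hj => ?_
      rw [dif_pos hj, dif_pos (show j < m + 1 by omega)]
      congr 1
      exact (Fin.snoc_castSucc (α := fun _ => ι) i f ⟨j, hj⟩).symm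
    · rw [dif_pos (show m < m + 1 by omega)]
      congr 1
      have e : (⟨m, by omega⟩ : Fin (m + 1)) = Fin.last m := rfl
      rw [e, Fin.snocEquiv_apply]
      simp

theorem map_Q {M N : Type*} [Monoid M] [Monoid N] (φ : M →* N) (h : ℕ → M) (n : ℕ) :
    Q (fun j => φ (h j)) n = φ (Q h n) := by
  induction n with
  | zero => rw [Q_zero, Q_zero, map_one]
  | succ n ih => rw [Q_succ, Q_succ, ih, map_mul]

omit [Group G] in
/-- every element over `ZMod n` is a sum of group elements -/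
theorem exists_sum (n : ℕ) [NeZero n] (a : MonoidAlgebra (ZMod n) G) :
    ∃ (k : ℕ) (g : Fin k → G), a = ∑ i, single (g i) 1 := by
  induction a using MonoidAlgebra.induction_linear with
  | zero => exact ⟨0, Fin.elim0, by simp⟩
  | add x y hx hy =>
    obtain ⟨k, g, rfl⟩ := hx
    obtain ⟨l, h, rfl⟩ := hy
    refine ⟨k + l, Fin.append g h, ?_⟩
    rw [Fin.sum_univ_add]
    simp
  | single m r =>
    refine ⟨r.val, fun _ => m, ?_⟩
    rw [Finset.sum_const, Finset.card_univ, Fintype.card_fin, ← Nat.cast_smul_eq_nsmul (ZMod n),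
      ZMod.natCast_zmod_val, smul_single, smul_eq_mul, mul_one]

/-- natural numbers `< m` and residues -/
private def eqv (m : ℕ) [NeZero m] : Fin m ≃ ZMod m where
  toFun i := ((i : ℕ) : ZMod m)
  invFun z := ⟨z.val, ZMod.val_lt z⟩
  left_inv i := by
    apply Fin.ext
    exact ZMod.val_cast_of_lt i.2
  right_inv z := ZMod.natCast_zmod_val z

theorem sg_pow (n : ℕ) [NeZero n] (m : ℕ) [NeZero m] (S : Set G) {k : ℕ} (g : Fin k → G) :
    sg S ((∑ i, single (g i) (1 : ZMod n)) ^ m)
      = ((Nat.card {f : ZMod m → Fin k // Q (fun j => g (f (j : ZMod m))) m ∈ S} : ℕ) : ZMod n) := by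
  classical
  rw [pow_sum, map_sum, ← (Equiv.arrowCongr (eqv m) (Equiv.refl (Fin k))).symm.sum_comp,
    Nat.card_eq_fintype_card, Fintype.card_subtype, ← Finset.sum_boole]
  refine Finset.sum_congr rfl fun f _ => ?_
  have e1 : Q (fun j => if h : j < m then
      (single (g (((Equiv.arrowCongr (eqv m) (Equiv.refl (Fin k))).symm f) ⟨j, h⟩)) (1 : ZMod n) :
        MonoidAlgebra (ZMod n) G) else 0) m
      = single (Q (fun j => g (f (j : ZMod m))) m) 1 := by
    have e2 := map_Q (MonoidAlgebra.of (ZMod n) G) (fun j => g (f (j : ZMod m))) m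
    simp only [MonoidAlgebra.of_apply] at e2
    rw [← e2]
    refine Q_congr fun j hj => ?_
    rw [dif_pos hj]
    rfl
  rw [e1, sg_single]

theorem exists_mul (p r : ℕ) [Fact p.Prime] (k : ZMod (p ^ (r + 1))) (hk : k ≠ 0) :
    ∃ b : ZMod (p ^ (r + 1)), k * b = ((p ^ r : ℕ) : ZMod (p ^ (r + 1))) := by
  have hp : p.Prime := Fact.out
  have : NeZero (p ^ (r + 1)) := ⟨pow_ne_zero _ hp.ne_zero⟩
  have hv : k.val ≠ 0 := fun h => hk ((ZMod.val_eq_zero k).1 h)
  have hlt := ZMod.val_lt k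
  obtain ⟨j, hj, hg⟩ := (Nat.dvd_prime_pow hp).1 (Nat.gcd_dvd_right k.val (p ^ (r + 1)))
  have hjr : j ≤ r := by
    by_contra h
    have : j = r + 1 := by omega
    rw [this] at hg
    have h2 := Nat.gcd_dvd_left k.val (p ^ (r + 1))
    rw [hg] at h2
    exact absurd (Nat.le_of_dvd (Nat.pos_of_ne_zero hv) h2) (by omega)
  have h1 := Nat.gcd_eq_gcd_ab k.val (p ^ (r + 1))
  have h2 : ((p ^ j : ℕ) : ZMod (p ^ (r + 1)))
      = k * ((Nat.gcdA k.val (p ^ (r + 1)) : ℤ) : ZMod (p ^ (r + 1))) := by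
    have h3 := congrArg (fun z : ℤ => (z : ZMod (p ^ (r + 1)))) h1
    rw [hg] at h3
    push_cast at h3
    rw [ZMod.natCast_zmod_val] at h3
    have h4 : ((p : ZMod (p ^ (r + 1))) ^ (r + 1)) = 0 := by
      have := ZMod.natCast_self (p ^ (r + 1))
      push_cast at this
      exact this
    rw [h4, zero_mul, add_zero] at h3
    push_cast
    exact h3
  refine ⟨((Nat.gcdA k.val (p ^ (r + 1)) : ℤ) : ZMod (p ^ (r + 1))) * ((p ^ (r - j) : ℕ) : _), ?_⟩
  rw [← mul_assoc, ← h2, ← Nat.cast_mul, ← pow_add]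
  congr 3
  omega

/-- functions without period `p ^ r` -/
theorem dvd_card_nonper (p r : ℕ) [Fact p.Prime] {ι : Type} [Finite ι]
    (P : (ZMod (p ^ (r + 1)) → ι) → Prop)
    (hP : ∀ f k, P f → P fun i => f (i + k)) :
    p ^ (r + 1) ∣ Nat.card {f : ZMod (p ^ (r + 1)) → ι //
      P f ∧ ¬ ∀ i, f (i + ((p ^ r : ℕ) : ZMod (p ^ (r + 1)))) = f i} := by
  have : NeZero (p ^ (r + 1)) := ⟨pow_ne_zero _ (Fact.out : p.Prime).ne_zero⟩
  let Y := {f : ZMod (p ^ (r + 1)) → ι //
      P f ∧ ¬ ∀ i, f (i + ((p ^ r : ℕ) : ZMod (p ^ (r + 1)))) = f i}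
  let _ : AddAction (ZMod (p ^ (r + 1))) Y :=
    { vadd := fun k f => ⟨fun i => f.1 (i + k), hP _ _ f.2.1, by
        intro h
        apply f.2.2
        intro i
        have := h (i - k)
        simp only at this
        rwa [add_right_comm, sub_add_cancel] at this⟩
      zero_vadd := fun f => Subtype.ext (funext fun i => congrArg f.1 (add_zero i))
      add_vadd := fun k l f => Subtype.ext (funext fun i => congrArg f.1 (by
        rw [add_assoc])) }
  have hst : ∀ f : Y, AddAction.stabilizer (ZMod (p ^ (r + 1))) f = ⊥ := by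
    intro f
    rw [eq_bot_iff]
    intro k hk
    rw [AddSubgroup.mem_bot]
    by_contra hne
    rw [AddAction.mem_stabilizer_iff] at hk
    have h1 : ∀ i, f.1 (i + k) = f.1 i := fun i => congrFun (congrArg Subtype.val hk) i
    have h2 : ∀ (n : ℕ) i, f.1 (i + k * n) = f.1 i := by
      intro n
      induction n with
      | zero => intro i; rw [Nat.cast_zero, mul_zero, add_zero]
      | succ n ih =>
        intro i
        rw [Nat.cast_succ, mul_add, mul_one, ← add_assoc, h1, ih]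
    obtain ⟨b, hb⟩ := exists_mul p r k hne
    apply f.2.2
    intro i
    have e := h2 b.val i
    rw [ZMod.natCast_zmod_val, hb] at e
    exact e
  have h4 := Nat.card_congr (AddAction.selfEquivOrbitsQuotientProd hst)
  rw [Nat.card_prod, Nat.card_zmod] at h4
  exact ⟨_, h4.trans (mul_comm _ _)⟩

/-- functions with period `p ^ r` -/
theorem card_per (p r : ℕ) [Fact p.Prime] {ι : Type}
    (P : (ZMod (p ^ (r + 1)) → ι) → Prop) :
    Nat.card {f : ZMod (p ^ (r + 1)) → ι //
      P f ∧ ∀ i, f (i + ((p ^ r : ℕ) : ZMod (p ^ (r + 1)))) = f i} =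
    Nat.card {f : ZMod (p ^ r) → ι //
      P fun i => f (ZMod.castHom (pow_dvd_pow p (Nat.le_succ r)) (ZMod (p ^ r)) i)} := by
  have : NeZero (p ^ (r + 1)) := ⟨pow_ne_zero _ (Fact.out : p.Prime).ne_zero⟩
  have : NeZero (p ^ r) := ⟨pow_ne_zero _ (Fact.out : p.Prime).ne_zero⟩
  set c := ZMod.castHom (pow_dvd_pow p (Nat.le_succ r)) (ZMod (p ^ r)) with hc
  have hper : ∀ f : ZMod (p ^ (r + 1)) → ι,
      (∀ i, f (i + ((p ^ r : ℕ) : ZMod (p ^ (r + 1)))) = f i) →
      ∀ z : ZMod (p ^ (r + 1)), f (((c z).val : ℕ) : ZMod (p ^ (r + 1))) = f z := by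
    intro f hf z
    have h2 : ∀ (n : ℕ) i, f (i + ((p ^ r * n : ℕ) : ZMod (p ^ (r + 1)))) = f i := by
      intro n
      induction n with
      | zero => intro i; rw [mul_zero, Nat.cast_zero, add_zero]
      | succ n ih =>
        intro i
        rw [Nat.mul_succ, Nat.cast_add, ← add_assoc, hf, ih]
    have h3 : (c z).val = z.val % p ^ r := by
      conv_lhs => rw [← ZMod.natCast_zmod_val z]
      rw [map_natCast, ZMod.val_natCast]
    rw [h3]
    have h4 := h2 (z.val / p ^ r) (((z.val % p ^ r : ℕ)) : ZMod (p ^ (r + 1)))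
    rw [← Nat.cast_add, Nat.mod_add_div, ZMod.natCast_zmod_val] at h4
    exact h4.symm
  refine (Nat.card_congr ?_).symm
  refine
    { toFun := fun f => ⟨fun i => f.1 (c i), f.2, fun i => ?_⟩
      invFun := fun f => ⟨fun z => f.1 ((z.val : ℕ) : ZMod (p ^ (r + 1))), ?_⟩
      left_inv := ?_
      right_inv := ?_ }
  · change f.1 (c (i + ((p ^ r : ℕ) : ZMod (p ^ (r + 1))))) = f.1 (c i)
    rw [map_add, map_natCast, ZMod.natCast_self, add_zero]
  · have : (fun i => f.1 (((c i).val : ℕ) : ZMod (p ^ (r + 1)))) = f.1 := funext (hper f.1 f.2.2)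
    rw [this]
    exact f.2.1
  · intro f
    apply Subtype.ext
    funext z
    change f.1 (c ((z.val : ℕ) : ZMod (p ^ (r + 1)))) = f.1 z
    rw [map_natCast, ZMod.natCast_zmod_val]
  · intro f
    apply Subtype.ext
    exact funext (hper f.1 f.2.2)

/-- the congruence over `ZMod (p ^ (r + 1))` -/
theorem dold (p r : ℕ) [Fact p.Prime] {S : Set G} (hS : CI S)
    (a : MonoidAlgebra (ZMod (p ^ (r + 1))) G) :
    sg S (a ^ p ^ (r + 1)) = sg {x | x ^ p ∈ S} (a ^ p ^ r) := by
  have : NeZero (p ^ (r + 1)) := ⟨pow_ne_zero _ (Fact.out : p.Prime).ne_zero⟩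
  have : NeZero (p ^ r) := ⟨pow_ne_zero _ (Fact.out : p.Prime).ne_zero⟩
  obtain ⟨k, g, rfl⟩ := exists_sum (p ^ (r + 1)) a
  rw [sg_pow, sg_pow]
  set P : (ZMod (p ^ (r + 1)) → Fin k) → Prop :=
    fun f => Q (fun j => g (f (j : ZMod (p ^ (r + 1))))) (p ^ (r + 1)) ∈ S with hP
  have hinv : ∀ f k, P f → P fun i => f (i + k) := by
    intro f k hf
    have h1 := (hS.rot (fun j => g (f (j : ZMod (p ^ (r + 1))))) (p ^ (r + 1)) (by
      intro j
      rw [Nat.cast_add, ZMod.natCast_self, add_zero]) k.val).2 hf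
    change Q _ _ ∈ S
    have h2 : (fun j : ℕ => g (f ((j : ZMod (p ^ (r + 1))) + k)))
        = fun j : ℕ => g (f (((j + k.val : ℕ)) : ZMod (p ^ (r + 1)))) := by
      funext j
      rw [Nat.cast_add, ZMod.natCast_zmod_val]
    rw [h2]
    exact h1
  obtain ⟨c, hc⟩ := dvd_card_nonper p r P hinv
  have h1 := card_per p r P
  have hsum : Nat.card {f // P f} = Nat.card {f // P f ∧
      ∀ i, f (i + ((p ^ r : ℕ) : ZMod (p ^ (r + 1)))) = f i} + Nat.card {f //
      P f ∧ ¬ ∀ i, f (i + ((p ^ r : ℕ) : ZMod (p ^ (r + 1)))) = f i} := by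
    classical
    rw [Nat.card_eq_fintype_card, Nat.card_eq_fintype_card, Nat.card_eq_fintype_card,
      Fintype.card_subtype, Fintype.card_subtype, Fintype.card_subtype,
      ← Finset.filter_filter, ← Finset.filter_filter, Finset.card_filter_add_card_filter_not]
  have h2 : ∀ f : ZMod (p ^ r) → Fin k,
      (P fun i => f (ZMod.castHom (pow_dvd_pow p (Nat.le_succ r)) (ZMod (p ^ r)) i)) ↔
      Q (fun j => g (f (j : ZMod (p ^ r)))) (p ^ r) ∈ {x : G | x ^ p ∈ S} := by
    intro f
    change Q _ _ ∈ S ↔ _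
    rw [Set.mem_ofPred_eq, ← Q_mul _ _ _ (by
      intro j
      rw [Nat.cast_add, ZMod.natCast_self, add_zero]), ← pow_succ]
    simp only [map_natCast]
  rw [hsum, hc, h1, Nat.cast_add, Nat.cast_mul, ZMod.natCast_self, zero_mul, add_zero]
  congr 1
  exact Nat.card_congr (Equiv.subtypeEquivRight h2)

end H58.SP
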