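import Pool.Agent.H58.SP.Steps

/-!
# The group algebra as a matrix algebra over the group algebra of a subgroup
-/

set_option autoImplicit false

namespace H58.SP

open MonoidAlgebra

section
variable {G : Type*} [Group G] (N : Subgroup G)

/-- coset representatives -/
noncomputable def rp (i : G ⧸ N) : G := Quotient.out i

theorem rp_mk (i : G ⧸ N) : (QuotientGroup.mk (rp N i) : G ⧸ N) = i := Quotient.out_eq' i

theorem rp_mem {x : G} {i j : G ⧸ N} (h : x • j = i) : (rp N i)⁻¹ * x * rp N j ∈ N := by
  rw [mul_assoc, ← QuotientGroup.eq, rp_mk, ← h]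
  conv_lhs => rw [← rp_mk N j]
  rfl

variable [Fintype (G ⧸ N)] [DecidableEq (G ⧸ N)] (R : Type*) [CommRing R]

/-- the matrix of left multiplication by `x` -/
noncomputable def rho (x : G) : Matrix (G ⧸ N) (G ⧸ N) (MonoidAlgebra R N) := fun i j =>
  if h : x • j = i then single ⟨(rp N i)⁻¹ * x * rp N j, rp_mem N h⟩ 1 else 0

theorem rho_pos {x : G} {i j : G ⧸ N} (h : x • j = i) :
    rho N R x i j = single ⟨(rp N i)⁻¹ * x * rp N j, rp_mem N h⟩ 1 := dif_pos h

theorem rho_neg {x : G} {i j : G ⧸ N} (h : ¬ x • j = i) : rho N R x i j = 0 := dif_neg h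

theorem rho_one : rho N R 1 = 1 := by
  ext1 i j
  by_cases h : i = j
  · subst h
    rw [Matrix.one_apply_eq, rho_pos N R (one_smul G i), one_def]
    congr 1
    ext
    simp
  · rw [Matrix.one_apply_ne h, rho_neg]
    rw [one_smul]
    exact fun h' => h h'.symm

theorem rho_mul (x y : G) : rho N R (x * y) = rho N R x * rho N R y := by
  ext1 i k
  rw [Matrix.mul_apply, Finset.sum_eq_single (y • k)]
  · by_cases h : x • y • k = i
    · rw [rho_pos N R h, rho_pos N R rfl, single_mul_single, one_mul,
        rho_pos N R (show (x * y) • k = i by rw [mul_smul]; exact h)]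
      congr 1
      ext
      simp only [Subgroup.coe_mul]
      group
    · rw [rho_neg N R h, zero_mul, rho_neg]
      rwa [mul_smul]
  · intro j _ hj
    rw [rho_neg N R (i := j) (fun h => hj h.symm), mul_zero]
  · intro h
    exact absurd (Finset.mem_univ _) h

/-- the group algebra as a matrix algebra -/
noncomputable def Phi : MonoidAlgebra R G →ₐ[R] Matrix (G ⧸ N) (G ⧸ N) (MonoidAlgebra R N) :=
  MonoidAlgebra.lift R _ G
    { toFun := rho N R
      map_one' := rho_one N R
      map_mul' := rho_mul N R }

theorem Phi_single (x : G) (c : R) : Phi N R (single x c) = c • rho N R x := by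
  rw [Phi, lift_single]
  rfl

/-- the embedding of the group algebra of the subgroup -/
noncomputable def emb : MonoidAlgebra R N →ₐ[R] MonoidAlgebra R G :=
  mapDomainAlgHom R R N.subtype

theorem emb_single (n : N) (c : R) : emb N R (single n c) = single (n : G) c := by
  unfold emb
  rw [mapDomainAlgHom_apply, mapDomain_single]
  rfl

/-- the group algebra as a free module over the group algebra of the subgroup -/
noncomputable def Psi : (G ⧸ N → MonoidAlgebra R N) →ₗ[R] MonoidAlgebra R G :=
  ∑ i, (LinearMap.mulLeft R (single (rp N i) (1 : R))).comp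
    ((emb N R).toLinearMap.comp (LinearMap.proj i))

theorem Psi_apply (y : G ⧸ N → MonoidAlgebra R N) :
    Psi N R y = ∑ i, single (rp N i) 1 * emb N R (y i) := by
  unfold Psi
  rw [LinearMap.sum_apply]
  rfl

theorem rho_key (x : G) (i j : G ⧸ N) (h : x • j = i) :
    single (rp N i) 1 * emb N R (rho N R x i j) = single x 1 * single (rp N j) 1 := by
  rw [rho_pos N R h, emb_single, single_mul_single, single_mul_single, one_mul]
  congr 1
  simp only
  group

theorem mul_Psi (a : MonoidAlgebra R G) (y : G ⧸ N → MonoidAlgebra R N) :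
    a * Psi N R y = Psi N R ((Phi N R a).mulVec y) := by
  induction a using MonoidAlgebra.induction_linear with
  | zero => rw [zero_mul, map_zero, Matrix.zero_mulVec, map_zero]
  | add u v hu hv => rw [add_mul, hu, hv, map_add, Matrix.add_mulVec, map_add]
  | single x c =>
    have h1 : (single x c : MonoidAlgebra R G) = c • single x 1 := by
      rw [smul_single, smul_eq_mul, mul_one]
    rw [Phi_single, Matrix.smul_mulVec, map_smul, h1, smul_mul_assoc]
    congr 1
    rw [Psi_apply, Psi_apply]
    have h2 : ∀ i, (rho N R x).mulVec y i = rho N R x i (x⁻¹ • i) * y (x⁻¹ • i) := by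
      intro i
      change ∑ j, rho N R x i j * y j = _
      rw [Finset.sum_eq_single (x⁻¹ • i)]
      · intro j _ hj
        rw [rho_neg N R, zero_mul]
        intro h
        exact hj (by rw [← h, inv_smul_smul])
      · intro h
        exact absurd (Finset.mem_univ _) h
    rw [Finset.mul_sum]
    have h3 : ∑ j, single x 1 * (single (rp N j) 1 * emb N R (y j)) =
        ∑ i, single x 1 * (single (rp N (x⁻¹ • i)) 1 * emb N R (y (x⁻¹ • i))) := by
      refine (Fintype.sum_equiv (MulAction.toPerm x⁻¹) _ _ fun i => ?_).symm
      rfl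
    rw [h3]
    refine Finset.sum_congr rfl fun i _ => ?_
    rw [h2, map_mul, ← mul_assoc, ← mul_assoc, rho_key N R x i (x⁻¹ • i) (smul_inv_smul x i)]

theorem Psi_surj : Function.Surjective (Psi N R) := by
  intro a
  induction a using MonoidAlgebra.induction_linear with
  | zero => exact ⟨0, map_zero _⟩
  | add u v hu hv =>
    obtain ⟨y, rfl⟩ := hu
    obtain ⟨z, rfl⟩ := hv
    exact ⟨y + z, map_add _ _ _⟩
  | single x c =>
    have hx : (rp N (QuotientGroup.mk x))⁻¹ * x ∈ N := by
      rw [← QuotientGroup.eq, rp_mk]
    refine ⟨Pi.single (QuotientGroup.mk x) (single ⟨_, hx⟩ c), ?_⟩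
    rw [Psi_apply, Finset.sum_eq_single (QuotientGroup.mk x : G ⧸ N)]
    · rw [Pi.single_eq_same, emb_single, single_mul_single, one_mul]
      congr 1
      simp
    · intro j _ hj
      rw [Pi.single_eq_of_ne hj, map_zero, mul_zero]
    · intro h
      exact absurd (Finset.mem_univ _) h

theorem Phi_map {S : Type*} [CommRing S] (f : R →+* S) (a : MonoidAlgebra R G) :
    Phi N S (mapRingHom G f a) = (Phi N R a).map (mapRingHom N f) := by
  induction a using MonoidAlgebra.induction_linear with
  | zero =>
    rw [map_zero, map_zero, map_zero]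
    ext1 i j
    rw [Matrix.map_apply, Matrix.zero_apply, Matrix.zero_apply, map_zero]
  | add u v hu hv => rw [map_add, map_add, hu, hv, map_add, Matrix.map_add _ (map_add _)]
  | single x c =>
    have h1 : mapRingHom G f (single x c) = single x (f c) := mapRingHom_single _ _ _
    rw [h1, Phi_single, Phi_single]
    ext1 i j
    rw [Matrix.smul_apply, Matrix.map_apply, Matrix.smul_apply]
    by_cases h : x • j = i
    · rw [rho_pos N _ h, rho_pos N _ h, smul_single, smul_single, mapRingHom_single, smul_eq_mul,
        smul_eq_mul, map_mul, map_one]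
    · rw [rho_neg N _ h, rho_neg N _ h, smul_zero, smul_zero, map_zero]

theorem Phi_trace (a : MonoidAlgebra R G) :
    ∑ i, (Phi N R a i i).coeff 1 = (Fintype.card (G ⧸ N) : R) * a.coeff 1 := by
  induction a using MonoidAlgebra.induction_linear with
  | zero => simp
  | add u v hu hv =>
    rw [map_add, coeff_add, Finsupp.add_apply, mul_add, ← hu, ← hv, ← Finset.sum_add_distrib]
    refine Finset.sum_congr rfl fun i _ => ?_
    rw [Matrix.add_apply, coeff_add, Finsupp.add_apply]
  | single x c =>
    rw [Phi_single]
    by_cases hx : x = 1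
    · subst hx
      rw [rho_one, coeff_single, Finsupp.single_eq_same, ← nsmul_eq_mul, ← Finset.card_univ,
        ← Finset.sum_const]
      refine Finset.sum_congr rfl fun i _ => ?_
      rw [Matrix.smul_apply, Matrix.one_apply_eq, one_def, smul_single, coeff_single,
        Finsupp.single_eq_same, smul_eq_mul, mul_one]
    · rw [coeff_single, Finsupp.single_eq_of_ne (Ne.symm hx), mul_zero]
      refine Finset.sum_eq_zero fun i _ => ?_
      rw [Matrix.smul_apply]
      by_cases h : x • i = i
      · rw [rho_pos N _ h, smul_single, coeff_single, Finsupp.single_eq_of_ne]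
        intro h2
        apply hx
        have h3 : (rp N i)⁻¹ * x * rp N i = 1 := (congrArg Subtype.val h2).symm
        have h4 : x = rp N i * ((rp N i)⁻¹ * x * rp N i) * (rp N i)⁻¹ := by group
        rw [h4, h3, mul_one, mul_inv_cancel]
      · rw [rho_neg N _ h, smul_zero]
        rfl

theorem sg_Phi [N.Normal] (a : MonoidAlgebra ℤ G) (i j : G ⧸ N) :
    sg (Set.univ : Set N) (Phi N ℤ a i j) = (red N a).coeff (i * j⁻¹) := by
  induction a using MonoidAlgebra.induction_linear with
  | zero => simp
  | add u v hu hv =>
    rw [map_add, Matrix.add_apply, map_add, hu, hv, map_add, coeff_add, Finsupp.add_apply]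
  | single x c =>
    have h1 : red N (single x c) = single (QuotientGroup.mk x : G ⧸ N) c := by
      unfold red
      rw [mapDomainRingHom_apply, mapDomain_single]
      rfl
    rw [Phi_single, Matrix.smul_apply, h1, coeff_single]
    have h2 : x • j = (QuotientGroup.mk x : G ⧸ N) * j := by
      obtain ⟨y, rfl⟩ := QuotientGroup.mk_surjective j
      rfl
    by_cases h : x • j = i
    · rw [rho_pos N _ h, smul_single, sg_univ_single, ← h, h2, mul_inv_cancel_right,
        Finsupp.single_eq_same, smul_eq_mul, mul_one]
    · rw [rho_neg N _ h, smul_zero, map_zero, Finsupp.single_eq_of_ne]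
      intro h3
      apply h
      rw [h2, ← h3, inv_mul_cancel_right]

end

end H58.SP
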