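import Pool.Agent.H58.SP.Defs

/-!
# The regular representation by matrices; traces of idempotents; the theorem of Berman and Higman
-/

set_option autoImplicit false

namespace H58.SP

open MonoidAlgebra

section Reg

variable {R : Type*} [CommRing R] {G : Type*} [Group G] [Fintype G] [DecidableEq G]

/-- left multiplication by `a` -/
noncomputable def Lm : MonoidAlgebra R G →+* Matrix G G R where
  toFun a := Matrix.of fun x y => a.coeff (x * y⁻¹)
  map_zero' := by
    ext x y
    simp
  map_add' a b := by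
    ext x y
    simp
  map_one' := by
    ext x y
    rw [Matrix.of_apply, MonoidAlgebra.one_def, coeff_single, Matrix.one_apply,
      Finsupp.single_apply]
    by_cases h : x = y
    · rw [if_pos h, if_pos (by rw [h, mul_inv_cancel])]
    · rw [if_neg h, if_neg (fun h' => h (mul_inv_eq_one.1 h'.symm))]
  map_mul' a b := by
    ext x y
    rw [Matrix.mul_apply]
    simp only [Matrix.of_apply]
    induction a using MonoidAlgebra.induction_linear with
    | zero => simp
    | add a a' ha ha' =>
      rw [add_mul, coeff_add, Finsupp.add_apply, ha, ha', ← Finset.sum_add_distrib]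
      refine Finset.sum_congr rfl fun z _ => ?_
      rw [coeff_add, Finsupp.add_apply, add_mul]
    | single m r =>
      induction b using MonoidAlgebra.induction_linear with
      | zero => simp
      | add b b' hb hb' =>
        rw [mul_add, coeff_add, Finsupp.add_apply, hb, hb', ← Finset.sum_add_distrib]
        refine Finset.sum_congr rfl fun z _ => ?_
        rw [coeff_add, Finsupp.add_apply, mul_add]
      | single n s =>
        rw [single_mul_single, coeff_single, Finsupp.single_apply,
          Finset.sum_eq_single (m⁻¹ * x)]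
        · have em : m = x * (m⁻¹ * x)⁻¹ := by
            rw [mul_inv_rev, inv_inv, mul_inv_cancel_left]
          rw [coeff_single, coeff_single, Finsupp.single_apply, Finsupp.single_apply,
            if_pos em]
          by_cases h : m * n = x * y⁻¹
          · rw [if_pos h, if_pos (by rw [mul_assoc, ← h, inv_mul_cancel_left])]
          · rw [if_neg h, if_neg (fun h' => h (by
              rw [h', ← mul_assoc, mul_inv_cancel_left])), mul_zero]
        · intro z _ hz
          rw [coeff_single, Finsupp.single_apply, if_neg (fun h => hz (by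
            rw [h]; group)), zero_mul]
        · intro h
          exact absurd (Finset.mem_univ _) h

theorem Lm_apply (a : MonoidAlgebra R G) (x y : G) : Lm a x y = a.coeff (x * y⁻¹) := rfl

theorem Lm_smul (c : R) (a : MonoidAlgebra R G) : Lm (c • a) = c • Lm a := by
  ext x y
  rw [Lm_apply, Matrix.smul_apply, Lm_apply, coeff_smul, Finsupp.smul_apply]

theorem trace_Lm (a : MonoidAlgebra R G) : (Lm a).trace = (Fintype.card G : R) * a.coeff 1 := by
  rw [Matrix.trace]
  simp only [Matrix.diag_apply, Lm_apply, mul_inv_cancel]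
  rw [Finset.sum_const, Finset.card_univ, nsmul_eq_mul]

theorem Lm_injective : Function.Injective (Lm (R := R) (G := G)) := by
  intro a b h
  ext x
  have := congrFun (congrFun h x) 1
  rwa [Lm_apply, Lm_apply, inv_one, mul_one] at this

end Reg

section Idem

variable {K : Type*} [Field K] {ι : Type*} [Fintype ι] [DecidableEq ι]

theorem trace_idem (P : Matrix ι ι K) (h : P * P = P) : P.trace = (P.rank : K) := by
  have h1 : IsIdempotentElem (Matrix.toLin' P) := by
    change Matrix.toLin' P ∘ₗ Matrix.toLin' P = _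
    rw [← Matrix.toLin'_mul, h]
  rw [← Matrix.trace_toLin'_eq, (LinearMap.IsIdempotentElem.isProj_range _ h1).trace]
  rfl

theorem trace_scaled (P : Matrix ι ι K) (d : K) (hd : d ≠ 0) (h : P * P = d • P) :
    P.trace = d * (P.rank : K) := by
  have h1 : (d⁻¹ • P) * (d⁻¹ • P) = d⁻¹ • P := by
    rw [Matrix.smul_mul, Matrix.mul_smul, h, smul_smul d⁻¹ d, inv_mul_cancel₀ hd, one_smul]
  have h2 := trace_idem _ h1
  rw [Matrix.trace_smul, smul_eq_mul, Matrix.rank_smul_of_mem_nonZeroDivisors _
    (mem_nonZeroDivisors_of_ne_zero (inv_ne_zero hd))] at h2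
  rw [← h2, mul_inv_cancel_left₀ hd]

theorem rank_eq_zero {P : Matrix ι ι K} (h : P.rank = 0) : P = 0 := by
  have h1 : LinearMap.range P.mulVecLin = ⊥ := Submodule.finrank_eq_zero.1 h
  rw [LinearMap.range_eq_bot] at h1
  have h2 : Matrix.toLin' P = 0 := h1
  exact (LinearEquiv.map_eq_zero_iff _).1 h2

end Idem

/-- the theorem of Berman and Higman -/
theorem coeff_one {G : Type*} [Group G] [Fintype G] (v : MonoidAlgebra ℤ G) (n : ℕ) (hn : 0 < n)
    (hv : v ^ n = 1) (haug : sg (Set.univ : Set G) v = 1) (h1 : v ≠ 1) : v.coeff 1 = 0 := by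
  classical
  by_contra h0
  -- complexify
  let f : MonoidAlgebra ℤ G →+* MonoidAlgebra ℂ G := MonoidAlgebra.mapRingHom G (Int.castRingHom ℂ)
  have hfc : ∀ a x, (f a).coeff x = ((a.coeff x : ℤ) : ℂ) := by
    intro a x
    rfl
  set w := f v with hw
  have hwn : w ^ n = 1 := by rw [hw, ← map_pow, hv, map_one]
  have hnC : (n : ℂ) ≠ 0 := by exact_mod_cast hn.ne'
  set ω : ℂ := Complex.exp (2 * Real.pi * Complex.I / n) with hω
  have hprim : IsPrimitiveRoot ω n := Complex.isPrimitiveRoot_exp n hn.ne'
  have hω0 : ω ≠ 0 := hprim.ne_zero hn.ne'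
  -- the idempotents
  let P : ℕ → MonoidAlgebra ℂ G := fun j =>
    (n : ℂ)⁻¹ • ∑ k ∈ Finset.range n, (ω⁻¹ ^ (j * k)) • w ^ k
  have hwP : ∀ j, w * P j = ω ^ j • P j := by
    intro j
    have e1 : w * ∑ k ∈ Finset.range n, (ω⁻¹ ^ (j * k)) • w ^ k =
        ω ^ j • ∑ k ∈ Finset.range n, (ω⁻¹ ^ (j * k)) • w ^ k := by
      rw [Finset.mul_sum, Finset.smul_sum]
      have e2 : ∀ k, w * ((ω⁻¹ ^ (j * k)) • w ^ k) =
          ω ^ j • ((ω⁻¹ ^ (j * (k + 1))) • w ^ (k + 1)) := by
        intro k
        rw [mul_smul_comm, ← pow_succ', smul_smul]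
        congr 1
        rw [mul_add, mul_one, pow_add, mul_comm (ω⁻¹ ^ (j * k)), ← mul_assoc, ← mul_pow,
          mul_inv_cancel₀ hω0, one_pow, one_mul]
      simp only [e2]
      rw [← sub_eq_zero, ← Finset.sum_sub_distrib]
      simp only [← smul_sub]
      rw [← Finset.smul_sum, Finset.sum_range_sub (fun k => (ω⁻¹ ^ (j * k)) • w ^ k)]
      rw [hwn, mul_zero, pow_zero, pow_zero, mul_comm j n, pow_mul, inv_pow, hprim.pow_eq_one,
        inv_one, one_pow, sub_self, smul_zero]
    change w * ((n : ℂ)⁻¹ • _) = ω ^ j • ((n : ℂ)⁻¹ • _)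
    rw [mul_smul_comm, e1, smul_comm]
  have hwkP : ∀ j k, w ^ k * P j = ω ^ (j * k) • P j := by
    intro j k
    induction k with
    | zero => rw [pow_zero, one_mul, mul_zero, pow_zero, one_smul]
    | succ k ih =>
      rw [pow_succ, mul_assoc, hwP, mul_smul_comm, ih, smul_smul, mul_add, mul_one, pow_add,
        mul_comm]
  have hPP : ∀ j, P j * P j = P j := by
    intro j
    have : P j * P j = (n : ℂ)⁻¹ • ∑ k ∈ Finset.range n, P j := by
      conv_lhs =>
        arg 1
        change (n : ℂ)⁻¹ • ∑ k ∈ Finset.range n, (ω⁻¹ ^ (j * k)) • w ^ k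
      rw [smul_mul_assoc, Finset.sum_mul]
      congr 1
      refine Finset.sum_congr rfl fun k _ => ?_
      rw [smul_mul_assoc, hwkP, smul_smul, ← mul_pow, inv_mul_cancel₀ hω0, one_pow, one_smul]
    rw [this, Finset.sum_const, Finset.card_range, ← Nat.cast_smul_eq_nsmul ℂ, smul_smul,
      inv_mul_cancel₀ hnC, one_smul]
  -- the sum
  have hsum : ∑ j ∈ Finset.range n, P j = 1 := by
    change ∑ j ∈ Finset.range n, (n : ℂ)⁻¹ • ∑ k ∈ Finset.range n, (ω⁻¹ ^ (j * k)) • w ^ k = 1
    rw [← Finset.smul_sum, Finset.sum_comm]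
    have e3 : ∀ k ∈ Finset.range n, ∑ j ∈ Finset.range n, (ω⁻¹ ^ (j * k)) • w ^ k =
        if k = 0 then (n : ℂ) • (1 : MonoidAlgebra ℂ G) else 0 := by
      intro k hk
      rw [← Finset.sum_smul]
      by_cases hk0 : k = 0
      · subst hk0
        rw [if_pos rfl, pow_zero]
        simp
      · rw [if_neg hk0]
        have e4 : ∑ j ∈ Finset.range n, ω⁻¹ ^ (j * k) = 0 := by
          have hne : ω⁻¹ ^ k ≠ 1 := by
            rw [inv_pow, inv_ne_one]
            exact hprim.pow_ne_one_of_pos_of_lt hk0 (Finset.mem_range.1 hk)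
          have e5 : ∀ j, ω⁻¹ ^ (j * k) = (ω⁻¹ ^ k) ^ j := by
            intro j
            rw [← pow_mul, mul_comm]
          simp only [e5]
          rw [geom_sum_eq hne, ← pow_mul, mul_comm k n, pow_mul, inv_pow, hprim.pow_eq_one,
            inv_one, one_pow, sub_self, zero_div]
        rw [e4, zero_smul]
    rw [Finset.sum_congr rfl e3, Finset.sum_ite_eq', if_pos (Finset.mem_range.2 hn), smul_smul,
      inv_mul_cancel₀ hnC, one_smul]
  have hwsum : w = ∑ j ∈ Finset.range n, ω ^ j • P j := by
    conv_lhs => rw [← mul_one w, ← hsum, Finset.mul_sum]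
    exact Finset.sum_congr rfl fun j _ => hwP j
  -- ranks
  let r : ℕ → ℕ := fun j => (Lm (P j)).rank
  have htr : ∀ j, (Lm (P j)).trace = (r j : ℂ) := fun j =>
    trace_idem _ (by rw [← map_mul, hPP])
  have hr1 : ∑ j ∈ Finset.range n, (r j : ℂ) = Fintype.card G := by
    have := congrArg (fun a => (Lm a).trace) hsum
    simp only [map_sum, Matrix.trace_sum, map_one, Matrix.trace_one, htr] at this
    exact this
  have hr2 : (Fintype.card G : ℂ) * ((v.coeff 1 : ℤ) : ℂ) =
      ∑ j ∈ Finset.range n, ω ^ j * (r j : ℂ) := by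
    have h2 := trace_Lm w
    rw [hfc] at h2
    rw [← h2]
    conv_lhs => rw [hwsum]
    rw [map_sum, Matrix.trace_sum]
    refine Finset.sum_congr rfl fun j _ => ?_
    rw [Lm_smul, Matrix.trace_smul, htr, smul_eq_mul]
  -- the sign
  obtain ⟨s, hs, hsv⟩ : ∃ s : ℤ, (s = 1 ∨ s = -1) ∧ 1 ≤ s * v.coeff 1 := by
    rcases lt_or_gt_of_ne h0 with h | h
    · exact ⟨-1, Or.inr rfl, by linarith⟩
    · exact ⟨1, Or.inl rfl, by linarith⟩
  have hs2 : (s : ℝ) * s = 1 := by
    rcases hs with rfl | rfl <;> norm_num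
  have habs : ∀ j, ‖ω ^ j‖ = 1 := by
    intro j
    rw [norm_pow, Complex.norm_eq_one_of_pow_eq_one hprim.pow_eq_one hn.ne', one_pow]
  have hle : ∀ j, (s : ℝ) * (ω ^ j).re ≤ 1 := by
    intro j
    have h3 := Complex.abs_re_le_norm (ω ^ j)
    rw [habs] at h3
    have h4 := abs_le.1 h3
    rcases hs with rfl | rfl
    · push_cast; linarith [h4.2]
    · push_cast; linarith [h4.1]
  have hreal1 : ∑ j ∈ Finset.range n, (r j : ℝ) = Fintype.card G := by
    exact_mod_cast hr1
  have hreal2 : (Fintype.card G : ℝ) * ((v.coeff 1 : ℤ) : ℝ) =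
      ∑ j ∈ Finset.range n, (ω ^ j).re * (r j : ℝ) := by
    have h5 := congrArg Complex.re hr2
    rw [Complex.re_sum] at h5
    simp only [Complex.mul_re, Complex.natCast_re, Complex.natCast_im, mul_zero, sub_zero,
      Complex.intCast_re, Complex.intCast_im] at h5
    exact h5
  have hnn : ∀ j ∈ Finset.range n, 0 ≤ (r j : ℝ) * (1 - s * (ω ^ j).re) := by
    intro j _
    exact mul_nonneg (Nat.cast_nonneg _) (by linarith [hle j])
  have hz : ∑ j ∈ Finset.range n, (r j : ℝ) * (1 - s * (ω ^ j).re) = 0 := by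
    refine le_antisymm ?_ (Finset.sum_nonneg hnn)
    have e6 : ∑ j ∈ Finset.range n, (r j : ℝ) * (1 - s * (ω ^ j).re) =
        (Fintype.card G : ℝ) - s * ((Fintype.card G : ℝ) * ((v.coeff 1 : ℤ) : ℝ)) := by
      rw [hreal2, ← hreal1, Finset.mul_sum, ← Finset.sum_sub_distrib]
      refine Finset.sum_congr rfl fun j _ => ?_
      ring
    rw [e6]
    have h6 : (1 : ℝ) ≤ s * ((v.coeff 1 : ℤ) : ℝ) := by exact_mod_cast hsv
    have h7 : (0 : ℝ) < Fintype.card G := by exact_mod_cast Fintype.card_pos
    nlinarith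
  have hzero := (Finset.sum_eq_zero_iff_of_nonneg hnn).1 hz
  -- conclusion
  have hP : ∀ j ∈ Finset.range n, ω ^ j • P j = ((s : ℤ) : ℂ) • P j := by
    intro j hj
    rcases mul_eq_zero.1 (hzero j hj) with h | h
    · have h8 : (Lm (P j)).rank = 0 := by exact_mod_cast h
      have h9 : P j = 0 := Lm_injective (by rw [rank_eq_zero h8, map_zero])
      rw [h9, smul_zero, smul_zero]
    · have h10 : (s : ℝ) * (ω ^ j).re = 1 := by linarith
      have h11 : (ω ^ j).re = s := by
        calc (ω ^ j).re = (s * s) * (ω ^ j).re := by rw [hs2, one_mul]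
          _ = s * (s * (ω ^ j).re) := by ring
          _ = s := by rw [h10, mul_one]
      have h12 : (ω ^ j).im = 0 := by
        have h13 := Complex.sq_norm (ω ^ j)
        rw [habs, Complex.normSq_apply, h11, hs2] at h13
        have : (ω ^ j).im * (ω ^ j).im = 0 := by linarith
        exact mul_self_eq_zero.1 this
      have h14 : ω ^ j = ((s : ℤ) : ℂ) := by
        apply Complex.ext
        · rw [h11, Complex.intCast_re]
        · rw [h12, Complex.intCast_im]
      rw [h14]
  have hws : w = ((s : ℤ) : ℂ) • 1 := by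
    rw [hwsum, Finset.sum_congr rfl hP, ← Finset.smul_sum, hsum]
  have hv1 : v = s • 1 := by
    ext x
    have h15 := hfc v x
    rw [← hw, hws] at h15
    have h16 : ((((s : ℤ) : ℂ) • (1 : MonoidAlgebra ℂ G)).coeff x) =
        (((s • (1 : MonoidAlgebra ℤ G)).coeff x : ℤ) : ℂ) := by
      rw [coeff_smul, coeff_smul, Finsupp.smul_apply, Finsupp.smul_apply, MonoidAlgebra.one_def,
        MonoidAlgebra.one_def, coeff_single, coeff_single, Finsupp.single_apply,
        Finsupp.single_apply]
      split_ifs <;> simp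
    rw [h16] at h15
    exact (Int.cast_injective h15).symm
  rw [hv1, sg_smul, MonoidAlgebra.one_def, sg_univ_single, mul_one] at haug
  rw [haug, one_smul] at hv1
  exact h1 hv1

end H58.SP
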