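import Mathlib

/-!
# The rank does not increase under reduction
-/

set_option autoImplicit false

namespace H58.SP

open Matrix

/-- the rank of a reduction is at most the rank in characteristic zero -/
theorem rank_red_le {R F K : Type*} [CommRing R] [Field F] [Field K] (f : R →+* F)
    (hf : Function.Surjective f) (g : R →+* K) (hg : Function.Injective g) {ι : Type*} [Fintype ι]
    [DecidableEq ι] (A : Matrix ι ι R) : (A.map f).rank ≤ (A.map g).rank := by
  classical
  obtain ⟨V, U, e, -, -, h⟩ := Matrix.exists_rank_normal_form (A.map f)
  set φ : Fin (A.map f).rank → ι := fun i => e.symm (Sum.inl i) with hφ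
  -- lifts
  choose l hl using hf
  set V' : Matrix (Fin (A.map f).rank) ι R := Matrix.of fun i j => l (V (φ i) j) with hV'
  set U' : Matrix ι (Fin (A.map f).rank) R := Matrix.of fun i j => l (U i (φ j)) with hU'
  have h1 : (V' * A * U').map f = 1 := by
    rw [Matrix.map_mul, Matrix.map_mul]
    have e1 : V'.map f = V.submatrix φ id := by
      ext i j
      rw [Matrix.map_apply, hV', Matrix.of_apply, hl]
      rfl
    have e2 : U'.map f = U.submatrix id φ := by
      ext i j
      rw [Matrix.map_apply, hU', Matrix.of_apply, hl]
      rfl
    rw [e1, e2]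
    have e3 : V.submatrix φ id * A.map f * U.submatrix id φ = (V * A.map f * U).submatrix φ φ := by
      ext i j
      simp only [Matrix.mul_apply, Matrix.submatrix_apply, id_eq]
    rw [e3, h]
    ext i j
    rw [Matrix.submatrix_apply, Matrix.submatrix_apply, hφ]
    simp only [Equiv.apply_symm_apply, Matrix.fromBlocks_apply₁₁]
  have h2 : f (V' * A * U').det = 1 := by
    rw [RingHom.map_det, RingHom.mapMatrix_apply, h1, Matrix.det_one]
  have h3 : (V' * A * U').det ≠ 0 := by
    intro h0
    rw [h0, map_zero] at h2
    exact zero_ne_one h2
  have h4 : ((V' * A * U').map g).det ≠ 0 := by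
    have : ((V' * A * U').map g).det = g (V' * A * U').det := by
      rw [RingHom.map_det, RingHom.mapMatrix_apply]
    rw [this]
    intro h0
    exact h3 (hg (by rw [h0, map_zero]))
  have h5 : ((V' * A * U').map g).rank = (A.map f).rank := by
    rw [Matrix.rank_of_det_ne_zero h4, Fintype.card_fin]
  rw [← h5, Matrix.map_mul, Matrix.map_mul]
  exact (Matrix.rank_mul_le_left _ _).trans (Matrix.rank_mul_le_right _ _)

end H58.SP
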