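import Pool.Agent.H58.SP.Reg
import Pool.Agent.H58.SP.RankRed
import Pool.Agent.H58.SP.Cyc

/-!
# Traces over a free action of a group of order `p`
-/

set_option autoImplicit false

namespace H58.SP

open Module

section Lin

variable {K V : Type*} [Field K] [AddCommGroup V] [Module K V] [FiniteDimensional K V]

theorem finrank_map (T : V →ₗ[K] V) (W : Submodule K V) :
    finrank K (W.map T) + finrank K (W ⊓ LinearMap.ker T : Submodule K V) = finrank K W := by
  have h1 := LinearMap.finrank_range_add_finrank_ker (T.domRestrict W)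
  rw [LinearMap.range_domRestrict, LinearMap.ker_domRestrict] at h1
  have h2 : finrank K (Submodule.comap W.subtype (LinearMap.ker T)) =
      finrank K (W ⊓ LinearMap.ker T : Submodule K V) := by
    rw [← Submodule.map_comap_subtype]
    exact (LinearEquiv.finrank_eq (Submodule.equivMapOfInjective _ W.injective_subtype _))
  rw [h2] at h1
  exact h1

theorem finrank_le_iter (T : V →ₗ[K] V) (W : Submodule K V) (hW : W.map T ≤ W) (j : ℕ) :
    finrank K W ≤ finrank K (W.map (T ^ j)) + j * finrank K (W ⊓ LinearMap.ker T : Submodule K V) ∧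
      W.map (T ^ j) ≤ W := by
  induction j with
  | zero =>
    rw [pow_zero, zero_mul, add_zero]
    have h1 : W.map (1 : V →ₗ[K] V) = W := Submodule.map_id W
    rw [h1]
    exact ⟨le_rfl, le_rfl⟩
  | succ j ih =>
    have h1 : W.map (T ^ (j + 1)) = (W.map (T ^ j)).map T := by
      rw [← Submodule.map_comp, pow_succ']
      rfl
    have h2 := finrank_map T (W.map (T ^ j))
    rw [← h1] at h2
    have h3 : finrank K (W.map (T ^ j) ⊓ LinearMap.ker T : Submodule K V) ≤
        finrank K (W ⊓ LinearMap.ker T : Submodule K V) :=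
      Submodule.finrank_mono (inf_le_inf_right _ ih.2)
    refine ⟨?_, ?_⟩
    · have h4 := ih.1
      rw [add_mul, one_mul]
      omega
    · rw [h1]
      exact (Submodule.map_mono ih.2).trans hW

theorem rank_ineq {p : ℕ} (hp : 0 < p) (T f : Module.End K V) (hT : T ^ p = 0)
    (hker : p * finrank K (LinearMap.ker T) ≤ finrank K V) {d : K} (hd : d ≠ 0)
    (hf : f * f = d • f) (hc : T * f = f * T) :
    finrank K (LinearMap.range f) ≤ p * finrank K (LinearMap.range (T ^ (p - 1) * f)) := by
  set f' : Module.End K V := d • 1 - f with hf'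
  set W := LinearMap.range f with hW
  set W' := LinearMap.range f' with hW'
  have hff : f * f' = 0 := by
    rw [hf', mul_sub, hf, mul_smul_comm, mul_one, sub_self]
  have hff' : f' * f = 0 := by
    rw [hf', sub_mul, hf, smul_mul_assoc, one_mul, sub_self]
  have hc' : T * f' = f' * T := by
    rw [hf', mul_sub, sub_mul, hc, mul_smul_comm, smul_mul_assoc, mul_one, one_mul]
  have hTW : W.map T ≤ W := by
    rw [hW, ← LinearMap.range_comp]
    change LinearMap.range (T * f) ≤ _
    rw [hc]
    exact LinearMap.range_comp_le_range _ _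
  have hTW' : W'.map T ≤ W' := by
    rw [hW', ← LinearMap.range_comp]
    change LinearMap.range (T * f') ≤ _
    rw [hc']
    exact LinearMap.range_comp_le_range _ _
  have hinf : W ⊓ W' = ⊥ := by
    rw [eq_bot_iff]
    rintro x ⟨⟨y, rfl⟩, ⟨z, hz⟩⟩
    have h1 : f (f y) = 0 := by
      rw [← hz]
      exact LinearMap.congr_fun hff z
    have h2 : f (f y) = d • f y := LinearMap.congr_fun hf y
    rw [h2] at h1
    exact (smul_eq_zero.1 h1).resolve_left hd
  have hsup : finrank K V ≤ finrank K W + finrank K W' := by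
    have h1 : W ⊔ W' = ⊤ := by
      rw [eq_top_iff]
      intro x _
      have h2 : x = f (d⁻¹ • x) + f' (d⁻¹ • x) := by
        rw [hf', LinearMap.sub_apply, LinearMap.smul_apply, Module.End.one_apply, smul_smul,
          mul_inv_cancel₀ hd, one_smul]
        abel
      rw [h2]
      exact Submodule.add_mem_sup ⟨_, rfl⟩ ⟨_, rfl⟩
    have h2 := Submodule.finrank_add_le_finrank_add_finrank W W'
    rw [h1, finrank_top] at h2
    exact h2
  have h1 := finrank_le_iter T W hTW p
  have h1' := finrank_le_iter T W' hTW' p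
  rw [hT, Submodule.map_zero, finrank_bot, zero_add] at h1 h1'
  have h2 := finrank_le_iter T W hTW (p - 1)
  have h3 : finrank K (W ⊓ LinearMap.ker T : Submodule K V) +
      finrank K (W' ⊓ LinearMap.ker T : Submodule K V) ≤ finrank K (LinearMap.ker T) := by
    rw [← Submodule.finrank_sup_add_finrank_inf_eq]
    have h4 : (W ⊓ LinearMap.ker T) ⊓ (W' ⊓ LinearMap.ker T) = ⊥ := by
      rw [eq_bot_iff, ← hinf]
      exact inf_le_inf inf_le_left inf_le_left
    rw [h4, finrank_bot, add_zero]
    exact Submodule.finrank_mono (sup_le inf_le_right inf_le_right)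
  have h5 : W.map (T ^ (p - 1)) = LinearMap.range (T ^ (p - 1) * f) := by
    rw [hW, ← LinearMap.range_comp]
    rfl
  rw [← h5]
  have h6 := h2.1
  obtain ⟨k, rfl⟩ : ∃ k, p = k + 1 := ⟨p - 1, by omega⟩
  rw [Nat.add_sub_cancel] at h6 ⊢
  have h7 := h1.1
  have h8 := h1'.1
  have h9 := Nat.mul_le_mul_left (k + 1) h3
  have h10 : (k + 1) * finrank K (W ⊓ LinearMap.ker T : Submodule K V) ≤ finrank K W := by
    rw [mul_add] at h9
    omega
  have h11 := Nat.mul_le_mul_left k h10
  have h12 := Nat.mul_le_mul_left (k + 1) h6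
  nlinarith

end Lin

section Mat

variable {ι : Type*} [Fintype ι] [DecidableEq ι]

theorem geom_idem {A : Type*} [Ring A] {C : A} {p : ℕ} (hC : C ^ p = 1) :
    (∑ i ∈ Finset.range p, C ^ i) * (∑ i ∈ Finset.range p, C ^ i) =
      p • ∑ i ∈ Finset.range p, C ^ i := by
  set S := ∑ i ∈ Finset.range p, C ^ i with hS
  have h1 : C * S = S := by
    have h2 := mul_geom_sum C p
    rw [hC, sub_self, sub_mul, one_mul, sub_eq_zero] at h2
    exact h2
  have h2 : ∀ i, C ^ i * S = S := by
    intro i
    induction i with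
    | zero => rw [pow_zero, one_mul]
    | succ i ih => rw [pow_succ, mul_assoc, h1, ih]
  have h3 : S * S = ∑ i ∈ Finset.range p, C ^ i * S := Finset.sum_mul _ _ _
  rw [h3, Finset.sum_congr rfl (fun i _ => h2 i), Finset.sum_const, Finset.card_range]

/-- the rank of `E` and of `d - E` -/
theorem rank_add_le {K : Type*} [Field K] (E : Matrix ι ι K) (d : K) (hE : E * E = d • E) :
    E.rank + (d • (1 : Matrix ι ι K) - E).rank ≤ Fintype.card ι := by
  have h1 := LinearMap.finrank_range_add_finrank_ker E.mulVecLin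
  rw [finrank_fintype_fun_eq_card] at h1
  have h2 : LinearMap.range (d • (1 : Matrix ι ι K) - E).mulVecLin ≤ LinearMap.ker E.mulVecLin := by
    rintro x ⟨y, rfl⟩
    rw [LinearMap.mem_ker, ← LinearMap.comp_apply, ← Matrix.mulVecLin_mul, mul_sub, hE,
      mul_smul_comm, mul_one, sub_self, Matrix.mulVecLin_zero, LinearMap.zero_apply]
  have h3 := Submodule.finrank_mono h2
  unfold Matrix.rank
  omega

theorem le_rank_add {K : Type*} [Field K] (E : Matrix ι ι K) (d : K) (hd : d ≠ 0) :
    Fintype.card ι ≤ E.rank + (d • (1 : Matrix ι ι K) - E).rank := by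
  have h1 : LinearMap.range E.mulVecLin ⊔ LinearMap.range (d • (1 : Matrix ι ι K) - E).mulVecLin = ⊤ := by
    rw [eq_top_iff]
    intro x _
    have h2 : x = E.mulVecLin (d⁻¹ • x) + (d • (1 : Matrix ι ι K) - E).mulVecLin (d⁻¹ • x) := by
      rw [Matrix.mulVecLin_apply, Matrix.mulVecLin_apply, ← Matrix.add_mulVec, add_sub_cancel,
        Matrix.smul_mulVec, Matrix.one_mulVec, smul_smul, mul_inv_cancel₀ hd, one_smul]
    rw [h2]
    exact Submodule.add_mem_sup ⟨_, rfl⟩ ⟨_, rfl⟩
  have h2 := Submodule.finrank_add_le_finrank_add_finrank (LinearMap.range E.mulVecLin)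
    (LinearMap.range (d • (1 : Matrix ι ι K) - E).mulVecLin)
  rw [h1, finrank_top, finrank_fintype_fun_eq_card] at h2
  exact h2

variable {p : ℕ} [hp : Fact p.Prime]

/-- reduction modulo `p` of a matrix -/
abbrev rm (M : Matrix ι ι ℤ) : Matrix ι ι (ZMod p) := M.map (Int.castRingHom (ZMod p))

/-- an integral matrix over the rational numbers -/
abbrev rq (M : Matrix ι ι ℤ) : Matrix ι ι ℚ := M.map (Int.castRingHom ℚ)

theorem key_ineq (C E : Matrix ι ι ℤ) (hC : C ^ p = 1) (hCE : C * E = E * C) (d : ℤ)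
    (hpd : ¬ (p : ℤ) ∣ d) (hE : E * E = d • E)
    (hker : p * finrank (ZMod p) (LinearMap.ker (rm (p := p) (C - 1)).mulVecLin) ≤ Fintype.card ι) :
    (rq E).rank ≤ p * (rq ((∑ i ∈ Finset.range p, C ^ i) * E)).rank := by
  have hQ : Function.Injective (Int.castRingHom ℚ) := Int.cast_injective
  have hZ : Function.Surjective (Int.castRingHom (ZMod p)) := ZMod.intCast_surjective
  have hmapQ : rq (d • (1 : Matrix ι ι ℤ) - E) = (d : ℚ) • (1 : Matrix ι ι ℚ) - rq E := by
    change (Int.castRingHom ℚ).mapMatrix (d • (1 : Matrix ι ι ℤ) - E) = _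
    rw [map_sub, map_zsmul, map_one]
    congr 1
  have hmapZ : rm (p := p) (d • (1 : Matrix ι ι ℤ) - E) =
      (d : ZMod p) • (1 : Matrix ι ι (ZMod p)) - rm E := by
    change (Int.castRingHom (ZMod p)).mapMatrix (d • (1 : Matrix ι ι ℤ) - E) = _
    rw [map_sub, map_zsmul, map_one]
    congr 1
    rw [Int.cast_smul_eq_zsmul]
  have hEQ : rq E * rq E = (d : ℚ) • rq E := by
    have h1 := congrArg (Int.castRingHom ℚ).mapMatrix hE
    rw [map_mul, map_zsmul] at h1
    rw [Int.cast_smul_eq_zsmul]
    exact h1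
  have hEZ : rm (p := p) E * rm E = (d : ZMod p) • rm E := by
    have h1 := congrArg (Int.castRingHom (ZMod p)).mapMatrix hE
    rw [map_mul, map_zsmul] at h1
    rw [Int.cast_smul_eq_zsmul]
    exact h1
  have hd : (d : ZMod p) ≠ 0 := by
    intro h
    exact hpd ((ZMod.intCast_zmod_eq_zero_iff_dvd d p).1 h)
  have h1 := rank_add_le (rq E) (d : ℚ) hEQ
  have h2 := le_rank_add (rm (p := p) E) (d : ZMod p) hd
  have h3 := rank_red_le (Int.castRingHom (ZMod p)) hZ (Int.castRingHom ℚ) hQ
    (d • (1 : Matrix ι ι ℤ) - E)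
  change (rm (p := p) _).rank ≤ (rq _).rank at h3
  rw [hmapQ, hmapZ] at h3
  have h4 : (rq E).rank ≤ (rm (p := p) E).rank := by omega
  refine h4.trans ?_
  -- over the field with `p` elements
  set T : Matrix ι ι (ZMod p) := rm (C - 1) with hT
  have hTC : rm (p := p) C = 1 + T := by
    rw [hT]
    change (Int.castRingHom (ZMod p)).mapMatrix C = 1 + (Int.castRingHom (ZMod p)).mapMatrix (C - 1)
    rw [map_sub, map_one]
    abel
  have hpz : ∀ (k : ℕ) (M : Matrix ι ι (ZMod p)), (p * k) • M = 0 := by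
    intro k M
    rw [← Nat.cast_smul_eq_nsmul (ZMod p), Nat.cast_mul, CharP.cast_eq_zero, zero_mul, zero_smul]
  have hN : rm (p := p) (∑ i ∈ Finset.range p, C ^ i) = T ^ (p - 1) := by
    have h5 := geom_prime T hp.out
    rw [← hTC] at h5
    simp_rw [hpz] at h5
    rw [Finset.sum_const_zero, zero_add] at h5
    rw [← h5]
    change (Int.castRingHom (ZMod p)).mapMatrix _ = ∑ i ∈ Finset.range p,
      ((Int.castRingHom (ZMod p)).mapMatrix C) ^ i
    rw [map_sum]
    simp_rw [map_pow]
  have hTp : T ^ p = 0 := by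
    have h5 := mul_geom_sum (rm (p := p) C) p
    have h6 : (rm (p := p) C) ^ p = 1 := by
      change ((Int.castRingHom (ZMod p)).mapMatrix C) ^ p = 1
      rw [← map_pow, hC, map_one]
    have h7 : ∑ i ∈ Finset.range p, rm (p := p) C ^ i = T ^ (p - 1) := by
      rw [← hN]
      change ∑ i ∈ Finset.range p, ((Int.castRingHom (ZMod p)).mapMatrix C) ^ i =
        (Int.castRingHom (ZMod p)).mapMatrix _
      rw [map_sum]
      simp_rw [map_pow]
    rw [h6, sub_self, h7, hTC, add_sub_cancel_left, ← pow_succ', Nat.sub_add_cancel hp.out.one_le] at h5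
    exact h5
  have hTE : T * rm E = rm E * T := by
    have h5 : (C - 1) * E = E * (C - 1) := by rw [sub_mul, mul_sub, hCE, one_mul, mul_one]
    have h6 := congrArg (Int.castRingHom (ZMod p)).mapMatrix h5
    rw [map_mul, map_mul] at h6
    exact h6
  have h5 := rank_ineq (p := p) hp.out.pos (Matrix.toLinAlgEquiv' T) (Matrix.toLinAlgEquiv' (rm (p := p) E))
    (by rw [← map_pow, hTp, map_zero]) (by
      rw [finrank_fintype_fun_eq_card]
      exact hker) hd (by rw [← map_mul, hEZ, map_smul]) (by rw [← map_mul, hTE, map_mul])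
  rw [← map_pow, ← map_mul, ← hN] at h5
  have h6 := rank_red_le (Int.castRingHom (ZMod p)) hZ (Int.castRingHom ℚ) hQ
    ((∑ i ∈ Finset.range p, C ^ i) * E)
  refine le_trans h5 (Nat.mul_le_mul_left p (le_trans (le_of_eq ?_) h6))
  rw [Matrix.map_mul]
  rfl

/-- the trace of a commuting scaled idempotent is the trace of its product with the norm -/
theorem trace_ge (C E : Matrix ι ι ℤ) (hC : C ^ p = 1) (hCE : C * E = E * C) (d : ℤ) (hd : 0 < d)
    (hpd : ¬ (p : ℤ) ∣ d) (hE : E * E = d • E)
    (hker : p * finrank (ZMod p) (LinearMap.ker (rm (p := p) (C - 1)).mulVecLin) ≤ Fintype.card ι) :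
    E.trace ≤ ((∑ i ∈ Finset.range p, C ^ i) * E).trace := by
  have h1 := key_ineq C E hC hCE d hpd hE hker
  set S := ∑ i ∈ Finset.range p, C ^ i with hS
  have hSE : S * E = E * S := by
    have h2 : Commute C E := hCE
    exact (Commute.sum_left _ _ _ fun i _ => h2.pow_left i)
  have h2 : (S * E) * (S * E) = ((p : ℤ) * d) • (S * E) := by
    have h3 : (S * E) * (S * E) = (S * S) * (E * E) := by
      rw [mul_assoc, ← mul_assoc E S E, ← hSE, mul_assoc S E E, ← mul_assoc]
    rw [h3, geom_idem hC, hE, ← hS, smul_mul_assoc, mul_smul_comm, ← natCast_zsmul, smul_smul]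
  have hq : ∀ (M : Matrix ι ι ℤ) (c : ℤ), c ≠ 0 → M * M = c • M →
      ((M.trace : ℤ) : ℚ) = c * ((rq M).rank : ℚ) := by
    intro M c hc hM
    have h3 : rq M * rq M = (c : ℚ) • rq M := by
      have h4 := congrArg (Int.castRingHom ℚ).mapMatrix hM
      rw [map_mul, map_zsmul] at h4
      rw [Int.cast_smul_eq_zsmul]
      exact h4
    have h4 := trace_scaled (rq M) (c : ℚ) (by exact_mod_cast hc) h3
    rw [← h4]
    simp [Matrix.trace]
  have hp0 : (0 : ℤ) < p := by exact_mod_cast hp.out.pos
  have h3 := hq E d hd.ne' hE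
  have h4 := hq (S * E) (p * d) (mul_pos hp0 hd).ne' h2
  have h5 : ((E.trace : ℤ) : ℚ) ≤ (((S * E).trace : ℤ) : ℚ) := by
    rw [h3, h4]
    have h6 : ((rq E).rank : ℚ) ≤ p * ((rq (S * E)).rank : ℚ) := by exact_mod_cast h1
    have h7 : (0 : ℚ) < d := by exact_mod_cast hd
    push_cast
    calc (d : ℚ) * ((rq E).rank : ℚ) ≤ d * (p * ((rq (S * E)).rank : ℚ)) :=
          mul_le_mul_of_nonneg_left h6 h7.le
      _ = _ := by ring
  exact_mod_cast h5

theorem trace_eq (C E : Matrix ι ι ℤ) (hC : C ^ p = 1) (hCE : C * E = E * C) (d : ℤ) (hd : 0 < d)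
    (hpd : ¬ (p : ℤ) ∣ d) (hE : E * E = d • E)
    (htr : (∑ i ∈ Finset.range p, C ^ i).trace = Fintype.card ι)
    (hker : p * finrank (ZMod p) (LinearMap.ker (rm (p := p) (C - 1)).mulVecLin) ≤ Fintype.card ι) :
    ((∑ i ∈ Finset.range p, C ^ i) * E).trace = E.trace := by
  refine le_antisymm ?_ (trace_ge C E hC hCE d hd hpd hE hker)
  have h1 := trace_ge C (d • 1 - E) hC (by
    rw [mul_sub, sub_mul, hCE, mul_smul_comm, smul_mul_assoc, mul_one, one_mul]) d hd hpd (by
    rw [sub_mul, mul_sub, mul_sub, hE, smul_mul_assoc, smul_mul_assoc, one_mul, one_mul,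
      mul_smul_comm, mul_one, sub_self, sub_zero, smul_sub]) hker
  rw [mul_sub, mul_smul_comm, mul_one, Matrix.trace_sub, Matrix.trace_sub, Matrix.trace_smul,
    Matrix.trace_smul, htr, Matrix.trace_one] at h1
  linarith

end Mat

end H58.SP
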