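import Pool.Agent.H58.SP.Coker
import Pool.Agent.H58.SP.Ind
import Pool.Agent.H58.SP.CommL
import Pool.Agent.H58.SP.Diag
import Pool.Agent.H58.SP.Reg
import Pool.Agent.H58.SP.Char
import Pool.Agent.H58.SP.Tr

/-!
# A torsion unit of order `p` in the kernel of the reduction modulo an elementary abelian normal
subgroup acts freely
-/

set_option autoImplicit false

namespace H58.SP

open MonoidAlgebra Module

/-- a commutative subgroup -/
@[reducible] def cgN {G : Type*} [Group G] (N : Subgroup G) [h : IsMulCommutative N] : CommGroup N :=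
  { (inferInstance : Group N) with mul_comm := fun a b => h.is_comm.comm a b }

attribute [local instance] cgN

section

variable {p : ℕ} [hp : Fact p.Prime] {G : Type*} [Group G] (N : Subgroup G)
  [IsMulCommutative N] [Module (ZMod p) (Additive N)]
  [Fintype (G ⧸ N)] [DecidableEq (G ⧸ N)] {B : Type} [CommRing B] (D : CycD p B)
  (χ : Module.Dual (ZMod p) (Additive N)) (c : MonoidAlgebra ℤ G)

/-- the matrix over the cyclotomic ring -/
noncomputable def Cx : MonoidAlgebra ℤ G →+* Matrix (G ⧸ N) (G ⧸ N) B :=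
  ((ch D χ).toRingHom.mapMatrix).comp (Phi N ℤ).toRingHom

theorem Cx_apply (i j : G ⧸ N) : Cx N D χ c i j = ch D χ (Phi N ℤ c i j) := rfl

/-- the matrix over the field with `p` elements -/
noncomputable def Yx : Matrix (G ⧸ N) (G ⧸ N) (ZMod p) :=
  Matrix.of fun i j => Dd χ (mapRingHom N (Int.castRingHom (ZMod p)) (Phi N ℤ c i j))

theorem Yx_add (ψ : Module.Dual (ZMod p) (Additive N)) (t : ZMod p) :
    Yx N (χ + t • ψ) c = Yx N χ c + t • Yx N ψ c := by
  have h1 : ∀ a : MonoidAlgebra (ZMod p) N, Dd (χ + t • ψ) a = Dd χ a + t * Dd ψ a := by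
    intro a
    induction a using MonoidAlgebra.induction_linear with
    | zero => simp
    | add x y hx hy => rw [map_add, hx, hy, map_add, map_add]; ring
    | single n r =>
      rw [Dd_single, Dd_single, Dd_single, LinearMap.add_apply, LinearMap.smul_apply, smul_eq_mul]
      ring
  ext i j
  exact h1 _

theorem exists_X [N.Normal] (hred : red N c = 1) : ∃ X : Matrix (G ⧸ N) (G ⧸ N) B,
    Cx N D χ c = 1 + D.π • X ∧ X.map D.red = Yx N χ c := by
  choose x hx1 hx2 using fun i j => ch_expand D χ (Phi N ℤ c i j)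
  refine ⟨Matrix.of x, ?_, ?_⟩
  · ext i j
    rw [Cx_apply, hx1, sg_Phi, hred, Matrix.add_apply, Matrix.smul_apply, Matrix.of_apply,
      smul_eq_mul]
    congr 1
    by_cases h : i = j
    · rw [h, mul_inv_cancel, one_def, coeff_single, Finsupp.single_eq_same, Matrix.one_apply_eq,
        Int.cast_one]
    · rw [Matrix.one_apply_ne h, one_def, coeff_single, Finsupp.single_eq_of_ne, Int.cast_zero]
      intro h2
      exact h (eq_of_mul_inv_eq_one h2)
  · ext i j
    rw [Matrix.map_apply, Matrix.of_apply, hx2]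
    rfl

variable [IsDomain B]

include D in
theorem Yx_pow [N.Normal] (hred : red N c = 1) (hc : c ^ p = 1) : Yx N χ c ^ p = Yx N χ c := by
  obtain ⟨X, hX1, hX2⟩ := exists_X N D χ c hred
  rw [← hX2]
  refine D.pow_eq X ?_
  rw [← hX1, ← map_pow, hc, map_one]

include D in
theorem Yx_comm [N.Normal] (hred : red N c = 1) (hc : c ^ p = 1)
    (ψ : Module.Dual (ZMod p) (Additive N)) :
    Yx N χ c * Yx N ψ c = Yx N ψ c * Yx N χ c := by
  refine comm_of_pow (Yx_pow N D χ c hred hc) (Yx_pow N D ψ c hred hc) fun t => ?_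
  rw [← Yx_add]
  exact Yx_pow N D _ c hred hc

theorem ker_Yx_le [N.Normal] (hred : red N c = 1) {K : Type*} [Field K] (g : B →+* K)
    (hg : Function.Injective g) :
    finrank (ZMod p) (LinearMap.ker (Yx N χ c).mulVecLin) ≤
      ((Cx N D χ (∑ i ∈ Finset.range p, c ^ i)).map g).rank := by
  obtain ⟨X, hX1, hX2⟩ := exists_X N D χ c hred
  rw [← hX2, map_sum]
  simp_rw [map_pow, hX1]
  exact D.ker_le X g hg

/-- the traces over all characters -/
theorem sum_trace [Fintype N] [Fintype G] (a : MonoidAlgebra ℤ G) :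
    ∑ χ : Module.Dual (ZMod p) (Additive N), (Cx N D χ a).trace =
      (Fintype.card G : B) * ((a.coeff 1 : ℤ) : B) := by
  have h1 : ∑ χ : Module.Dual (ZMod p) (Additive N), (Cx N D χ a).trace =
      ∑ i, ∑ χ : Module.Dual (ZMod p) (Additive N), ch D χ (Phi N ℤ a i i) := by
    rw [Finset.sum_comm]
    rfl
  rw [h1]
  simp_rw [sum_ch]
  rw [← Finset.mul_sum]
  have h2 := Phi_trace N ℤ a
  have h3 : ∑ i, (((Phi N ℤ a i i).coeff 1 : ℤ) : B) =
      (Fintype.card (G ⧸ N) : B) * ((a.coeff 1 : ℤ) : B) := by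
    have h4 := congrArg (Int.cast : ℤ → B) h2
    push_cast at h4
    exact h4
  rw [h3, ← mul_assoc]
  congr 1
  have h5 := Subgroup.card_eq_card_quotient_mul_card_subgroup N
  rw [Nat.card_eq_fintype_card, Nat.card_eq_fintype_card, Nat.card_eq_fintype_card] at h5
  rw [h5]
  push_cast
  ring

omit [Module (ZMod p) (Additive N)] [IsMulCommutative N] [Fintype (G ⧸ N)] [DecidableEq (G ⧸ N)]
  [IsDomain B] in
theorem coeff_norm [Fintype G] (hord : orderOf c = p) (haug : sg (Set.univ : Set G) c = 1) :
    (∑ i ∈ Finset.range p, c ^ i).coeff 1 = 1 := by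
  have hcp : c ^ p = 1 := by rw [← hord, pow_orderOf_eq_one]
  have h1 : ∀ i ∈ Finset.range p, i ≠ 0 → (c ^ i).coeff 1 = 0 := by
    intro i hi h0
    refine coeff_one (c ^ i) p hp.out.pos (by rw [← pow_mul, mul_comm, pow_mul, hcp, one_pow])
      (aug_pow c haug i) ?_
    intro h2
    have h3 := orderOf_dvd_of_pow_eq_one h2
    rw [hord] at h3
    exact absurd (Nat.le_of_dvd (Nat.pos_of_ne_zero h0) h3) (not_le.2 (Finset.mem_range.1 hi))
  have h2 : (∑ i ∈ Finset.range p, c ^ i).coeff 1 = ∑ i ∈ Finset.range p, (c ^ i).coeff 1 := by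
    rw [coeff_sum, Finsupp.finsetSum_apply]
  rw [h2, Finset.sum_eq_single 0 h1]
  · rw [pow_zero, one_def, coeff_single, Finsupp.single_eq_same]
  · intro h
    exact absurd (Finset.mem_range.2 hp.out.pos) h

include D in
theorem sum_ker_le [N.Normal] [CharZero B] [Fintype N] [Fintype G] (hred : red N c = 1)
    (hord : orderOf c = p) (haug : sg (Set.univ : Set G) c = 1) :
    p * ∑ χ : Module.Dual (ZMod p) (Additive N),
      finrank (ZMod p) (LinearMap.ker (Yx N χ c).mulVecLin) ≤ Fintype.card G := by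
  let K := FractionRing B
  let g : B →+* K := algebraMap B K
  have hg : Function.Injective g := IsFractionRing.injective B K
  have hK : CharZero K := charZero_of_injective_algebraMap (R := B) hg
  have hcp : c ^ p = 1 := by rw [← hord, pow_orderOf_eq_one]
  set S := ∑ i ∈ Finset.range p, c ^ i with hS
  have h1 : ∀ χ : Module.Dual (ZMod p) (Additive N), g (Cx N D χ S).trace =
      (p : K) * ((((Cx N D χ S).map g).rank : ℕ) : K) := by
    intro χ
    have h2 : (Cx N D χ S).map g * (Cx N D χ S).map g = (p : K) • (Cx N D χ S).map g := by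
      rw [← Matrix.map_mul, ← map_mul, geom_idem hcp, ← hS, map_nsmul]
      ext i j
      rw [Matrix.map_apply, Matrix.smul_apply, Matrix.smul_apply, Matrix.map_apply, nsmul_eq_mul,
        map_mul, map_natCast, smul_eq_mul]
    have h3 := trace_scaled _ (p : K) (by exact_mod_cast hp.out.ne_zero) h2
    rw [← h3]
    simp [Matrix.trace]
  have h2 := sum_trace (p := p) N D S
  rw [hS, coeff_norm c hord haug, ← hS, Int.cast_one, mul_one] at h2
  have h3 := congrArg g h2
  rw [map_sum] at h3
  simp_rw [h1] at h3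
  rw [← Finset.mul_sum, map_natCast] at h3
  have h4 : p * ∑ χ : Module.Dual (ZMod p) (Additive N), ((Cx N D χ S).map g).rank =
      Fintype.card G := by
    apply Nat.cast_injective (R := K)
    rw [Nat.cast_mul, Nat.cast_sum]
    exact h3
  rw [← h4]
  exact Nat.mul_le_mul_left p (Finset.sum_le_sum fun χ _ => ker_Yx_le N D χ c hred g hg)

end

end H58.SP
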