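import Pool.Agent.H58.SP.Free

/-!
# The diagonal form of a torsion unit of order `p`
-/

set_option autoImplicit false

namespace H58.SP

open MonoidAlgebra Module

attribute [local instance] cgN

section Ab

variable {p : ℕ} [hp : Fact p.Prime] {N : Type*} [CommGroup N]

theorem ep_map (a : MonoidAlgebra ℤ N) :
    ep (mapRingHom N (Int.castRingHom (ZMod p)) a) = ((sg (Set.univ : Set N) a : ℤ) : ZMod p) := by
  induction a using MonoidAlgebra.induction_linear with
  | zero => simp
  | add x y hx hy => rw [map_add, map_add, hx, hy, map_add, Int.cast_add]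
  | single n r =>
    rw [mapRingHom_single, ep_single, sg_univ_single]
    rfl

variable [Module (ZMod p) (Additive N)] {ι : Type*} [Fintype ι]

theorem Dd_conj (χ : Module.Dual (ZMod p) (Additive N)) (P Q : Matrix ι ι (ZMod p))
    (M : Matrix ι ι (MonoidAlgebra (ZMod p) N)) (i k : ι) :
    Dd χ ((Q.map (algebraMap (ZMod p) (MonoidAlgebra (ZMod p) N)) * M *
      P.map (algebraMap (ZMod p) (MonoidAlgebra (ZMod p) N))) i k) =
      (Q * M.map (Dd χ) * P) i k := by
  rw [Matrix.mul_apply, Matrix.mul_apply, map_sum]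
  refine Finset.sum_congr rfl fun m _ => ?_
  rw [Matrix.map_apply, ← Algebra.commutes, ← Algebra.smul_def, map_smul, smul_eq_mul, mul_comm]
  congr 1
  rw [Matrix.mul_apply, Matrix.mul_apply, map_sum]
  refine Finset.sum_congr rfl fun l _ => ?_
  rw [Matrix.map_apply, ← Algebra.smul_def, map_smul, smul_eq_mul, Matrix.map_apply]

theorem conj_mem_J (P Q : Matrix ι ι (MonoidAlgebra (ZMod p) N))
    (M : Matrix ι ι (MonoidAlgebra (ZMod p) N)) (hM : ∀ i k, M i k ∈ J p N) (i k : ι) :
    (Q * M * P) i k ∈ J p N := by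
  rw [Matrix.mul_apply]
  refine Ideal.sum_mem _ fun m _ => Ideal.mul_mem_right _ _ ?_
  rw [Matrix.mul_apply]
  exact Ideal.sum_mem _ fun l _ => Ideal.mul_mem_left _ _ (hM l m)

theorem card_zeros [Fintype N] (ν : N) :
    Fintype.card N ≤ p * (Finset.univ.filter fun χ : Module.Dual (ZMod p) (Additive N) =>
      χ (Additive.ofMul ν) = 0).card ∧ (ν = 1 → Fintype.card N <
      p * (Finset.univ.filter fun χ : Module.Dual (ZMod p) (Additive N) =>
      χ (Additive.ofMul ν) = 0).card) := by
  have hc := card_dual (p := p) (N := N)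
  by_cases hν : ν = 1
  · have h1 : (Finset.univ.filter fun χ : Module.Dual (ZMod p) (Additive N) =>
        χ (Additive.ofMul ν) = 0) = Finset.univ := by
      refine Finset.filter_true_of_mem fun χ _ => ?_
      rw [hν, ofMul_one, map_zero]
    have h2 : Fintype.card N < p * (Finset.univ.filter fun χ : Module.Dual (ZMod p) (Additive N) =>
        χ (Additive.ofMul ν) = 0).card := by
      rw [h1, Finset.card_univ,
        ← Nat.card_eq_fintype_card (α := Module.Dual (ZMod p) (Additive N)), hc]
      have h3 := hp.out.one_lt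
      have h4 : 0 < Fintype.card N := Fintype.card_pos
      nlinarith
    exact ⟨h2.le, fun _ => h2⟩
  · refine ⟨?_, fun h => absurd h hν⟩
    have h1 : Module.Dual.eval (ZMod p) (Additive N) (Additive.ofMul ν) ≠ 0 := by
      intro h
      have h2 : ∀ φ : Module.Dual (ZMod p) (Additive N), φ (Additive.ofMul ν) = 0 := fun φ =>
        LinearMap.congr_fun h φ
      rw [Module.forall_dual_apply_eq_zero_iff] at h2
      exact hν h2
    have h2 := card_ker _ h1
    rw [hc] at h2
    rw [← h2]
    refine Nat.mul_le_mul_left p (le_of_eq ?_)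
    rw [← Fintype.card_subtype, ← Nat.card_eq_fintype_card]
    exact Nat.card_congr (Equiv.subtypeEquiv (Equiv.refl _) fun χ => by
      rw [LinearMap.mem_ker]
      rfl)

end Ab

theorem card_zeros_le {K ι : Type*} [Field K] [Fintype ι] [DecidableEq ι] [DecidableEq K]
    (P Q Y : Matrix ι ι K) (hPQ : P * Q = 1) (e : ι → K) (h : Q * Y * P = Matrix.diagonal e) :
    (Finset.univ.filter fun i => e i = 0).card ≤ finrank K (LinearMap.ker Y.mulVecLin) := by
  have h1 : Y = P * Matrix.diagonal e * Q := by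
    rw [← h]
    calc Y = (P * Q) * Y * (P * Q) := by rw [hPQ, one_mul, mul_one]
      _ = P * (Q * Y * P) * Q := by simp only [mul_assoc]
  have h2 : Y.rank ≤ (Matrix.diagonal e).rank := by
    rw [h1]
    exact (Matrix.rank_mul_le_left _ _).trans (Matrix.rank_mul_le_right _ _)
  rw [Matrix.rank_diagonal] at h2
  have h3 := LinearMap.finrank_range_add_finrank_ker Y.mulVecLin
  rw [finrank_fintype_fun_eq_card] at h3
  have h4 : Y.rank = finrank K (LinearMap.range Y.mulVecLin) := rfl
  have h5 := Finset.card_filter_add_card_filter_not (s := (Finset.univ : Finset ι)) (fun i => e i = 0)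
  rw [Fintype.card_subtype] at h2
  rw [Finset.card_univ] at h5
  have h6 : (Finset.univ.filter fun i => ¬ e i = 0).card = (Finset.univ.filter fun i => e i ≠ 0).card := rfl
  omega

section

variable {p : ℕ} [hp : Fact p.Prime] {G : Type*} [Group G] (N : Subgroup G) [N.Normal]
  [IsMulCommutative N] [Module (ZMod p) (Additive N)]
  [Fintype (G ⧸ N)] [DecidableEq (G ⧸ N)] {B : Type} [CommRing B] [IsDomain B] [CharZero B]
  (D : CycD p B) [Fintype N] [Fintype G] (c : MonoidAlgebra ℤ G)

/-- the reduction modulo `p` -/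
noncomputable def rdp (p : ℕ) {G : Type*} [Group G] (c : MonoidAlgebra ℤ G) :
    MonoidAlgebra (ZMod p) G := mapRingHom G (Int.castRingHom (ZMod p)) c

/-- the matrix `Φ(c - 1)` modulo `p` -/
noncomputable def M0 (p : ℕ) {G : Type*} [Group G] (N : Subgroup G) [Fintype (G ⧸ N)]
    [DecidableEq (G ⧸ N)] (c : MonoidAlgebra ℤ G) :
    Matrix (G ⧸ N) (G ⧸ N) (MonoidAlgebra (ZMod p) N) :=
  Phi N (ZMod p) (rdp p (c - 1))

theorem M0_apply (i j : G ⧸ N) : M0 p N c i j =
    mapRingHom N (Int.castRingHom (ZMod p)) (Phi N ℤ c i j - (1 : Matrix _ _ _) i j) := by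
  rw [M0, rdp, Phi_map, Matrix.map_apply, map_sub, map_one, Matrix.sub_apply]

theorem M0_mem (hred : red N c = 1) (i j : G ⧸ N) : M0 p N c i j ∈ J p N := by
  rw [mem_J, M0_apply, ep_map, map_sub, sg_Phi, hred]
  by_cases h : i = j
  · rw [h, mul_inv_cancel, one_def, coeff_single, Finsupp.single_eq_same, Matrix.one_apply_eq,
      one_def, sg_univ_single, sub_self, Int.cast_zero]
  · rw [Matrix.one_apply_ne h, one_def, coeff_single, Finsupp.single_eq_of_ne, map_zero, sub_self,
      Int.cast_zero]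
    intro h2
    exact h (eq_of_mul_inv_eq_one h2)

theorem M0_Dd (χ : Module.Dual (ZMod p) (Additive N)) : (M0 p N c).map (Dd χ) = Yx N χ c := by
  ext i j
  rw [Matrix.map_apply, M0_apply, map_sub, map_sub]
  have h1 : Dd χ (mapRingHom N (Int.castRingHom (ZMod p)) ((1 : Matrix (G ⧸ N) (G ⧸ N) _) i j)) = 0 := by
    by_cases h : i = j
    · rw [h, Matrix.one_apply_eq, map_one, Dd_one]
    · rw [Matrix.one_apply_ne h, map_zero, map_zero]
  rw [h1, sub_zero]
  rfl

include D in
/-- the diagonal form -/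
theorem exists_nu (hred : red N c = 1) (hord : orderOf c = p)
    (haug : sg (Set.univ : Set G) c = 1) :
    ∃ (P Q : Matrix (G ⧸ N) (G ⧸ N) (ZMod p)) (ν : G ⧸ N → N), P * Q = 1 ∧ Q * P = 1 ∧
      (∀ i, ν i ≠ 1) ∧
      (∀ i, (Q.map (algebraMap (ZMod p) (MonoidAlgebra (ZMod p) N)) * M0 p N c *
        P.map (algebraMap (ZMod p) (MonoidAlgebra (ZMod p) N))) i i - (single (ν i) 1 - 1) ∈
          J p N ^ 2) ∧
      (∀ i k, i ≠ k → (Q.map (algebraMap (ZMod p) (MonoidAlgebra (ZMod p) N)) * M0 p N c *
        P.map (algebraMap (ZMod p) (MonoidAlgebra (ZMod p) N))) i k ∈ J p N ^ 2) := by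
  have hc : c ^ p = 1 := by rw [← hord, pow_orderOf_eq_one]
  obtain ⟨P, Q, e, hPQ, hQP, he⟩ := exists_diag_mat (fun χ : Module.Dual (ZMod p) (Additive N) =>
    Yx N χ c) (fun χ => Yx_pow N D χ c hred hc) (fun χ ψ => Yx_comm N D χ c hred hc ψ)
  set T := Q.map (algebraMap (ZMod p) (MonoidAlgebra (ZMod p) N)) * M0 p N c *
        P.map (algebraMap (ZMod p) (MonoidAlgebra (ZMod p) N)) with hT
  have hTJ : ∀ i k, T i k ∈ J p N := fun i k => conj_mem_J _ _ _ (M0_mem N c hred) i k
  have hTD : ∀ (χ : Module.Dual (ZMod p) (Additive N)) i k, Dd χ (T i k) =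
      Matrix.diagonal (e χ) i k := by
    intro χ i k
    rw [hT, Dd_conj, M0_Dd, he]
  choose ν hν hχ using fun i => exists_lin' (T i i) (hTJ i i)
  have hχ' : ∀ i χ, χ (Additive.ofMul (ν i)) = e χ i := by
    intro i χ
    rw [← hχ, hTD, Matrix.diagonal_apply_eq]
  refine ⟨P, Q, ν, hPQ, hQP, ?_, hν, fun i k hik => mem_J2_of _ (hTJ i k) fun χ => ?_⟩
  · -- counting
    intro i₀ h0
    have h1 := sum_ker_le N D c hred hord haug
    have h2 : ∑ χ : Module.Dual (ZMod p) (Additive N),
        (Finset.univ.filter fun i => χ (Additive.ofMul (ν i)) = 0).card ≤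
        ∑ χ : Module.Dual (ZMod p) (Additive N),
          finrank (ZMod p) (LinearMap.ker (Yx N χ c).mulVecLin) := by
      refine Finset.sum_le_sum fun χ _ => ?_
      have h3 := card_zeros_le P Q (Yx N χ c) hPQ (e χ) (he χ)
      simp_rw [hχ']
      exact h3
    have h3 : ∑ χ : Module.Dual (ZMod p) (Additive N),
        (Finset.univ.filter fun i => χ (Additive.ofMul (ν i)) = 0).card =
        ∑ i, (Finset.univ.filter fun χ : Module.Dual (ZMod p) (Additive N) =>
          χ (Additive.ofMul (ν i)) = 0).card := by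
      simp_rw [Finset.card_filter]
      rw [Finset.sum_comm]
    have h4 : Fintype.card G < p * ∑ i, (Finset.univ.filter fun χ : Module.Dual (ZMod p) (Additive N) =>
          χ (Additive.ofMul (ν i)) = 0).card := by
      have h5 := Subgroup.card_eq_card_quotient_mul_card_subgroup N
      rw [Nat.card_eq_fintype_card, Nat.card_eq_fintype_card, Nat.card_eq_fintype_card] at h5
      rw [h5, Finset.mul_sum, Fintype.card_eq_sum_ones, Finset.sum_mul]
      refine Finset.sum_lt_sum (fun i _ => ?_) ⟨i₀, Finset.mem_univ _, ?_⟩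
      · rw [one_mul]
        exact (card_zeros (ν i)).1
      · rw [one_mul]
        exact (card_zeros (ν i₀)).2 h0
    rw [← h3] at h4
    have h6 := Nat.mul_le_mul_left p h2
    omega
  · rw [hTD, Matrix.diagonal_apply_ne _ hik]

end

end H58.SP
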