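import Pool.Agent.H58.SP.Free2

/-!
# The kernel of a torsion unit of order `p` minus one, modulo `p`
-/

set_option autoImplicit false

namespace H58.SP

open MonoidAlgebra Module

attribute [local instance] cgN

section

variable {p : ℕ} [hp : Fact p.Prime] {G : Type*} [Group G] [Fintype G] [DecidableEq G]

theorem rm_Lm (c : MonoidAlgebra ℤ G) : rm (p := p) (Lm c) = Lm (rdp p c) := by
  ext x y
  rw [rm, Matrix.map_apply, Lm_apply, Lm_apply, rdp, coeff_mapRingHom]

/-- the coefficients as a linear map -/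
noncomputable def kap (p : ℕ) [hp : Fact p.Prime] (G : Type*) [Group G] :
    MonoidAlgebra (ZMod p) G →ₗ[ZMod p] (G → ZMod p) :=
  (Finsupp.lcoeFun).comp (coeffLinearEquiv (ZMod p)).toLinearMap

omit [Fintype G] [DecidableEq G] in
theorem kap_apply (a : MonoidAlgebra (ZMod p) G) (x : G) : kap p G a x = a.coeff x := rfl

omit [DecidableEq G] in
theorem kap_surj : Function.Surjective (kap p G) := by
  intro f
  refine ⟨ofCoeff (Finsupp.equivFunOnFinite.symm f), ?_⟩
  funext x
  rw [kap_apply]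
  rfl

theorem kap_mul (a b : MonoidAlgebra (ZMod p) G) : kap p G (a * b) = (Lm a).mulVec (kap p G b) := by
  funext x
  have h1 := congrFun (congrFun (map_mul (Lm (R := ZMod p) (G := G)) a b) x) 1
  rw [Lm_apply, inv_one, mul_one] at h1
  rw [kap_apply, h1, Matrix.mul_apply]
  refine Finset.sum_congr rfl fun y _ => ?_
  rw [Lm_apply b, inv_one, mul_one]
  rfl

variable (N : Subgroup G) [N.Normal] [IsMulCommutative N] [Module (ZMod p) (Additive N)]
  (c : MonoidAlgebra ℤ G)

omit hp [Fintype G] [DecidableEq G] [Group G] in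
theorem ker_le_of_cover {K V W : Type*} [Field K] [AddCommGroup V] [Module K V]
    [FiniteDimensional K V] [AddCommGroup W] [Module K W] (L : V →ₗ[K] V) (S : Finset W)
    (F : W →ₗ[K] V) (h : ∀ x, ∃ a, ∃ y ∈ Submodule.span K (S : Set W), x = L a + F y) :
    finrank K (LinearMap.ker L) ≤ S.card := by
  have h3 : (⊤ : Submodule K V) ≤ LinearMap.range L ⊔
      (Submodule.span K (S : Set W)).map F := by
    intro x _
    obtain ⟨a, y, hy, rfl⟩ := h x
    exact Submodule.add_mem_sup ⟨_, rfl⟩ ⟨y, hy, rfl⟩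
  have h4 := Submodule.finrank_mono h3
  have h5 := Submodule.finrank_add_le_finrank_add_finrank (LinearMap.range L)
    ((Submodule.span K (S : Set W)).map F)
  have h6 : finrank K ((Submodule.span K (S : Set W)).map F) ≤ S.card := by
    have : FiniteDimensional K (Submodule.span K (S : Set W)) :=
      FiniteDimensional.span_finset K S
    exact (Submodule.finrank_map_le _ _).trans (finrank_span_finset_le_card S)
  have h7 := LinearMap.finrank_range_add_finrank_ker L
  rw [finrank_top] at h4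
  omega

omit hp [Fintype G] [DecidableEq G] [Group G] in
theorem undo_conj {A ι : Type*} [Ring A] [Fintype ι] [DecidableEq ι] (P Q M : Matrix ι ι A)
    (hPQ : P * Q = 1) (w z y : ι → A) (hz : Q.mulVec w = (Q * M * P).mulVec z + y) :
    w = M.mulVec (P.mulVec z) + P.mulVec y := by
  have h5 : P.mulVec (Q.mulVec w) = w := by
    rw [Matrix.mulVec_mulVec, hPQ, Matrix.one_mulVec]
  rw [← h5, hz, Matrix.mulVec_add]
  congr 1
  rw [Matrix.mulVec_mulVec, Matrix.mulVec_mulVec, ← mul_assoc, ← mul_assoc, hPQ, one_mul]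

/-- a torsion unit of order `p` in the kernel of the reduction modulo an elementary abelian normal
`p`-subgroup acts freely modulo `p` -/
theorem ker_small (hred : red N c = 1) (hord : orderOf c = p)
    (haug : sg (Set.univ : Set G) c = 1) :
    p * finrank (ZMod p) (LinearMap.ker (rm (p := p) (Lm (c - 1))).mulVecLin) ≤ Fintype.card G := by
  classical
  have : Fintype (G ⧸ N) := Fintype.ofFinite _
  have : Fintype N := Fintype.ofFinite _
  obtain ⟨B, _, _, _, ⟨D⟩⟩ := exists_cyc p
  obtain ⟨P, Q, ν, hPQ, hQP, hν, h1, h2⟩ := exists_nu N D c hred hord haug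
  have hPQ' : P.map (algebraMap (ZMod p) (MonoidAlgebra (ZMod p) N)) *
      Q.map (algebraMap (ZMod p) (MonoidAlgebra (ZMod p) N)) = 1 := by
    rw [← Matrix.map_mul, hPQ, Matrix.map_one _ (map_zero _) (map_one _)]
  obtain ⟨S, hS1, hS2⟩ := exists_compl _ ν h1 h2 hν
  have h9 := Subgroup.card_eq_card_quotient_mul_card_subgroup N
  rw [Nat.card_eq_fintype_card, Nat.card_eq_fintype_card, Nat.card_eq_fintype_card] at h9
  rw [← h9] at hS1
  refine (Nat.mul_le_mul_left p ?_).trans hS1
  clear h1 h2 hν hS1 h9 hQP hPQ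
  generalize P.map (algebraMap (ZMod p) (MonoidAlgebra (ZMod p) N)) = P' at hS2 hPQ'
  generalize Q.map (algebraMap (ZMod p) (MonoidAlgebra (ZMod p) N)) = Q' at hS2 hPQ'
  -- the linear map
  refine ker_le_of_cover _ S ((kap p G).comp ((Psi N (ZMod p)).comp
    (P'.mulVecLin.restrictScalars (ZMod p)))) fun x => ?_
  obtain ⟨b, rfl⟩ := kap_surj x
  obtain ⟨w, rfl⟩ := Psi_surj N (ZMod p) b
  obtain ⟨z, y, hy, hz⟩ := hS2 (Q'.mulVec w)
  refine ⟨kap p G (Psi N (ZMod p) (P'.mulVec z)), y, hy, ?_⟩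
  have h4 : w = (M0 p N c).mulVec (P'.mulVec z) + P'.mulVec y :=
    undo_conj P' Q' (M0 p N c) hPQ' w z y hz
  have h5 : Psi N (ZMod p) ((M0 p N c).mulVec (P'.mulVec z)) =
      rdp p (c - 1) * Psi N (ZMod p) (P'.mulVec z) := (mul_Psi N (ZMod p) _ _).symm
  have h6 : kap p G (Psi N (ZMod p) w) = kap p G (Psi N (ZMod p) ((M0 p N c).mulVec (P'.mulVec z)))
      + kap p G (Psi N (ZMod p) (P'.mulVec y)) := by
    conv_lhs => rw [h4]
    rw [map_add, map_add]
  rw [h6, h5, kap_mul, ← rm_Lm]
  rfl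

end

end H58.SP
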