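import Pool.Agent.H58.SP.Dold
import Pool.Agent.H58.SP.Reg

/-!
# Vanishing of sums of coefficients of torsion units
-/

set_option autoImplicit false

namespace H58.SP

open MonoidAlgebra

variable {G : Type*} [Group G]

theorem sg_mapRing {R S : Type*} [CommRing R] [CommRing S] (f : R →+* S) (T : Set G)
    (a : MonoidAlgebra R G) : sg T (MonoidAlgebra.mapRingHom G f a) = f (sg T a) := by
  classical
  induction a using MonoidAlgebra.induction_linear with
  | zero => simp
  | add x y hx hy => rw [map_add, map_add, map_add, map_add, hx, hy]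
  | single m r =>
    rw [MonoidAlgebra.mapRingHom_single, sg_single, sg_single]
    split_ifs
    · rfl
    · rw [map_zero]

/-- the congruence for integral coefficients -/
theorem dold_int (p r : ℕ) [Fact p.Prime] {S : Set G} (hS : CI S) (a : MonoidAlgebra ℤ G) :
    ((p : ℤ) ^ (r + 1)) ∣ sg S (a ^ p ^ (r + 1)) - sg {x | x ^ p ∈ S} (a ^ p ^ r) := by
  have h := dold p r hS (MonoidAlgebra.mapRingHom G (Int.castRingHom (ZMod (p ^ (r + 1)))) a)
  rw [← map_pow, ← map_pow, sg_mapRing, sg_mapRing] at h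
  simp only [eq_intCast] at h
  rw [← sub_eq_zero, ← Int.cast_sub, ZMod.intCast_zmod_eq_zero_iff_dvd] at h
  exact_mod_cast h

theorem CI.pow {S : Set G} (hS : CI S) (k : ℕ) : CI {x : G | x ^ k ∈ S} := by
  intro g x hx
  rw [Set.mem_ofPred_eq] at hx ⊢
  rw [conj_pow]
  exact hS g _ hx

theorem CI.union {S T : Set G} (hS : CI S) (hT : CI T) : CI (S ∪ T) := by
  intro g x hx
  rcases hx with h | h
  · exact Or.inl (hS g x h)
  · exact Or.inr (hT g x h)

theorem CI.inter {S T : Set G} (hS : CI S) (hT : CI T) : CI (S ∩ T) := fun g x hx =>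
  ⟨hS g x hx.1, hT g x hx.2⟩

theorem CI.diff {S T : Set G} (hS : CI S) (hT : CI T) : CI (S \ T) := by
  intro g x hx
  refine ⟨hS g x hx.1, fun h => hx.2 ?_⟩
  have := hT g⁻¹ _ h
  have e : g⁻¹ * (g * x * g⁻¹) * g⁻¹⁻¹ = x := by group
  rwa [e] at this

theorem CI.ord (P : ℕ → Prop) : CI {x : G | P (orderOf x)} := by
  intro g x hx
  rw [Set.mem_ofPred_eq] at hx ⊢
  have : orderOf (g * x * g⁻¹) = orderOf x := by
    have h := MulAut.conj_apply g x
    rw [← h]
    exact orderOf_injective (MulAut.conj g).toMonoidHom (MulAut.conj g).injective x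
  rwa [this]

/-- iterated congruence -/
theorem dold_iter (p r : ℕ) [Fact p.Prime] (a : MonoidAlgebra ℤ G) (j : ℕ) :
    ∀ {S : Set G}, CI S →
    ((p : ℤ) ^ (r + 1)) ∣ sg S (a ^ p ^ (r + j)) - sg {x | x ^ p ^ j ∈ S} (a ^ p ^ r) := by
  induction j with
  | zero =>
    intro S _
    rw [add_zero, pow_zero]
    simp only [pow_one]
    have : {x : G | x ∈ S} = S := rfl
    rw [this, sub_self]
    exact dvd_zero _
  | succ j ih =>
    intro S hS
    have h1 := dold_int p (r + j) hS a
    have h2 := ih (hS.pow p)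
    have h3 : {x : G | x ^ p ^ j ∈ {x : G | x ^ p ∈ S}} = {x : G | x ^ p ^ (j + 1) ∈ S} := by
      ext x
      rw [Set.mem_ofPred_eq, Set.mem_ofPred_eq, Set.mem_ofPred_eq, ← pow_mul, ← pow_succ]
    rw [h3] at h2
    have h4 : ((p : ℤ) ^ (r + 1)) ∣ (p : ℤ) ^ (r + j + 1) := pow_dvd_pow _ (by omega)
    have h5 := dvd_add (h4.trans h1) h2
    rw [sub_add_sub_cancel, add_assoc] at h5
    exact h5

/-- powers kill the `p`-part -/
theorem not_dvd_pow [Finite G] (p : ℕ) (hp : p.Prime) (x : G) :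
    ¬ p ∣ orderOf (x ^ p ^ Nat.card G) := by
  intro h
  have h0 : orderOf x ≠ 0 := (orderOf_pos x).ne'
  obtain ⟨e, m, hm, he⟩ := Nat.exists_eq_pow_mul_and_not_dvd h0 p hp.ne_one
  have hle : orderOf x ≤ Nat.card G := orderOf_le_card
  have hele : e ≤ Nat.card G := by
    have h1 : e < p ^ e := Nat.lt_pow_self hp.one_lt
    have h2 : p ^ e ≤ orderOf x := Nat.le_of_dvd (orderOf_pos x) ⟨m, he⟩
    omega
  have h3 : (x ^ p ^ Nat.card G) ^ m = 1 := by
    rw [← pow_mul]
    apply orderOf_dvd_iff_pow_eq_one.1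
    rw [he]
    exact Nat.mul_dvd_mul (pow_dvd_pow p hele) (dvd_refl m)
  exact hm (h.trans (orderOf_dvd_of_pow_eq_one h3))

/-- sums over sets of `p`-singular elements vanish on units of order prime to `p` -/
theorem sg_sing [Finite G] (p : ℕ) (hp : p.Prime) {S : Set G} (hS : CI S)
    (hSp : ∀ x ∈ S, p ∣ orderOf x) (v : MonoidAlgebra ℤ G) (m : ℕ) (hm : ¬ p ∣ m)
    (hv : v ^ m = 1) : sg S v = 0 := by
  have : Fact p.Prime := ⟨hp⟩
  have hm0 : m ≠ 0 := by
    rintro rfl
    exact hm (dvd_zero p)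
  -- `v ^ (p ^ (k t)) = v`
  set k := Nat.totient m with hk
  have hk0 : 0 < k := Nat.totient_pos.2 (Nat.pos_of_ne_zero hm0)
  have hcop : Nat.Coprime p m := (Nat.Prime.coprime_iff_not_dvd hp).2 hm
  have hper : ∀ t, v ^ p ^ (k * t) = v := by
    intro t
    have h1 : p ^ (k * t) ≡ 1 [MOD m] := by
      rw [pow_mul]
      have := (Nat.ModEq.pow_totient hcop).pow t
      rwa [one_pow] at this
    by_cases hm1 : m = 1
    · rw [hm1, pow_one] at hv
      rw [hv, one_pow]
    have h2 : p ^ (k * t) % m = 1 := by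
      rw [h1, Nat.mod_eq_of_lt]
      omega
    conv_lhs => rw [← Nat.div_add_mod (p ^ (k * t)) m, h2, pow_add, pow_mul, hv, one_pow, one_mul,
      pow_one]
  set N := Nat.card G with hN
  have hem : {x : G | x ^ p ^ N ∈ S} = ∅ := by
    ext x
    rw [Set.mem_ofPred_eq]
    constructor
    · intro h
      exact absurd (hSp _ h) (not_dvd_pow p hp x)
    · intro h
      exact absurd h (Set.notMem_empty _)
  -- divisibility by all powers
  have hdiv : ∀ t, ((p : ℤ) ^ (k * t + 1)) ∣ sg S v := by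
    intro t
    have h1 := dold_iter p (k * t + N * (k - 1)) v N hS
    rw [hem, sg_empty, sub_zero] at h1
    have h2 : k * t + N * (k - 1) + N = k * (t + N) := by
      obtain ⟨k', hk'⟩ : ∃ k', k = k' + 1 := ⟨k - 1, by omega⟩
      rw [hk', Nat.add_sub_cancel]
      ring
    rw [h2, hper] at h1
    exact (pow_dvd_pow _ (by omega)).trans h1
  by_contra hne
  have h3 := hdiv (sg S v).natAbs
  have h4 := Int.natAbs_dvd_natAbs.2 h3
  rw [Int.natAbs_pow, Int.natAbs_natCast] at h4
  have h5 := Nat.le_of_dvd (Int.natAbs_pos.2 hne) h4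
  have h6 : (sg S v).natAbs < p ^ (sg S v).natAbs := Nat.lt_pow_self hp.one_lt
  have h7 : p ^ (sg S v).natAbs ≤ p ^ (k * (sg S v).natAbs + 1) := by
    apply Nat.pow_le_pow_right hp.pos
    have : 1 * (sg S v).natAbs ≤ k * (sg S v).natAbs := Nat.mul_le_mul_right _ hk0
    omega
  omega

omit [Group G] in
theorem sg_eq_zero_of_coeff {S : Set G} {v : MonoidAlgebra ℤ G} (h : ∀ x ∈ S, v.coeff x = 0) :
    sg S v = 0 := by
  classical
  unfold sg
  rw [AddMonoidHom.comp_apply]
  change Finsupp.liftAddHom _ v.coeff = _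
  rw [Finsupp.liftAddHom_apply, Finsupp.sum]
  refine Finset.sum_eq_zero fun x _ => ?_
  split_ifs with hx
  · rw [h x hx, AddMonoidHom.id_apply]
  · rw [AddMonoidHom.zero_apply]

/-- Lemma Z -/
theorem sg_zero [Finite G] (n : ℕ) (hn : 0 < n) (v : MonoidAlgebra ℤ G) (hv : v ^ n = 1)
    (haug : sg (Set.univ : Set G) v = 1) (hv1 : v ≠ 1) {S : Set G} (hS : CI S)
    (hSn : ∀ x ∈ S, x = 1 ∨ ∃ r : ℕ, r.Prime ∧ r ∣ orderOf x ∧ ¬ r ∣ n) : sg S v = 0 := by
  classical
  have := Fintype.ofFinite G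
  -- induction on a bound of the smallest prime
  have key : ∀ b : ℕ, ∀ T : Set G, CI T →
      (∀ x ∈ T, ∃ r : ℕ, r < b ∧ r.Prime ∧ r ∣ orderOf x ∧ ¬ r ∣ n) → sg T v = 0 := by
    intro b
    induction b with
    | zero =>
      intro T _ hT
      have : T = ∅ := by
        ext x
        constructor
        · intro h
          obtain ⟨r, hr, _⟩ := hT x h
          omega
        · intro h
          exact absurd h (Set.notMem_empty _)
      rw [this, sg_empty]
    | succ b ih =>
      intro T hTc hT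
      by_cases hb : b.Prime ∧ ¬ b ∣ n
      · set U : Set G := {x : G | b ∣ orderOf x} with hU
        have hUc : CI U := CI.ord (fun k => b ∣ k)
        have h1 : T = (T ∩ U) ∪ (T \ U) := (Set.inter_union_sdiff T U).symm
        have h2 : Disjoint (T ∩ U) (T \ U) := by
          rw [Set.disjoint_left]
          exact fun x h h' => h'.2 h.2
        rw [h1, sg_union h2, sg_sing b hb.1 (hTc.inter hUc) (fun x hx => hx.2) v n hb.2 hv,
          ih (T \ U) (hTc.diff hUc) ?_, add_zero]
        intro x hx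
        obtain ⟨r, hr1, hr2, hr3, hr4⟩ := hT x hx.1
        refine ⟨r, ?_, hr2, hr3, hr4⟩
        rcases Nat.lt_succ_iff_lt_or_eq.1 hr1 with h | h
        · exact h
        · rw [h] at hr3
          exact absurd hr3 hx.2
      · refine ih T hTc fun x hx => ?_
        obtain ⟨r, hr1, hr2, hr3, hr4⟩ := hT x hx
        refine ⟨r, ?_, hr2, hr3, hr4⟩
        rcases Nat.lt_succ_iff_lt_or_eq.1 hr1 with h | h
        · exact h
        · exact absurd ⟨h ▸ hr2, h ▸ hr4⟩ hb
  have hone : CI ({1} : Set G) := by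
    intro g x hx
    rw [Set.mem_singleton_iff] at hx ⊢
    rw [hx, mul_one, mul_inv_cancel]
  have h1 : S = (S ∩ {1}) ∪ (S \ {1}) := (Set.inter_union_sdiff S {1}).symm
  have h2 : Disjoint (S ∩ {1}) (S \ {1}) := by
    rw [Set.disjoint_left]
    exact fun x h h' => h'.2 h.2
  rw [h1, sg_union h2]
  have h3 : sg (S ∩ {1}) v = 0 := by
    refine sg_eq_zero_of_coeff fun x hx => ?_
    rw [Set.mem_singleton_iff.1 hx.2]
    exact coeff_one v n hn hv haug hv1
  rw [h3, zero_add]
  refine key (Nat.card G + 1) _ (hS.diff hone) fun x hx => ?_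
  rcases hSn x hx.1 with h | ⟨r, hr1, hr2, hr3⟩
  · exact absurd (Set.mem_singleton_iff.2 h) hx.2
  · refine ⟨r, ?_, hr1, hr2, hr3⟩
    have h4 := Nat.le_of_dvd (orderOf_pos x) hr2
    have h5 : orderOf x ≤ Nat.card G := orderOf_le_card
    omega

end H58.SP
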