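import Pool.Agent.H58.SP.Free3
import Pool.Agent.H58.SP.Zero

/-!
# Traces of products of left and right multiplications; inversion over cyclic subgroups
-/

set_option autoImplicit false

namespace H58.SP

open MonoidAlgebra Module

section Mob

variable {G : Type*} [Group G] [Fintype G]

open Classical in
/-- the sum over the generators of a cyclic subgroup -/
noncomputable def Fg (f : G → ℤ) (D : Subgroup G) : ℤ :=
  ∑ x ∈ Finset.univ.filter (fun x => Subgroup.zpowers x = D), f x

open Classical in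
theorem Fg_zero {p : ℕ} (f : G → ℤ)
    (h : ∀ g : G, ¬ p ∣ orderOf g → ∑ x ∈ Finset.univ.filter (fun x => x ∈ Subgroup.zpowers g), f x = 0)
    (n : ℕ) : ∀ g : G, orderOf g = n → ¬ p ∣ orderOf g → Fg f (Subgroup.zpowers g) = 0 := by
  have : Fintype (Subgroup G) := Fintype.ofFinite _
  induction n using Nat.strong_induction_on with
  | _ n ih =>
    intro g hg hpg
    have h1 := h g hpg
    rw [← Finset.sum_fiberwise (g := fun x => Subgroup.zpowers x)] at h1
    rw [Finset.sum_eq_single (Subgroup.zpowers g)] at h1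
    · rw [← h1]
      unfold Fg
      refine Finset.sum_congr ?_ fun _ _ => rfl
      ext x
      simp only [Finset.mem_filter, Finset.mem_univ, true_and]
      constructor
      · intro hx
        exact ⟨by rw [← hx]; exact Subgroup.mem_zpowers x, hx⟩
      · exact fun hx => hx.2
    · intro D _ hD
      by_cases hne : ∃ x, x ∈ Subgroup.zpowers g ∧ Subgroup.zpowers x = D
      · obtain ⟨x, hx, rfl⟩ := hne
        have hle : Subgroup.zpowers x ≤ Subgroup.zpowers g := (Subgroup.zpowers_le).2 hx
        have hlt : Subgroup.zpowers x < Subgroup.zpowers g := lt_of_le_of_ne hle hD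
        have hdvd : orderOf x ∣ orderOf g := by
          have := Subgroup.card_dvd_of_le hle
          rwa [Nat.card_zpowers, Nat.card_zpowers] at this
        have hcard : orderOf x < n := by
          rw [← hg]
          refine lt_of_le_of_ne (Nat.le_of_dvd (orderOf_pos g) hdvd) fun heq => ?_
          have h2 : Nat.card (Subgroup.zpowers g) ≤ Nat.card (Subgroup.zpowers x) := by
            rw [Nat.card_zpowers, Nat.card_zpowers, heq]
          exact hlt.ne (Subgroup.eq_of_le_of_card_ge hle h2)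
        have h3 := ih (orderOf x) hcard x rfl (fun hpx => hpg (hpx.trans hdvd))
        rw [← h3]
        unfold Fg
        refine Finset.sum_congr ?_ fun _ _ => rfl
        ext y
        simp only [Finset.mem_filter, Finset.mem_univ, true_and]
        constructor
        · exact fun hy => hy.2
        · intro hy
          refine ⟨hle ?_, hy⟩
          rw [← hy]
          exact Subgroup.mem_zpowers y
      · refine Finset.sum_eq_zero fun x hx => ?_
        simp only [Finset.mem_filter, Finset.mem_univ, true_and] at hx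
        exact absurd ⟨x, hx.1, hx.2⟩ hne
    · intro h2
      exact absurd (Finset.mem_univ _) h2

open Classical in
/-- inversion over cyclic subgroups -/
theorem mob {p : ℕ} (f : G → ℤ)
    (h : ∀ g : G, ¬ p ∣ orderOf g → ∑ x ∈ Finset.univ.filter (fun x => x ∈ Subgroup.zpowers g), f x = 0)
    (P : ℕ → Prop) (hP : ∀ d, P d → ¬ p ∣ d) :
    ∑ x ∈ Finset.univ.filter (fun x => P (orderOf x)), f x = 0 := by
  have : Fintype (Subgroup G) := Fintype.ofFinite _
  rw [← Finset.sum_fiberwise (g := fun x => Subgroup.zpowers x)]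
  refine Finset.sum_eq_zero fun D _ => ?_
  by_cases hne : ∃ x, P (orderOf x) ∧ Subgroup.zpowers x = D
  · obtain ⟨x, hx, rfl⟩ := hne
    rw [← Fg_zero f h (orderOf x) x rfl (hP _ hx)]
    unfold Fg
    refine Finset.sum_congr ?_ fun _ _ => rfl
    ext y
    simp only [Finset.mem_filter, Finset.mem_univ, true_and]
    constructor
    · exact fun hy => hy.2
    · intro hy
      refine ⟨?_, hy⟩
      have h2 : orderOf y = orderOf x := by
        rw [← Nat.card_zpowers, ← Nat.card_zpowers, hy]
      rw [h2]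
      exact hx
  · refine Finset.sum_eq_zero fun x hx => ?_
    simp only [Finset.mem_filter, Finset.mem_univ, true_and] at hx
    exact absurd ⟨x, hx.1, hx.2⟩ hne

end Mob

section Tau

variable {G : Type*} [Group G] [Fintype G] [DecidableEq G]

/-- right convolution by a function -/
def Rf (f : G → ℤ) : Matrix G G ℤ := Matrix.of fun x z => f (z⁻¹ * x)

theorem Lm_mul_Rf (a : MonoidAlgebra ℤ G) (f : G → ℤ) (x z : G) :
    (Lm a * Rf f) x z = ∑ t, a.coeff (x * t⁻¹ * z⁻¹) * f t := by
  rw [Matrix.mul_apply]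
  refine Fintype.sum_equiv (Equiv.mulLeft z⁻¹) _ _ fun y => ?_
  rw [Lm_apply, Rf, Matrix.of_apply, Equiv.coe_mulLeft]
  congr 2
  group

theorem Rf_mul_Lm (a : MonoidAlgebra ℤ G) (f : G → ℤ) (x z : G) :
    (Rf f * Lm a) x z = ∑ t, a.coeff (x * t⁻¹ * z⁻¹) * f t := by
  rw [Matrix.mul_apply]
  refine Fintype.sum_equiv ((Equiv.inv G).trans (Equiv.mulRight x)) _ _ fun y => ?_
  rw [Lm_apply, Rf, Matrix.of_apply, mul_comm, Equiv.trans_apply, Equiv.inv_apply,
    Equiv.coe_mulRight]
  congr 2
  group

theorem Lm_Rf_comm (a : MonoidAlgebra ℤ G) (f : G → ℤ) : Lm a * Rf f = Rf f * Lm a := by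
  ext x z
  rw [Lm_mul_Rf, Rf_mul_Lm]

/-- the trace of the product of a left and a right multiplication -/
noncomputable def tau (a : MonoidAlgebra ℤ G) (t : G) : ℤ := ∑ x, a.coeff (x * t⁻¹ * x⁻¹)

theorem trace_Lm_Rf (a : MonoidAlgebra ℤ G) (f : G → ℤ) :
    (Lm a * Rf f).trace = ∑ t, tau a t * f t := by
  rw [Matrix.trace]
  simp only [Matrix.diag_apply, Lm_mul_Rf]
  rw [Finset.sum_comm]
  refine Finset.sum_congr rfl fun t _ => ?_
  rw [tau, Finset.sum_mul]

open Classical in
/-- the indicator function of a subgroup -/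
noncomputable def ind (C : Subgroup G) : G → ℤ := fun x => if x ∈ C then 1 else 0

theorem Rf_ind_sq (C : Subgroup G) : Rf (ind C) * Rf (ind C) = (Nat.card C : ℤ) • Rf (ind C) := by
  classical
  ext x z
  rw [Matrix.mul_apply, Matrix.smul_apply]
  simp only [Rf, Matrix.of_apply, ind, smul_eq_mul]
  by_cases h : z⁻¹ * x ∈ C
  · have h1 : ∀ y, (if y⁻¹ * x ∈ C then (1 : ℤ) else 0) * (if z⁻¹ * y ∈ C then 1 else 0) =
        if z⁻¹ * y ∈ C then 1 else 0 := by
      intro y
      by_cases h2 : z⁻¹ * y ∈ C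
      · have h3 : y⁻¹ * x ∈ C := by
          have h4 := C.mul_mem (C.inv_mem h2) h
          have e : (z⁻¹ * y)⁻¹ * (z⁻¹ * x) = y⁻¹ * x := by group
          rwa [e] at h4
        rw [if_pos h2, if_pos h3, mul_one]
      · rw [if_neg h2, mul_zero]
    rw [Finset.sum_congr rfl (fun y _ => h1 y), if_pos h, mul_one]
    have h2 : ∑ y, (if z⁻¹ * y ∈ C then (1 : ℤ) else 0) = ∑ y, (if y ∈ C then (1 : ℤ) else 0) :=
      Fintype.sum_equiv (Equiv.mulLeft z⁻¹) _ _ fun y => rfl
    rw [h2, Finset.sum_boole, Nat.card_eq_fintype_card, ← Fintype.card_subtype]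
  · rw [if_neg h, mul_zero]
    refine Finset.sum_eq_zero fun y _ => ?_
    by_cases h2 : z⁻¹ * y ∈ C
    · have h3 : y⁻¹ * x ∉ C := by
        intro h3
        apply h
        have h4 := C.mul_mem h2 h3
        have e : (z⁻¹ * y) * (y⁻¹ * x) = z⁻¹ * x := by group
        rwa [e] at h4
      rw [if_neg h3, zero_mul]
    · rw [if_neg h2, mul_zero]

theorem Rf_const_one : Rf (ind (⊥ : Subgroup G)) = 1 := by
  classical
  ext x z
  simp only [Rf, Matrix.of_apply, ind, Subgroup.mem_bot]
  by_cases h : x = z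
  · rw [h, inv_mul_cancel, if_pos rfl, Matrix.one_apply_eq]
  · rw [Matrix.one_apply_ne h, if_neg]
    intro h2
    exact h (inv_mul_eq_one.1 h2).symm

variable {p q : ℕ} [hp : Fact p.Prime]

theorem trace_norm (c s : MonoidAlgebra ℤ G) (C : Subgroup G) (hcp : c ^ p = 1) (hsq : s ^ q = 1)
    (hcs : c * s = s * c) (hpq : ¬ p ∣ q) (hq : 0 < q) (hC : ¬ p ∣ Nat.card C)
    (hN : (∑ i ∈ Finset.range p, c ^ i).coeff 1 = 1)
    (hker : p * finrank (ZMod p) (LinearMap.ker (rm (p := p) (Lm (c - 1))).mulVecLin) ≤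
      Fintype.card G) :
    (Lm ((∑ i ∈ Finset.range p, c ^ i) * ∑ j ∈ Finset.range q, s ^ j) * Rf (ind C)).trace =
      (Lm (∑ j ∈ Finset.range q, s ^ j) * Rf (ind C)).trace := by
  have h1 : (Lm c : Matrix G G ℤ) ^ p = 1 := by rw [← map_pow, hcp, map_one]
  have h2 : ∑ i ∈ Finset.range p, (Lm c : Matrix G G ℤ) ^ i = Lm (∑ i ∈ Finset.range p, c ^ i) := by
    rw [map_sum]
    simp_rw [map_pow]
  set S := ∑ j ∈ Finset.range q, s ^ j with hS
  have hcS : c * S = S * c := by
    rw [hS, Finset.mul_sum, Finset.sum_mul]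
    refine Finset.sum_congr rfl fun j _ => ?_
    exact ((show Commute c s from hcs).pow_right j).eq
  have hSS : S * S = (q : ℤ) • S := by
    rw [hS, geom_idem hsq, natCast_zsmul]
  have h3 := trace_eq (p := p) (Lm c) (Lm S * Rf (ind C)) h1
    (by rw [← mul_assoc, ← map_mul, hcS, map_mul, mul_assoc, Lm_Rf_comm, mul_assoc])
    ((q : ℤ) * Nat.card C) (by
      have : (0 : ℤ) < q := by exact_mod_cast hq
      have : (0 : ℤ) < Nat.card C := by exact_mod_cast Nat.card_pos
      positivity)
    (by
      intro h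
      rw [← Nat.cast_mul, Int.natCast_dvd_natCast] at h
      rcases (hp.out.dvd_mul).1 h with h | h
      · exact hpq h
      · exact hC h)
    (by
      have e : Lm S * Rf (ind C) * (Lm S * Rf (ind C)) =
          (Lm S * Lm S) * (Rf (ind C) * Rf (ind C)) := by
        rw [mul_assoc, ← mul_assoc (Rf (ind C)) (Lm S), ← Lm_Rf_comm, mul_assoc (Lm S) (Rf (ind C)),
          ← mul_assoc (Lm S) (Lm S)]
      rw [e, ← map_mul, hSS, Rf_ind_sq, map_zsmul, smul_mul_assoc, mul_smul_comm, smul_smul])
    (by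
      rw [h2, trace_Lm, hN, mul_one])
    (by
      have e : (Lm c : Matrix G G ℤ) - 1 = Lm (c - 1) := by rw [map_sub, map_one]
      rw [e]
      exact hker)
  rw [h2, ← mul_assoc, ← map_mul] at h3
  exact h3

/-- the key identity -/
theorem tau_sum_zero (c s : MonoidAlgebra ℤ G) (C : Subgroup G) (hcp : c ^ p = 1)
    (hsq : s ^ q = 1) (hcs : c * s = s * c) (hpq : ¬ p ∣ q) (hq : 0 < q) (hC : ¬ p ∣ Nat.card C)
    (hN : (∑ i ∈ Finset.range p, c ^ i).coeff 1 = 1)
    (hker : p * finrank (ZMod p) (LinearMap.ker (rm (p := p) (Lm (c - 1))).mulVecLin) ≤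
      Fintype.card G) :
    ∑ t, tau ((∑ i ∈ Finset.range p, c ^ i - 1) * (∑ j ∈ Finset.range q, s ^ j - 1)) t * ind C t = 0 := by
  have h1 := trace_norm c s C hcp hsq hcs hpq hq hC hN hker
  have h2 := trace_norm (q := 1) c 1 C hcp (one_pow 1) (by rw [mul_one, one_mul])
    (by
      intro h
      exact hp.out.one_lt.ne' (Nat.dvd_one.1 h)) Nat.one_pos hC hN hker
  simp only [Finset.range_one, Finset.sum_singleton, pow_zero, mul_one] at h2
  rw [← trace_Lm_Rf]
  set A := ∑ i ∈ Finset.range p, c ^ i with hA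
  set S := ∑ j ∈ Finset.range q, s ^ j with hS
  have e : (A - 1) * (S - 1) = A * S - A - S + 1 := by noncomm_ring
  rw [e, map_add, map_sub, map_sub, add_mul, sub_mul, sub_mul, Matrix.trace_add, Matrix.trace_sub,
    Matrix.trace_sub, h1, h2]
  ring

/-- the sum of the values of `tau` over a class of elements -/
theorem tau_sum_ord (a : MonoidAlgebra ℤ G) (P : ℕ → Prop) [DecidablePred P] :
    ∑ t ∈ Finset.univ.filter (fun t : G => P (orderOf t)), tau a t =
      Fintype.card G * sg {x : G | P (orderOf x)} a := by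
  classical
  unfold tau
  rw [Finset.sum_comm]
  have h1 : ∀ x : G, ∑ t ∈ Finset.univ.filter (fun t : G => P (orderOf t)), a.coeff (x * t⁻¹ * x⁻¹) =
      sg {x : G | P (orderOf x)} a := by
    intro x
    rw [sg_eq_sum, ← Finset.sum_filter]
    refine Finset.sum_bij (fun t _ => x * t⁻¹ * x⁻¹) ?_ ?_ ?_ ?_
    · intro t ht
      simp only [Finset.mem_filter, Finset.mem_univ, true_and, Set.mem_ofPred_eq] at ht ⊢
      have h2 : orderOf (x * t⁻¹ * x⁻¹) = orderOf t := by
        have h := MulAut.conj_apply x t⁻¹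
        rw [← h, ← orderOf_inv t]
        exact orderOf_injective (MulAut.conj x).toMonoidHom (MulAut.conj x).injective t⁻¹
      rw [h2]
      exact ht
    · intro t _ t' _ h
      have := mul_left_cancel (mul_right_cancel h)
      exact inv_injective this
    · intro y hy
      simp only [Finset.mem_filter, Finset.mem_univ, true_and, Set.mem_ofPred_eq] at hy
      refine ⟨x⁻¹ * y⁻¹ * x, ?_, by group⟩
      simp only [Finset.mem_filter, Finset.mem_univ, true_and]
      have h2 : orderOf (x⁻¹ * y⁻¹ * x) = orderOf y := by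
        have h := MulAut.conj_apply x⁻¹ y⁻¹
        rw [inv_inv] at h
        rw [← h, ← orderOf_inv y]
        exact orderOf_injective (MulAut.conj x⁻¹).toMonoidHom (MulAut.conj x⁻¹).injective y⁻¹
      rw [h2]
      exact hy
    · intro t _
      rfl
  rw [Finset.sum_congr rfl (fun x _ => h1 x), Finset.sum_const, Finset.card_univ, nsmul_eq_mul]

/-- the sum of the partial augmentations over the `p`-regular classes of order divisible by `q` -/
theorem sg_prod_zero (c s : MonoidAlgebra ℤ G) (hcp : c ^ p = 1)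
    (hsq : s ^ q = 1) (hcs : c * s = s * c) (hpq : ¬ p ∣ q) (hq : 0 < q)
    (hN : (∑ i ∈ Finset.range p, c ^ i).coeff 1 = 1)
    (hker : p * finrank (ZMod p) (LinearMap.ker (rm (p := p) (Lm (c - 1))).mulVecLin) ≤
      Fintype.card G) (P : ℕ → Prop) (hP : ∀ d, P d → ¬ p ∣ d) :
    sg {x : G | P (orderOf x)}
      ((∑ i ∈ Finset.range p, c ^ i - 1) * (∑ j ∈ Finset.range q, s ^ j - 1)) = 0 := by
  classical
  set b := (∑ i ∈ Finset.range p, c ^ i - 1) * (∑ j ∈ Finset.range q, s ^ j - 1) with hb
  have h1 := tau_sum_ord b P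
  have h2 := mob (p := p) (tau b) (fun g hg => by
    have h3 := tau_sum_zero c s (Subgroup.zpowers g) hcp hsq hcs hpq hq
      (by rw [Nat.card_zpowers]; exact hg) hN hker
    rw [← hb] at h3
    rw [Finset.sum_filter]
    refine Eq.trans (Finset.sum_congr rfl fun t _ => ?_) h3
    unfold ind
    split_ifs
    · rw [mul_one]
    · rw [mul_zero]) P hP
  have h3 : ∑ t ∈ Finset.univ.filter (fun t : G => P (orderOf t)), tau b t = 0 := by
    rw [← h2]
  rw [h3] at h1
  have h4 : (Fintype.card G : ℤ) ≠ 0 := by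
    exact_mod_cast Fintype.card_ne_zero
  exact (mul_eq_zero.1 h1.symm).resolve_left h4

end Tau

end H58.SP
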