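import Pool.Agent.H58.SP.Zero

/-!
# The steps of the induction
-/

set_option autoImplicit false

namespace H58.SP

open MonoidAlgebra

variable {G : Type*} [Group G]

/-- every torsion unit of order `n` and augmentation one comes with an element of order `n` -/
def SPn (G : Type*) [Group G] (n : ℕ) : Prop :=
  ∀ u : MonoidAlgebra ℤ G, sg (Set.univ : Set G) u = 1 → orderOf u = n → ∃ g : G, orderOf g = n

/-- the augmentation as a ring homomorphism -/
theorem aug_mul (a b : MonoidAlgebra ℤ G) :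
    sg (Set.univ : Set G) (a * b) = sg (Set.univ : Set G) a * sg (Set.univ : Set G) b := by
  induction a using MonoidAlgebra.induction_linear with
  | zero => rw [zero_mul, map_zero, zero_mul]
  | add x y hx hy => rw [add_mul, map_add, hx, hy, map_add, add_mul]
  | single m r =>
    induction b using MonoidAlgebra.induction_linear with
    | zero => rw [mul_zero, map_zero, mul_zero]
    | add x y hx hy => rw [mul_add, map_add, hx, hy, map_add, mul_add]
    | single n s => rw [single_mul_single, sg_univ_single, sg_univ_single, sg_univ_single]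

theorem aug_one : sg (Set.univ : Set G) (1 : MonoidAlgebra ℤ G) = 1 := by
  rw [MonoidAlgebra.one_def, sg_univ_single]

theorem aug_pow (a : MonoidAlgebra ℤ G) (ha : sg (Set.univ : Set G) a = 1) (k : ℕ) :
    sg (Set.univ : Set G) (a ^ k) = 1 := by
  induction k with
  | zero => rw [pow_zero, aug_one]
  | succ k ih => rw [pow_succ, aug_mul, ih, ha, mul_one]

/-- reduction modulo a normal subgroup -/
noncomputable def red (N : Subgroup G) [N.Normal] : MonoidAlgebra ℤ G →+* MonoidAlgebra ℤ (G ⧸ N) :=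
  MonoidAlgebra.mapDomainRingHom ℤ (QuotientGroup.mk' N)

theorem aug_red (N : Subgroup G) [N.Normal] (a : MonoidAlgebra ℤ G) :
    sg (Set.univ : Set (G ⧸ N)) (red N a) = sg (Set.univ : Set G) a := by
  unfold red
  rw [sg_map, Set.preimage_univ]

theorem sg_red (N : Subgroup G) [N.Normal] (T : Set (G ⧸ N)) (a : MonoidAlgebra ℤ G) :
    sg T (red N a) = sg ((QuotientGroup.mk' N) ⁻¹' T) a := by
  unfold red
  rw [sg_map]

theorem CI_univ : CI (Set.univ : Set G) := fun _ _ _ => Set.mem_univ _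

/-- the kernel lemma -/
theorem kernel [Finite G] (N : Subgroup G) [N.Normal] (w : MonoidAlgebra ℤ G)
    (haug : sg (Set.univ : Set G) w = 1) (r : ℕ) (hr : r.Prime) (hw : orderOf w = r)
    (h1 : red N w = 1) : r ∣ Nat.card N := by
  by_contra hcon
  have h2 : sg (N : Set G) w = 1 := by
    have h3 := sg_red N {1} w
    rw [h1, MonoidAlgebra.one_def, sg_singleton, coeff_single, Finsupp.single_eq_same] at h3
    have h4 : ((QuotientGroup.mk' N) ⁻¹' {1} : Set G) = (N : Set G) := by
      ext x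
      rw [Set.mem_preimage, Set.mem_singleton_iff, QuotientGroup.mk'_apply, QuotientGroup.eq_one_iff]
      rfl
    rw [h4] at h3
    exact h3.symm
  have hCI : CI (N : Set G) := fun g x hx => Subgroup.Normal.conj_mem inferInstance x hx g
  have h5 : sg (N : Set G) w = 0 := by
    refine sg_zero r hr.pos w (by rw [← hw]; exact pow_orderOf_eq_one w) haug ?_ hCI ?_
    · rintro rfl
      rw [orderOf_one] at hw
      exact hr.one_lt.ne hw
    · intro x hx
      by_cases hx1 : x = 1
      · exact Or.inl hx1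
      right
      have h6 : orderOf x ≠ 1 := fun h => hx1 (orderOf_eq_one_iff.1 h)
      obtain ⟨s, hs, hsx⟩ := Nat.exists_prime_and_dvd h6
      refine ⟨s, hs, hsx, fun h => ?_⟩
      have h7 : s = r := (Nat.prime_dvd_prime_iff_eq hs hr).1 h
      apply hcon
      rw [← h7]
      have h8 : orderOf x ∣ Nat.card N := by
        have := orderOf_dvd_natCard (⟨x, hx⟩ : N)
        rwa [← Subgroup.orderOf_coe] at this
      exact hsx.trans h8
  rw [h5] at h2
  exact zero_ne_one h2

theorem dvd_orderOf_pow [Finite G] {p q : ℕ} (hp : p.Prime) (hq : q.Prime) (hpq : p ≠ q) (x : G)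
    (k : ℕ) : q ∣ orderOf (x ^ p ^ k) ↔ q ∣ orderOf x := by
  constructor
  · intro h
    exact h.trans (orderOf_pow_dvd _)
  · intro h
    rw [orderOf_pow]
    have h1 : orderOf x / Nat.gcd (orderOf x) (p ^ k) * Nat.gcd (orderOf x) (p ^ k) = orderOf x :=
      Nat.div_mul_cancel (Nat.gcd_dvd_left _ _)
    rw [← h1] at h
    rcases (Nat.Prime.dvd_mul hq).1 h with h2 | h2
    · exact h2
    · exfalso
      have h3 := hq.dvd_of_dvd_pow (h2.trans (Nat.gcd_dvd_right _ _))
      exact hpq ((Nat.prime_dvd_prime_iff_eq hq hp).1 h3).symm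

/-- the final step -/
theorem final_step [Finite G] {p q : ℕ} (hp : p.Prime) (hq : q.Prime) (hpq : p ≠ q) (a : ℕ)
    (u : MonoidAlgebra ℤ G) (haug : sg (Set.univ : Set G) u = 1) (hu : orderOf u = p ^ (a + 1) * q)
    (h0 : sg {x : G | q ∣ orderOf x ∧ ¬ p ∣ orderOf x} (u ^ p ^ a) = 0) :
    ∃ g : G, orderOf g = p ^ (a + 1) * q := by
  classical
  have : Fact p.Prime := ⟨hp⟩
  set v := u ^ p ^ a with hv
  set Tq : Set G := {x : G | q ∣ orderOf x} with hTq
  set S0 : Set G := {x : G | q ∣ orderOf x ∧ ¬ p ∣ orderOf x} with hS0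
  set S1 : Set G := {x : G | q ∣ orderOf x ∧ p ∣ orderOf x} with hS1
  have hTqc : CI Tq := CI.ord (fun k => q ∣ k)
  have hS1c : CI S1 := CI.ord (fun k => q ∣ k ∧ p ∣ k)
  have hpow : v ^ p = u ^ p ^ (a + 1) := by rw [hv, ← pow_mul, ← pow_succ]
  have hu0 : 0 < p ^ (a + 1) * q := Nat.mul_pos (pow_pos hp.pos _) hq.pos
  have hordp : orderOf (u ^ p ^ (a + 1)) = q := by
    rw [orderOf_pow_of_dvd (pow_pos hp.pos _).ne' (by rw [hu]; exact dvd_mul_right _ _), hu,
      Nat.mul_div_cancel_left _ (pow_pos hp.pos _)]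
  -- `sg Tq (v ^ p) = 1`
  have h1 : sg Tq (v ^ p) = 1 := by
    have h2 : sg Tqᶜ (v ^ p) = 0 := by
      rw [hpow]
      refine sg_zero q hq.pos _ (by rw [← hordp]; exact pow_orderOf_eq_one _) (aug_pow u haug _)
        ?_ ?_ ?_
      · intro h
        rw [h, orderOf_one] at hordp
        exact hq.one_lt.ne hordp
      · exact CI.ord (fun k => ¬ q ∣ k)
      · intro x hx
        by_cases hx1 : x = 1
        · exact Or.inl hx1
        right
        have h6 : orderOf x ≠ 1 := fun h => hx1 (orderOf_eq_one_iff.1 h)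
        obtain ⟨s, hs, hsx⟩ := Nat.exists_prime_and_dvd h6
        refine ⟨s, hs, hsx, fun h => hx ?_⟩
        rw [hTq, Set.mem_ofPred_eq, ← (Nat.prime_dvd_prime_iff_eq hs hq).1 h]
        exact hsx
    have h3 : sg (Set.univ : Set G) (v ^ p) = 1 := by rw [hpow]; exact aug_pow u haug _
    rw [← Set.union_compl_self Tq, sg_union disjoint_compl_right, h2, add_zero] at h3
    exact h3
  have h4 : (p : ℤ) ∣ sg Tq (v ^ p) - sg Tq v := by
    have h5 := dold_int p 0 hTqc v
    rw [zero_add, pow_one, pow_one, pow_zero, pow_one] at h5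
    have h6 : {x : G | x ^ p ∈ Tq} = Tq := by
      ext x
      rw [Set.mem_ofPred_eq, hTq, Set.mem_ofPred_eq, Set.mem_ofPred_eq]
      have := dvd_orderOf_pow hp hq hpq x 1
      rwa [pow_one] at this
    rwa [h6] at h5
  have h7 : Tq = S0 ∪ S1 := by
    ext x
    rw [Set.mem_union, hTq, hS0, hS1, Set.mem_ofPred_eq, Set.mem_ofPred_eq, Set.mem_ofPred_eq]
    tauto
  have h8 : Disjoint S0 S1 := by
    rw [Set.disjoint_left]
    exact fun x h h' => h.2 h'.2
  have h9 : sg Tq v = sg S1 v := by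
    rw [h7, sg_union h8, h0, zero_add]
  rw [h1, h9] at h4
  have h10 := dold_iter p 0 u a hS1c
  rw [zero_add, zero_add, pow_one, pow_zero, pow_one] at h10
  rw [← hv] at h10
  have h11 := dvd_add h4 h10
  rw [sub_add_sub_cancel] at h11
  have h12 : sg {x : G | x ^ p ^ a ∈ S1} u ≠ 0 := by
    intro h
    rw [h, sub_zero] at h11
    have := Int.natAbs_dvd_natAbs.2 h11
    rw [Int.natAbs_natCast, Int.natAbs_one, Nat.dvd_one] at this
    exact hp.one_lt.ne' this
  obtain ⟨x, hx⟩ : ∃ x : G, x ^ p ^ a ∈ S1 := by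
    by_contra hcon
    push Not at hcon
    apply h12
    refine sg_eq_zero_of_coeff fun x hx => absurd hx (hcon x)
  have h13 : q ∣ orderOf x := (dvd_orderOf_pow hp hq hpq x a).1 hx.1
  have h14 : p ^ (a + 1) ∣ orderOf x := by
    have hx2 := hx.2
    rw [orderOf_pow] at hx2
    obtain ⟨j, hj, hg⟩ := (Nat.dvd_prime_pow hp).1 (Nat.gcd_dvd_right (orderOf x) (p ^ a))
    rw [hg] at hx2
    have h15 : p ^ j ∣ orderOf x := by
      rw [← hg]
      exact Nat.gcd_dvd_left _ _
    obtain ⟨m, hm⟩ := h15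
    rw [hm, Nat.mul_div_cancel_left _ (pow_pos hp.pos _)] at hx2
    obtain ⟨m', hm'⟩ := hx2
    by_cases hja : j = a
    · rw [hm, hm', hja, pow_succ]
      exact ⟨m', by ring⟩
    · exfalso
      have h16 : p ^ (j + 1) ∣ orderOf x := by
        rw [hm, hm', pow_succ]
        exact ⟨m', by ring⟩
      have h17 : p ^ (j + 1) ∣ p ^ a := pow_dvd_pow p (by omega)
      have h18 := Nat.dvd_gcd h16 h17
      rw [hg] at h18
      have h19 := Nat.le_of_dvd (pow_pos hp.pos _) h18
      have h20 : p ^ j < p ^ (j + 1) := Nat.pow_lt_pow_right hp.one_lt (Nat.lt_succ_self j)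
      omega
  have h21 : p ^ (a + 1) * q ∣ orderOf x := by
    refine Nat.Coprime.mul_dvd_of_dvd_of_dvd ?_ h14 h13
    exact Nat.Coprime.pow_left _ ((Nat.coprime_primes hp hq).2 hpq)
  refine ⟨x ^ (orderOf x / (p ^ (a + 1) * q)), ?_⟩
  have h22 : orderOf x ≠ 0 := (orderOf_pos x).ne'
  exact orderOf_pow_orderOf_div h22 h21

/-- elements of the quotient can be lifted with the same order -/
theorem lift_order [Finite G] (N : Subgroup G) [N.Normal] {n : ℕ}
    (h : ∃ g : G ⧸ N, orderOf g = n) : ∃ g : G, orderOf g = n := by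
  obtain ⟨g, hg⟩ := h
  obtain ⟨x, rfl⟩ := QuotientGroup.mk'_surjective N g
  refine ⟨x ^ (orderOf x / n), ?_⟩
  have h22 : orderOf x ≠ 0 := (orderOf_pos x).ne'
  refine orderOf_pow_orderOf_div h22 ?_
  rw [← hg]
  exact orderOf_map_dvd (QuotientGroup.mk' N) x

/-- the step for a normal subgroup of order prime to `p` -/
theorem step_prime_to [Finite G] {p q : ℕ} (hp : p.Prime) (hq : q.Prime) (hpq : p ≠ q) (a : ℕ)
    (N : Subgroup G) [N.Normal] (hN : ¬ p ∣ Nat.card N)
    (h : SPn (G ⧸ N) (p ^ (a + 1) * q)) : SPn G (p ^ (a + 1) * q) := by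
  classical
  intro u haug hu
  have hu0 : 0 < p ^ (a + 1) * q := Nat.mul_pos (pow_pos hp.pos _) hq.pos
  have haugr : sg (Set.univ : Set (G ⧸ N)) (red N u) = 1 := by rw [aug_red, haug]
  by_cases hord : orderOf (red N u) = p ^ (a + 1) * q
  · exact lift_order N (h _ haugr hord)
  -- the order of the image divides `p ^ (a + 1)`
  have hordv : orderOf (u ^ p ^ a) = p * q := by
    rw [orderOf_pow_of_dvd (pow_pos hp.pos _).ne' (by
      rw [hu, pow_succ, mul_assoc]; exact dvd_mul_right _ _), hu, pow_succ, mul_assoc,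
      Nat.mul_div_cancel_left _ (pow_pos hp.pos _)]
  have hordw : orderOf (u ^ (p ^ a * q)) = p := by
    rw [orderOf_pow_of_dvd (Nat.mul_pos (pow_pos hp.pos _) hq.pos).ne' (by
      rw [hu, pow_succ]; exact ⟨p, by ring⟩), hu]
    have : p ^ (a + 1) * q = p ^ a * q * p := by ring
    rw [this, Nat.mul_div_cancel_left _ (Nat.mul_pos (pow_pos hp.pos _) hq.pos)]
  have hw1 : red N (u ^ (p ^ a * q)) ≠ 1 := fun h' =>
    hN (kernel N _ (aug_pow u haug _) p hp hordw h')
  have hdvd : orderOf (red N u) ∣ p ^ (a + 1) * q := by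
    rw [orderOf_dvd_iff_pow_eq_one, ← map_pow, ← hu, pow_orderOf_eq_one, map_one]
  have hpa : (red N u) ^ p ^ (a + 1) = 1 := by
    rw [← orderOf_dvd_iff_pow_eq_one]
    by_contra hcon
    -- then `q` and `p ^ (a + 1)` divide the order
    have h1 : q ∣ orderOf (red N u) := by
      by_contra h2
      apply hcon
      exact Nat.Coprime.dvd_of_dvd_mul_right
        (Nat.Coprime.symm ((Nat.Prime.coprime_iff_not_dvd hq).2 h2)) hdvd
    obtain ⟨m, hm⟩ := h1
    have h3 : m ∣ p ^ (a + 1) := by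
      rw [hm, mul_comm] at hdvd
      exact Nat.dvd_of_mul_dvd_mul_right hq.pos hdvd
    obtain ⟨j, hj, rfl⟩ := (Nat.dvd_prime_pow hp).1 h3
    by_cases hja : j = a + 1
    · apply hord
      rw [hm, hja, mul_comm]
    · apply hw1
      rw [map_pow, ← orderOf_dvd_iff_pow_eq_one, hm, mul_comm]
      exact Nat.mul_dvd_mul (pow_dvd_pow p (by omega)) (dvd_refl q)
  have hvr : (red N (u ^ p ^ a)) ^ p = 1 := by
    rw [map_pow, ← pow_mul, ← pow_succ, hpa]
  have hvr1 : red N (u ^ p ^ a) ≠ 1 := by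
    intro h'
    apply hw1
    rw [pow_mul, map_pow, h', one_pow]
  refine final_step hp hq hpq a u haug hu ?_
  -- the sum over the `p`-regular elements
  have hA : sg {x : G | ¬ p ∣ orderOf x} (u ^ p ^ a) = 0 := by
    have h1 : ((QuotientGroup.mk' N) ⁻¹' {y : G ⧸ N | ¬ p ∣ orderOf y} : Set G) =
        {x : G | ¬ p ∣ orderOf x} := by
      ext x
      rw [Set.mem_preimage, Set.mem_ofPred_eq, Set.mem_ofPred_eq, not_iff_not]
      constructor
      · intro h'
        exact h'.trans (orderOf_map_dvd (QuotientGroup.mk' N) x)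
      · intro h'
        by_contra h2
        have h3 : x ^ orderOf (QuotientGroup.mk' N x) ∈ N := by
          rw [← QuotientGroup.eq_one_iff, QuotientGroup.mk_pow]
          exact pow_orderOf_eq_one (QuotientGroup.mk' N x)
        have h4 : (x ^ orderOf (QuotientGroup.mk' N x)) ^ Nat.card N = 1 := by
          have := pow_card_eq_one' (x := (⟨_, h3⟩ : N))
          exact congrArg Subtype.val this
        rw [← pow_mul] at h4
        have h5 := h'.trans (orderOf_dvd_of_pow_eq_one h4)
        rcases (Nat.Prime.dvd_mul hp).1 h5 with h6 | h6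
        · exact h2 h6
        · exact hN h6
    rw [← h1, ← sg_red]
    refine sg_zero p hp.pos _ hvr (by rw [aug_red]; exact aug_pow u haug _) hvr1
      (CI.ord (fun k => ¬ p ∣ k)) fun x hx => ?_
    by_cases hx1 : x = 1
    · exact Or.inl hx1
    right
    have h6 : orderOf x ≠ 1 := fun h => hx1 (orderOf_eq_one_iff.1 h)
    obtain ⟨s, hs, hsx⟩ := Nat.exists_prime_and_dvd h6
    refine ⟨s, hs, hsx, fun h => hx ?_⟩
    rw [← (Nat.prime_dvd_prime_iff_eq hs hp).1 h]
    exact hsx
  have hB : sg {x : G | ¬ q ∣ orderOf x ∧ ¬ p ∣ orderOf x} (u ^ p ^ a) = 0 := by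
    refine sg_zero (p * q) (Nat.mul_pos hp.pos hq.pos) _ (by
      rw [← hordv]; exact pow_orderOf_eq_one _) (aug_pow u haug _) ?_
      (CI.ord (fun k => ¬ q ∣ k ∧ ¬ p ∣ k)) fun x hx => ?_
    · intro h'
      rw [h', orderOf_one] at hordv
      have h2 := Nat.eq_one_of_mul_eq_one_right hordv.symm
      exact hp.one_lt.ne' h2
    by_cases hx1 : x = 1
    · exact Or.inl hx1
    right
    have h6 : orderOf x ≠ 1 := fun h => hx1 (orderOf_eq_one_iff.1 h)
    obtain ⟨s, hs, hsx⟩ := Nat.exists_prime_and_dvd h6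
    refine ⟨s, hs, hsx, fun h => ?_⟩
    rcases (Nat.Prime.dvd_mul hs).1 h with h7 | h7
    · apply hx.2
      rw [← (Nat.prime_dvd_prime_iff_eq hs hp).1 h7]
      exact hsx
    · apply hx.1
      rw [← (Nat.prime_dvd_prime_iff_eq hs hq).1 h7]
      exact hsx
  have hU : {x : G | ¬ p ∣ orderOf x} = {x : G | q ∣ orderOf x ∧ ¬ p ∣ orderOf x} ∪
      {x : G | ¬ q ∣ orderOf x ∧ ¬ p ∣ orderOf x} := by
    ext x
    rw [Set.mem_union, Set.mem_ofPred_eq, Set.mem_ofPred_eq, Set.mem_ofPred_eq]
    tauto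
  have hD : Disjoint {x : G | q ∣ orderOf x ∧ ¬ p ∣ orderOf x}
      {x : G | ¬ q ∣ orderOf x ∧ ¬ p ∣ orderOf x} := by
    rw [Set.disjoint_left]
    exact fun x h h' => h'.1 h.1
  rw [hU, sg_union hD, hB, add_zero] at hA
  exact hA

end H58.SP
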