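import Pool.Agent.H58.SP.Mob
import Pool.Agent.H58.SP.Steps

/-!
# The step for an elementary abelian normal `p`-subgroup
-/

set_option autoImplicit false

namespace H58.SP

open MonoidAlgebra Module

variable {G : Type*} [Group G] [Finite G]

/-- Dirichlet's theorem and the congruences of Dold: coprime powers -/
theorem sg_pow_coprime (v : MonoidAlgebra ℤ G) (n : ℕ) (hn : n ≠ 0) (hv : v ^ n = 1) (l : ℕ)
    (hl : l.Coprime n) (P : ℕ → Prop) :
    sg {x : G | P (orderOf x)} (v ^ l) = sg {x : G | P (orderOf x)} v := by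
  classical
  have : Fintype G := Fintype.ofFinite G
  by_contra hcon
  set S := {x : G | P (orderOf x)} with hS
  have hD : sg S (v ^ l) - sg S v ≠ 0 := sub_ne_zero.2 hcon
  obtain ⟨r, hr1, hr2, hr3⟩ := Nat.forall_exists_prime_gt_and_modEq
    (max (Fintype.card G) (sg S (v ^ l) - sg S v).natAbs) hn hl
  have hr4 := lt_of_le_of_lt (le_max_left _ _) hr1
  have hr5 := lt_of_le_of_lt (le_max_right _ _) hr1
  have : Fact r.Prime := ⟨hr2⟩
  have h1 := dold_int r 0 (CI.ord P : CI S) v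
  have h2 : v ^ r = v ^ l := pow_eq_pow_of_modEq hr3 hv
  have h3 : {x : G | x ^ r ∈ S} = S := by
    ext x
    rw [Set.mem_ofPred_eq, hS, Set.mem_ofPred_eq, Set.mem_ofPred_eq]
    have h4 : orderOf (x ^ r) = orderOf x := by
      refine Nat.Coprime.orderOf_pow ?_
      rw [Nat.coprime_comm, Nat.Prime.coprime_iff_not_dvd hr2]
      intro h5
      have h6 := Nat.le_of_dvd (orderOf_pos x) h5
      have h7 := orderOf_le_card_univ (x := x)
      omega
    rw [h4]
  rw [zero_add, pow_one, pow_one, pow_zero, pow_one, h2, h3] at h1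
  have h4 : (r : ℤ).natAbs ∣ (sg S (v ^ l) - sg S v).natAbs := Int.natAbs_dvd_natAbs.2 h1
  rw [Int.natAbs_natCast] at h4
  have h5 := Nat.le_of_dvd (Int.natAbs_pos.2 hD) h4
  omega

omit [Finite G] in
theorem sum_expand {A : Type*} [Ring A] (c s : A) (p q : ℕ) (hp : 0 < p) (hq : 0 < q) :
    (∑ i ∈ Finset.range p, c ^ i - 1) * (∑ j ∈ Finset.range q, s ^ j - 1) =
      ∑ i ∈ Finset.range (p - 1), ∑ j ∈ Finset.range (q - 1), c ^ (i + 1) * s ^ (j + 1) := by
  have h1 : ∀ (x : A) (n : ℕ), 0 < n → ∑ i ∈ Finset.range n, x ^ i - 1 =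
      ∑ i ∈ Finset.range (n - 1), x ^ (i + 1) := by
    intro x n hn
    obtain ⟨k, rfl⟩ : ∃ k, n = k + 1 := ⟨n - 1, by omega⟩
    rw [Finset.sum_range_succ', pow_zero, add_sub_cancel_right, Nat.add_sub_cancel]
  rw [h1 c p hp, h1 s q hq, Finset.sum_mul_sum]

/-- the vanishing -/
theorem key_zero {p q : ℕ} (hp : p.Prime) (hq : q.Prime) (hpq : p ≠ q) (N : Subgroup G) [N.Normal]
    (hcomm : ∀ a ∈ N, ∀ b ∈ N, a * b = b * a) (hexp : ∀ a ∈ N, a ^ p = 1)
    (v : MonoidAlgebra ℤ G) (haug : sg (Set.univ : Set G) v = 1) (hord : orderOf v = p * q)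
    (hred : red N (v ^ q) = 1) :
    sg {x : G | q ∣ orderOf x ∧ ¬ p ∣ orderOf x} v = 0 := by
  classical
  have : Fintype G := Fintype.ofFinite G
  have : Fact p.Prime := ⟨hp⟩
  have hcop : Nat.Coprime p q := (Nat.coprime_primes hp hq).2 hpq
  have hv : v ^ (p * q) = 1 := by rw [← hord, pow_orderOf_eq_one]
  obtain ⟨α, hα1, hα2⟩ := Nat.chineseRemainder hcop 1 0
  obtain ⟨β, hβ1, hβ2⟩ := Nat.chineseRemainder hcop 0 1
  have hqα : q ∣ α := (Nat.modEq_zero_iff_dvd).1 hα2
  have hpβ : p ∣ β := (Nat.modEq_zero_iff_dvd).1 hβ1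
  set c := v ^ α with hc
  set s := v ^ β with hs
  have hcp : c ^ p = 1 := by
    obtain ⟨k, hk⟩ := hqα
    rw [hc, hk, ← pow_mul, show q * k * p = p * q * k by ring, pow_mul, hv, one_pow]
  have hsq : s ^ q = 1 := by
    obtain ⟨k, hk⟩ := hpβ
    rw [hs, hk, ← pow_mul, show p * k * q = p * q * k by ring, pow_mul, hv, one_pow]
  have hcs : c * s = s * c := by rw [hc, hs, ← pow_add, ← pow_add, add_comm]
  have hc1 : c ≠ 1 := by
    intro h
    have h1 := orderOf_dvd_of_pow_eq_one h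
    rw [hord] at h1
    have h2 : p ∣ α := (dvd_mul_right p q).trans h1
    have h3 := (Nat.modEq_zero_iff_dvd).2 h2
    have h4 := hα1.symm.trans h3
    exact hp.one_lt.ne' (Nat.dvd_one.1 ((Nat.modEq_zero_iff_dvd).1 h4))
  have hordc : orderOf c = p := orderOf_eq_prime hcp hc1
  have hredc : red N c = 1 := by
    obtain ⟨k, hk⟩ := hqα
    rw [hc, hk, pow_mul, map_pow, hred, one_pow]
  have haugc : sg (Set.univ : Set G) c = 1 := aug_pow v haug α
  have : IsMulCommutative N := ⟨⟨fun a b => Subtype.ext (hcomm a a.2 b b.2)⟩⟩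
  let _ : CommGroup N := cgN N
  let _ : Module (ZMod p) (Additive N) := AddCommGroup.zmodModule (n := p) (fun x => by
    have h := hexp (Additive.toMul x : N) (Additive.toMul x : N).2
    exact Subtype.ext h)
  have hker := ker_small (p := p) N c hredc hordc haugc
  have h1 := sg_prod_zero (p := p) (q := q) c s hcp hsq hcs
    (fun h => hpq ((Nat.prime_dvd_prime_iff_eq hp hq).1 h)) hq.pos (coeff_norm c hordc haugc) hker
    (fun d => q ∣ d ∧ ¬ p ∣ d) (fun d hd => hd.2)
  rw [sum_expand c s p q hp.pos hq.pos, map_sum] at h1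
  have h2 : ∀ i ∈ Finset.range (p - 1), sg {x : G | q ∣ orderOf x ∧ ¬ p ∣ orderOf x}
      (∑ j ∈ Finset.range (q - 1), c ^ (i + 1) * s ^ (j + 1)) =
      (q - 1 : ℕ) • sg {x : G | q ∣ orderOf x ∧ ¬ p ∣ orderOf x} v := by
    intro i hi
    rw [map_sum]
    have h3 : ∀ j ∈ Finset.range (q - 1), sg {x : G | q ∣ orderOf x ∧ ¬ p ∣ orderOf x}
        (c ^ (i + 1) * s ^ (j + 1)) = sg {x : G | q ∣ orderOf x ∧ ¬ p ∣ orderOf x} v := by
      intro j hj
      rw [Finset.mem_range] at hi hj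
      have e : c ^ (i + 1) * s ^ (j + 1) = v ^ (α * (i + 1) + β * (j + 1)) := by
        rw [hc, hs, ← pow_mul, ← pow_mul, ← pow_add]
      rw [e]
      refine sg_pow_coprime v (p * q) (Nat.mul_pos hp.pos hq.pos).ne' hv _ ?_
        (fun d => q ∣ d ∧ ¬ p ∣ d)
      refine Nat.Coprime.mul_right ?_ ?_
      · rw [Nat.coprime_comm, Nat.Prime.coprime_iff_not_dvd hp]
        intro h4
        have h5 : p ∣ α * (i + 1) := (Nat.dvd_add_iff_left (hpβ.mul_right _)).2 h4
        have h6 : α * (i + 1) ≡ 1 * (i + 1) [MOD p] := hα1.mul_right _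
        rw [one_mul] at h6
        have h7 := (Nat.modEq_zero_iff_dvd).1 (h6.symm.trans ((Nat.modEq_zero_iff_dvd).2 h5))
        have h8 := Nat.le_of_dvd (Nat.succ_pos i) h7
        omega
      · rw [Nat.coprime_comm, Nat.Prime.coprime_iff_not_dvd hq]
        intro h4
        have h5 : q ∣ β * (j + 1) := (Nat.dvd_add_iff_right (hqα.mul_right _)).2 h4
        have h6 : β * (j + 1) ≡ 1 * (j + 1) [MOD q] := hβ2.mul_right _
        rw [one_mul] at h6
        have h7 := (Nat.modEq_zero_iff_dvd).1 (h6.symm.trans ((Nat.modEq_zero_iff_dvd).2 h5))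
        have h8 := Nat.le_of_dvd (Nat.succ_pos j) h7
        omega
    rw [Finset.sum_congr rfl h3, Finset.sum_const, Finset.card_range]
  rw [Finset.sum_congr rfl h2, Finset.sum_const, Finset.card_range, smul_smul, nsmul_eq_mul] at h1
  refine (mul_eq_zero.1 h1).resolve_left ?_
  have := hp.two_le
  have := hq.two_le
  have h3 : (p - 1) * (q - 1) ≠ 0 := Nat.mul_ne_zero (by omega) (by omega)
  exact_mod_cast h3

/-- the step for an elementary abelian normal `p`-subgroup -/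
theorem step_p {p q : ℕ} (hp : p.Prime) (hq : q.Prime) (hpq : p ≠ q) (a : ℕ) (N : Subgroup G)
    [N.Normal] (hcomm : ∀ a ∈ N, ∀ b ∈ N, a * b = b * a) (hexp : ∀ a ∈ N, a ^ p = 1)
    (h : SPn (G ⧸ N) (p ^ (a + 1) * q)) : SPn G (p ^ (a + 1) * q) := by
  classical
  intro u haug hu
  have haugr : sg (Set.univ : Set (G ⧸ N)) (red N u) = 1 := by rw [aug_red, haug]
  by_cases hord : orderOf (red N u) = p ^ (a + 1) * q
  · exact lift_order N (h _ haugr hord)
  have hordv : orderOf (u ^ p ^ a) = p * q := by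
    rw [orderOf_pow_of_dvd (pow_pos hp.pos _).ne' (by
      rw [hu, pow_succ, mul_assoc]; exact dvd_mul_right _ _), hu, pow_succ, mul_assoc,
      Nat.mul_div_cancel_left _ (pow_pos hp.pos _)]
  have hordw : orderOf (u ^ p ^ (a + 1)) = q := by
    rw [orderOf_pow_of_dvd (pow_pos hp.pos _).ne' (by rw [hu]; exact dvd_mul_right _ _), hu,
      Nat.mul_div_cancel_left _ (pow_pos hp.pos _)]
  have hqN : ¬ q ∣ Nat.card N := by
    intro h1
    have : Fact q.Prime := ⟨hq⟩
    obtain ⟨x, hx⟩ := exists_prime_orderOf_dvd_card' q h1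
    have h2 : x ^ p = 1 := Subtype.ext (hexp x x.2)
    have h3 := orderOf_dvd_of_pow_eq_one h2
    rw [hx] at h3
    exact hpq ((Nat.prime_dvd_prime_iff_eq hq hp).1 h3).symm
  have hw1 : red N (u ^ p ^ (a + 1)) ≠ 1 := fun h' =>
    hqN (kernel N _ (aug_pow u haug _) q hq hordw h')
  have hdvd : orderOf (red N u) ∣ p ^ (a + 1) * q := by
    rw [orderOf_dvd_iff_pow_eq_one, ← map_pow, ← hu, pow_orderOf_eq_one, map_one]
  have hpa : (red N u) ^ (p ^ a * q) = 1 := by
    have h1 : q ∣ orderOf (red N u) := by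
      by_contra h2
      apply hw1
      rw [map_pow, ← orderOf_dvd_iff_pow_eq_one]
      exact Nat.Coprime.dvd_of_dvd_mul_right
        (Nat.Coprime.symm ((Nat.Prime.coprime_iff_not_dvd hq).2 h2)) hdvd
    obtain ⟨m, hm⟩ := h1
    have h3 : m ∣ p ^ (a + 1) := by
      rw [hm, mul_comm] at hdvd
      exact Nat.dvd_of_mul_dvd_mul_right hq.pos hdvd
    obtain ⟨j, hj, rfl⟩ := (Nat.dvd_prime_pow hp).1 h3
    rw [← orderOf_dvd_iff_pow_eq_one, hm, mul_comm]
    have hja : j ≠ a + 1 := fun h => hord (by rw [hm, h, mul_comm])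
    exact Nat.mul_dvd_mul (pow_dvd_pow p (by omega)) (dvd_refl q)
  refine final_step hp hq hpq a u haug hu ?_
  refine key_zero hp hq hpq N hcomm hexp _ (aug_pow u haug _) hordv ?_
  rw [← pow_mul, map_pow, hpa]

end H58.SP
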